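import Pool.Agent.TH213.EQ.Stage1c

/-!
# Equisingularity of `x⁴ + y⁴ + t x² y² + z⁵ = 0` along the `t`-axis
-/

set_option autoImplicit false

namespace Pool.Agent.TH213.EQ

open MvPolynomial

/-- The ideal of the `t`-axis. -/
noncomputable def WW : Ideal (MvPolynomial (Fin 4) ℂ) := Ideal.span {X 0, X 1, X 3}

/-- The points of the `t`-axis. -/
def QQ (t : ℂ) : Fin 4 → ℂ := ![0, 0, t, 0]

lemma mem_WW_iff (g : MvPolynomial (Fin 4) ℂ) (h : ∃ a b c, g = a * X 0 + b * X 1 + c * X 3) :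
    g ∈ WW := by
  obtain ⟨a, b, c, rfl⟩ := h
  refine Ideal.add_mem _ (Ideal.add_mem _ ?_ ?_) ?_ <;>
    refine Ideal.mul_mem_left _ _ (Ideal.subset_span ?_) <;> simp

lemma inSing_ff : InSing ff WW := by
  refine ⟨mem_WW_iff _ ⟨X 0 ^ 3 + X 2 * X 0 * X 1 ^ 2, X 1 ^ 3, X 3 ^ 4, ?_⟩, fun i => ?_⟩
  · rw [ff]; ring
  · fin_cases i
    · refine mem_WW_iff _ ⟨4 * X 0 ^ 2 + 2 * X 2 * X 1 ^ 2, 0, 0, ?_⟩
      simp [ff, pderiv_X]
      ring
    · refine mem_WW_iff _ ⟨0, 4 * X 1 ^ 2 + 2 * X 2 * X 0 ^ 2, 0, ?_⟩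
      simp [ff, pderiv_X]
      ring
    · refine mem_WW_iff _ ⟨X 0 * X 1 ^ 2, 0, 0, ?_⟩
      simp [ff, pderiv_X]
      ring
    · refine mem_WW_iff _ ⟨0, 0, 5 * X 3 ^ 3, ?_⟩
      simp [ff, pderiv_X]
      ring

lemma WW_vanish (t : ℂ) : ∀ g ∈ WW, eval (QQ t) g = 0 := by
  intro g hg
  have h : WW ≤ RingHom.ker (eval (QQ t)) := by
    rw [WW, Ideal.span_le]
    intro x hx
    simp only [Set.mem_insert_iff, Set.mem_singleton_iff] at hx
    rcases hx with rfl | rfl | rfl <;> simp [QQ, RingHom.mem_ker]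
  exact h hg

/-- The image of a point of `V(W)`. -/
lemma projId_vanish {K : Type} [Field K] {r : ℕ} (W : Ideal (MvPolynomial (Fin (r + 1)) K))
    (Q : Fin (r + 1) → K) (h : ∀ g ∈ W, eval Q g = 0) :
    ∀ g ∈ projId W, eval (projPt Q) g = 0 := by
  intro g hg
  set i := algebraMap K (GF K r) with hi
  have h1 : Ideal.map (MvPolynomial.map i) W ≤
      RingHom.ker (eval (fun j => i (Q j)) : MvPolynomial (Fin (r + 1)) (GF K r) →+* _) := by
    rw [Ideal.map_le_iff_le_comap]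
    intro x hx
    rw [Ideal.mem_comap, RingHom.mem_ker, eval_map]
    have h2 : eval₂ i (fun j => i (Q j)) x = i (eval Q x) :=
      (eval₂_comp_left i (RingHom.id K) Q x).symm
    rw [h2, h x hx, map_zero]
  have h2 := h1 (show _ ∈ Ideal.map (MvPolynomial.map i) W from hg)
  rw [RingHom.mem_ker] at h2
  rw [← h2]
  have key : (eval (projPt Q) : MvPolynomial (Fin r) (GF K r) →+* _) =
      (eval (fun j => i (Q j))).comp (aeval (fun i => ∑ j, C (gu K r i j) * X j) :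
        MvPolynomial (Fin r) (GF K r) →ₐ[GF K r] MvPolynomial (Fin (r + 1)) (GF K r)).toRingHom := by
    refine MvPolynomial.ringHom_ext (fun x => ?_) (fun j => ?_)
    · simp
    · simp [pushPt, hi]
  exact DFunLike.congr_fun key g

/-- Membership in the image of the stratum. -/
lemma mem_projId_WW (G : MvPolynomial (Fin 3) (GF ℂ 3))
    (h : ∀ (B : Type) [CommRing B] (i : GF ℂ 3 →+* B) (x : B),
      eval₂ i (fun j => i (gu ℂ 3 j 2) * x) G = 0) : G ∈ projId WW := by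
  set J : Ideal (MvPolynomial (Fin 4) (GF ℂ 3)) :=
    Ideal.map (MvPolynomial.map (algebraMap ℂ (GF ℂ 3))) WW with hJ
  have hX : ∀ j : Fin 4, j ≠ 2 → (X j : MvPolynomial (Fin 4) (GF ℂ 3)) ∈ J := by
    intro j hj
    have h1 : (X j : MvPolynomial (Fin 4) ℂ) ∈ WW := by
      refine Ideal.subset_span ?_
      fin_cases j
      · simp
      · simp
      · exact absurd rfl hj
      · simp
    have h2 := Ideal.mem_map_of_mem (MvPolynomial.map (algebraMap ℂ (GF ℂ 3))) h1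
    rwa [map_X] at h2
  have h1 := h (MvPolynomial (Fin 4) (GF ℂ 3) ⧸ J) ((Ideal.Quotient.mk J).comp C)
    (Ideal.Quotient.mk J (X 2))
  change aeval _ G ∈ J
  rw [← Ideal.Quotient.eq_zero_iff_mem, ← h1]
  have key : (Ideal.Quotient.mk J).comp (aeval (fun i => ∑ j, C (gu ℂ 3 i j) * X j) :
        MvPolynomial (Fin 3) (GF ℂ 3) →ₐ[GF ℂ 3] MvPolynomial (Fin 4) (GF ℂ 3)).toRingHom =
      eval₂Hom ((Ideal.Quotient.mk J).comp C) (fun j => ((Ideal.Quotient.mk J).comp C)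
        (gu ℂ 3 j 2) * Ideal.Quotient.mk J (X 2)) := by
    refine MvPolynomial.ringHom_ext (fun x => ?_) (fun j => ?_)
    · simp [algebraMap_eq]
    · have h0 : Ideal.Quotient.mk J (X 0) = 0 :=
        Ideal.Quotient.eq_zero_iff_mem.2 (hX 0 (by decide))
      have h1 : Ideal.Quotient.mk J (X 1) = 0 :=
        Ideal.Quotient.eq_zero_iff_mem.2 (hX 1 (by decide))
      have h3 : Ideal.Quotient.mk J (X 3) = 0 :=
        Ideal.Quotient.eq_zero_iff_mem.2 (hX 3 (by decide))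
      simp [Fin.sum_univ_four, h0, h1, h3]
  exact DFunLike.congr_fun key G

lemma bridge {K : Type} [Field K] (δ : MvPolynomial (Fin 3) K)
    (δt : Polynomial (MvPolynomial (Fin 3) K)) (e : ℕ) (h : theta δ = powmul Polynomial.X δt e) :
    theta δ = Polynomial.X ^ e * δt := h

theorem stage2_simple' {K k : Type} [Field K] [Field k] [Algebra K k] [CharZero K] [CharZero k]
    [IsAlgClosed k] (P : GP K k 2)
    (R : MvPolynomial (Fin 3) K) (hR : Squarefree R) (hdeg : 0 < R.totalDegree)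
    (q : Fin 3 → K) (L L' : Fin 3 → Fin 3 → K)
    (hLL' : ∀ i j, ∑ m, L i m * L' m j = if i = j then 1 else 0)
    (hL'L : ∀ i j, ∑ m, L' i m * L m j = if i = j then 1 else 0)
    (δ : MvPolynomial (Fin 3) K) (δt : Polynomial (MvPolynomial (Fin 3) K)) (e : ℕ)
    (H1 : theta δ = powmul Polynomial.X δt e)
    (H2 : eval ![1, 0, 0] (δt.coeff 0) ≠ 0)
    (H3 : (aeval ![Polynomial.X, 1, 0] (δt.coeff 0) : Polynomial K).Separable)
    (hρ : aff q L R ∣ δ)
    (hw : ∀ m : Fin 3 →₀ ℕ, coeff m (aff q L R) ≠ 0 → 2 ≤ m 0 + m 1) :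
    ∃ D', IsRed D' (P.fib R).discr ∧ Simple D' (P.pt q) :=
  stage2_simple P R hR hdeg q L L' hLL' hL'L δ δt e (bridge _ _ _ H1) H2 H3 hρ hw

theorem eq_inr {r : ℕ} {K : Type} [Field K] {f : MvPolynomial (Fin (r + 1 + 1)) K}
    {W : Ideal (MvPolynomial (Fin (r + 1 + 1)) K)} {Q : Fin (r + 1 + 1) → K} (h1 : InSing f W)
    (D : MvPolynomial (Fin (r + 1)) (GF K (r + 1))) (hD : IsRed D (fib f).discr)
    (h : Equisingular r (GF K (r + 1)) D (projId W) (projPt Q)) : Equisingular (r + 1) K f W Q :=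
  Or.inr ⟨h1, D, hD, h⟩

theorem eq_inl {r : ℕ} {K : Type} [Field K] {f : MvPolynomial (Fin (r + 1 + 1)) K}
    {W : Ideal (MvPolynomial (Fin (r + 1 + 1)) K)} {Q : Fin (r + 1 + 1) → K} (h1 : ¬ InSing f W)
    (h : Simple f Q) : Equisingular (r + 1) K f W Q :=
  Or.inl ⟨h1, h⟩

/-- Equisingularity at the points which satisfy the genericity conditions. -/
theorem equisingular_of_good (t : ℂ) (hg : Good (gp ℂ 3) (algebraMap ℂ (GF ℂ 3) t)) :
    Equisingular 3 ℂ ff WW (QQ t) := by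
  set t0 := algebraMap ℂ (GF ℂ 3) t with ht0
  have hda := discr_aff (gp ℂ 3) t0
  have hδ0 : S4 (Pz (gp ℂ 3) t0) ≠ 0 := by
    obtain ⟨e, he, h1⟩ := H1 (gp ℂ 3) t0
    intro h
    rw [h, map_zero] at h1
    have h2 := tc_powmul (S4 (Pt (gp ℂ 3) t0)) e (by
      intro h3
      have := H2 hg
      rw [h3, map_zero] at this
      exact this rfl)
    rw [← h1] at h2
    have h3 := H2 hg
    rw [← h2] at h3
    simp at h3
  have hE0 : (fib ff).discr ≠ 0 := by
    intro h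
    rw [fib_eq] at h
    rw [h, map_zero, mul_zero] at hda
    exact hδ0 hda.symm
  obtain ⟨D, hD⟩ := exists_isRed _ hE0
  have hD1 := hD
  obtain ⟨hDsq, hDdvd, M, hM⟩ := hD
  rw [fib_eq] at hDdvd hM
  obtain ⟨e, he, h1⟩ := H1 (gp ℂ 3) t0
  have hgd : aff (q1 (gp ℂ 3) t0) (Lm (gp ℂ 3)) D ∣ S4 (Pz (gp ℂ 3) t0) := by
    rw [← hda]
    exact (map_dvd _ hDdvd).mul_left _
  have h125 : (125 : GF ℂ 3) ≠ 0 := by norm_num
  have hw := weights (aff (q1 (gp ℂ 3) t0) (Lm (gp ℂ 3)) D) (S4 (Pz (gp ℂ 3) t0))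
    (S4 (Pt (gp ℂ 3) t0)) e h1 (H3 hg) (E_natDegree hg) 125 h125 hgd M (by
      rw [← hda, ← map_pow]
      exact mul_dvd_mul_left _ (map_dvd _ hM))
  have hLL' := Lm_mul (gp ℂ 3) hg.h0
  have hL'L := Lm'_mul (gp ℂ 3) hg.h0
  have hin : InSing D (projId WW) := by
    -- `W*` is in the singular locus of the branch locus
    have key : ∀ (B : Type) [CommRing B] (i : GF ℂ 3 →+* B) (x : B),
        (fun j => i (gu ℂ 3 j 2) * x) = (fun j => i (q1 (gp ℂ 3) t0 j) +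
          i (Lm (gp ℂ 3) j 2) * (x - i t0)) := by
      intro B _ i x
      funext j
      have e1 : q1 (gp ℂ 3) t0 j = gu ℂ 3 j 2 * t0 := rfl
      have e2 : Lm (gp ℂ 3) j 2 = gu ℂ 3 j 2 := rfl
      rw [e1, e2, map_mul]
      ring
    refine ⟨mem_projId_WW _ fun B _ i x => ?_, fun l => mem_projId_WW _ fun B _ i x => ?_⟩
    · rw [key B i x]
      exact (eval_pderiv_axis i (q1 (gp ℂ 3) t0) (Lm (gp ℂ 3)) (Lm' (gp ℂ 3)) hLL' hw
        (x - i t0)).1
    · rw [key B i x]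
      exact (eval_pderiv_axis i (q1 (gp ℂ 3) t0) (Lm (gp ℂ 3)) (Lm' (gp ℂ 3)) hLL' hw
        (x - i t0)).2 l
  have hsec : ∃ D', IsRed D' (fib D).discr ∧ ¬ InSing D' (projId (projId WW)) ∧
      Simple D' (projPt (projPt (QQ t))) := by
    have hdeg : 0 < D.totalDegree := by
      rw [Nat.pos_iff_ne_zero]
      intro h0
      rw [totalDegree_eq_zero_iff_eq_C] at h0
      have h2 := hw 0
      rw [h0, aff_C] at h2
      have h3 : coeff 0 D ≠ 0 := by
        intro h4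
        rw [h4, map_zero] at h0
        rw [h0] at hDsq
        exact not_squarefree_zero hDsq
      have h4 := h2 (by rw [coeff_C, if_pos rfl]; exact h3)
      simp at h4
    have hq : q1 (gp ℂ 3) t0 = projPt (QQ t) := by
      funext i
      have h4 := Fin.sum_univ_four (fun j : Fin 4 => gu ℂ 3 i j * algebraMap ℂ (GF ℂ 3) (QQ t j))
      refine Eq.trans ?_ h4.symm
      simp [QQ, q1, ht0, gp]
    obtain ⟨D', hD', hS⟩ := stage2_simple' (gp (GF ℂ 3) 2) D hDsq hdeg (q1 (gp ℂ 3) t0)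
      (Lm (gp ℂ 3)) (Lm' (gp ℂ 3)) hLL' hL'L (S4 (Pz (gp ℂ 3) t0)) (S4 (Pt (gp ℂ 3) t0)) e
      h1 (H2 hg) (H3 hg) hgd hw
    refine ⟨D', ?_, ?_, ?_⟩
    · rw [fib_eq]; exact hD'
    · intro hin
      obtain ⟨i, hi⟩ := hS.2
      apply hi
      have h3 := projId_vanish (projId WW) (projPt (QQ t))
        (projId_vanish WW (QQ t) (WW_vanish t)) _ (hin.2 i)
      rw [hq]
      exact h3
    · rw [← hq]
      exact hS
  obtain ⟨D', hD', hn, hS⟩ := hsec
  exact eq_inr inSing_ff D hD1 (eq_inr hin D' hD' (eq_inl hn hS))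

end Pool.Agent.TH213.EQ
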