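import Pool.Agent.TH213.EQ.Defs

/-!
# Blowing-ups, simple points, and local analytic products (definitions)
-/

set_option autoImplicit false

namespace Pool.Agent.TH213.EQ

open MvPolynomial

/-- The complex projective space `ℙ^m`. -/
def PS (m : ℕ) : Type := Projectivization ℂ (Fin (m + 1) → ℂ)

/-- The point `[v]` with homogeneous coordinates `v ≠ 0`. -/
noncomputable def PS.mk {m : ℕ} (v : Fin (m + 1) → ℂ) (hv : v ≠ 0) : PS m :=
  Projectivization.mk ℂ v hv

/-- The Euclidean topology of `ℙ^m = (ℂ^(m+1) ∖ 0) / ℂ*` (the quotient topology). -/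
noncomputable instance instTopologicalSpacePS (m : ℕ) : TopologicalSpace (PS m) :=
  TopologicalSpace.coinduced (fun v : {v : Fin (m + 1) → ℂ // v ≠ 0} => PS.mk v.1 v.2)
    inferInstance

/-- The complex manifold `ℂ^n × ℙ^m`. -/
abbrev AP (n m : ℕ) : Type := (Fin n → ℂ) × PS m

/-- `u = (x, v)`, where `v ≠ 0`, is a coordinate vector of the point `z = (x, [v])` of
`ℂ^n × ℙ^m`. -/
def Rep {n m : ℕ} (u : (Fin n → ℂ) × (Fin (m + 1) → ℂ)) (z : AP n m) : Prop :=
  u.1 = z.1 ∧ ∃ h : u.2 ≠ 0, PS.mk u.2 h = z.2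

/-- `u = (y, (x, v))`, where `v ≠ 0`, is a coordinate vector of the point `z = (y, (x, [v]))` of
`ℂ^n × (ℂ^n × ℙ^m)`. -/
def RepProd {n m : ℕ} (u : (Fin n → ℂ) × ((Fin n → ℂ) × (Fin (m + 1) → ℂ)))
    (z : (Fin n → ℂ) × AP n m) : Prop :=
  u.1 = z.1 ∧ Rep u.2 z.2

/-- The blowing-up `V*` of the hypersurface `V : f = 0` of `ℂ^n` along the subvariety whose ideal
is generated by `g₀, …, g_m` (and contains `f`): the closure in `ℂ^n × ℙ^m` of the graph of the
map `x ↦ [g₀(x) : … : g_m(x)]` on the complement of this subvariety in `V`. The map `T* : V* → V`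
is the first projection. -/
def blowup {n m : ℕ} (f : MvPolynomial (Fin n) ℂ) (g : Fin (m + 1) → MvPolynomial (Fin n) ℂ) :
    Set (AP n m) :=
  closure {z | eval z.1 f = 0 ∧ Rep (z.1, fun i => eval z.1 (g i)) z}

/-- `F` is analytic at `u`, and its differential at `u` is surjective. -/
def IsSubmersionAt {X Y : Type} [NormedAddCommGroup X] [NormedSpace ℂ X]
    [NormedAddCommGroup Y] [NormedSpace ℂ Y] (F : X → Y) (u : X) : Prop :=
  AnalyticAt ℂ F u ∧ Function.Surjective (fderiv ℂ F u)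

/-- `z` is a simple point of `X ⊂ ℂ^n × ℙ^m`, and `X` has dimension `d` at `z`: near `z`, the set
`X` is a complex submanifold of dimension `d` of the manifold `ℂ^n × ℙ^m` (of dimension `n + m`).
This is expressed in homogeneous coordinates: near a coordinate vector `u` of `z`, the coordinate
vectors of the points of `X` are the zeros of an analytic map to `ℂ^c`, `c = n + m - d`, whose
differential at `u` is surjective. -/
def IsSimplePoint {n m : ℕ} (d : ℕ) (X : Set (AP n m)) (z : AP n m) : Prop :=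
  z ∈ X ∧ ∃ c : ℕ, d + c = n + m ∧ ∃ u, Rep u z ∧
    ∃ F : (Fin n → ℂ) × (Fin (m + 1) → ℂ) → (Fin c → ℂ), IsSubmersionAt F u ∧
      ∀ᶠ u' in nhds u, (F u' = 0 ↔ ∃ z' ∈ X, Rep u' z')

/-- `φ` is analytic on the subset `S` of `A`: near each point of `S` it is, in coordinate vectors,
the restriction to `S` of an analytic map of the ambient space. Here `R u a` says that `u` is a
coordinate vector of the point `a` of `A`, and `R' w b` says that `w` is a coordinate vector of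
the point `b` of `B`. -/
def AnalyticOnSet {X Y A B : Type} [NormedAddCommGroup X] [NormedSpace ℂ X]
    [NormedAddCommGroup Y] [NormedSpace ℂ Y] (R : X → A → Prop) (R' : Y → B → Prop) (S : Set A)
    (φ : A → B) : Prop :=
  ∀ u a, R u a → a ∈ S → ∃ F : X → Y, AnalyticAt ℂ F u ∧
    ∀ᶠ u' in nhds u, ∀ a', R u' a' → a' ∈ S → R' (F u') (φ a')

/-- The ideal generated by `g₀, …, g_m`. -/
noncomputable def idealOf {n m : ℕ} (g : Fin (m + 1) → MvPolynomial (Fin n) ℂ) :
    Ideal (MvPolynomial (Fin n) ℂ) :=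
  Ideal.span (Set.range g)

/-- `W₁ = Eqs(W/V)`: the points `Q` of the subvariety with ideal `W` such that the hypersurface
`V : f = 0` of `ℂ^(r+1)` is equisingular at `Q` along this subvariety. -/
def Eqs (r : ℕ) (f : MvPolynomial (Fin (r + 1)) ℂ) (W : Ideal (MvPolynomial (Fin (r + 1)) ℂ)) :
    Set (Fin (r + 1) → ℂ) :=
  {Q | (∀ g ∈ W, eval Q g = 0) ∧ Equisingular r ℂ f W Q}

/-- The stratum `S*` of `𝔖* = T*⁻¹(W₁)` which consists of the simple points of `V*`, where `V` is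
the hypersurface `f = 0` of `ℂ^(r+1)`, `W` is the subvariety with ideal `(g₀, …, g_m)`,
`W₁ = Eqs(W/V)`, and `V*` is the blowing-up. (The set of simple points of `V*` is
`Eqs(V*/V*)`, so it is the stratum of `V*` to which each simple point of `V*` belongs.) -/
def simpleStratum (r : ℕ) {m : ℕ} (f : MvPolynomial (Fin (r + 1)) ℂ)
    (g : Fin (m + 1) → MvPolynomial (Fin (r + 1)) ℂ) : Set (AP (r + 1) m) :=
  {z | z ∈ blowup f g ∧ z.1 ∈ Eqs r f (idealOf g) ∧ IsSimplePoint r (blowup f g) z}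

/-- `N` is a neighborhood of the point `z` of `S` in the subspace `S`. -/
def IsNbhdIn {A : Type} [TopologicalSpace A] (z : A) (S N : Set A) : Prop :=
  N ⊆ S ∧ N ∈ nhdsWithin z S

/-- `φ : N₁ × N₂ → N₃` is an analytic isomorphism (with inverse `ψ`) such that `T* ∘ φ` is the
projection onto the first factor, where `T*` is the projection `ℂ^n × ℙ^m → ℂ^n`. -/
def IsProductIso {n m : ℕ} (N₁ : Set (Fin n → ℂ)) (N₂ N₃ : Set (AP n m))
    (φ : (Fin n → ℂ) × AP n m → AP n m) (ψ : AP n m → (Fin n → ℂ) × AP n m) : Prop :=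
  Set.MapsTo φ (N₁ ×ˢ N₂) N₃ ∧ Set.MapsTo ψ N₃ (N₁ ×ˢ N₂) ∧ Set.InvOn ψ φ (N₁ ×ˢ N₂) N₃ ∧
    AnalyticOnSet RepProd Rep (N₁ ×ˢ N₂) φ ∧ AnalyticOnSet Rep RepProd N₃ ψ ∧
    ∀ z ∈ N₁ ×ˢ N₂, (φ z).1 = z.1

/-- The local analytic product structure: there exist a neighborhood `N₁` of `Q` in `W₁`, a
neighborhood `N₂` of `Qs` in `S ∩ T*⁻¹(Q)`, a neighborhood `N₃` of `Qs` in `S`, and an analytic
isomorphism `φ : N₁ × N₂ → N₃`, with inverse `ψ`, such that `T* ∘ φ` is the projection onto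
the first factor. -/
def LocalProduct {n m : ℕ} (W₁ : Set (Fin n → ℂ)) (S : Set (AP n m)) (Q : Fin n → ℂ)
    (Qs : AP n m) : Prop :=
  ∃ (N₁ : Set (Fin n → ℂ)) (N₂ N₃ : Set (AP n m)) (φ : (Fin n → ℂ) × AP n m → AP n m)
    (ψ : AP n m → (Fin n → ℂ) × AP n m),
    IsNbhdIn Q W₁ N₁ ∧ IsNbhdIn Qs {z ∈ S | z.1 = Q} N₂ ∧ IsNbhdIn Qs S N₃ ∧
    IsProductIso N₁ N₂ N₃ φ ψ

end Pool.Agent.TH213.EQ
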