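import Pool.Agent.TH213.EQ.Near

/-!
# Irreducibility of the hypersurface and of the singular axis
-/

set_option autoImplicit false

namespace Pool.Agent.TH213.EQ

open MvPolynomial

lemma WW_eq : WW = Ideal.span (X '' ({0, 1, 3} : Set (Fin 4)) : Set (MvPolynomial (Fin 4) ℂ)) := by
  unfold WW
  congr 1
  ext x
  simp only [Set.mem_insert_iff, Set.mem_singleton_iff, Set.mem_image]
  constructor
  · rintro (rfl | rfl | rfl)
    · exact ⟨0, by simp, rfl⟩
    · exact ⟨1, by simp, rfl⟩
    · exact ⟨3, by simp, rfl⟩
  · rintro ⟨i, (rfl | rfl | rfl), rfl⟩ <;> simp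

/-- The restriction to the axis. -/
noncomputable def res : MvPolynomial (Fin 4) ℂ →ₐ[ℂ] Polynomial ℂ := aeval ![0, 0, Polynomial.X, 0]

lemma coeff_res (g : MvPolynomial (Fin 4) ℂ) (n : ℕ) :
    (res g).coeff n = coeff (Finsupp.single 2 n) g := by
  induction g using MvPolynomial.induction_on' with
  | monomial m c =>
    rw [res, aeval_monomial, Finsupp.prod_fintype _ _ (fun _ => pow_zero _)]
    rw [Fin.prod_univ_four]
    simp only [Matrix.cons_val_zero, Matrix.cons_val_one, Matrix.cons_val]
    rw [Polynomial.algebraMap_eq, Polynomial.coeff_C_mul, coeff_monomial]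
    by_cases h : m = Finsupp.single 2 n
    · rw [if_pos h, h]
      simp
    · rw [if_neg h]
      by_cases h0 : m 0 = 0
      · by_cases h1 : m 1 = 0
        · by_cases h3 : m 3 = 0
          · have h2 : m 2 ≠ n := by
              intro h2
              apply h
              ext i
              fin_cases i <;> simp [h0, h1, h2, h3]
            rw [h0, h1, h3]
            simp [Polynomial.coeff_X_pow, Ne.symm h2]
          · simp [h3]
        · simp [h1]
      · simp [h0]
  | add p q hp hq => rw [map_add, Polynomial.coeff_add, coeff_add, hp, hq]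

lemma ker_res : RingHom.ker res = WW := by
  ext g
  rw [RingHom.mem_ker, WW_eq, mem_ideal_span_X_image]
  constructor
  · intro h m hm
    by_contra hno
    push Not at hno
    have h0 := hno 0 (by simp)
    have h1 := hno 1 (by simp)
    have h3 := hno 3 (by simp)
    have h4 : m = Finsupp.single 2 (m 2) := by
      ext i
      fin_cases i <;> simp [h0, h1, h3]
    have h5 := coeff_res g (m 2)
    rw [h, ← h4, Polynomial.coeff_zero] at h5
    exact (mem_support_iff.1 hm) h5.symm
  · intro h
    ext n
    rw [coeff_res, Polynomial.coeff_zero]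
    by_contra hno
    obtain ⟨i, hi, hi'⟩ := h _ (mem_support_iff.2 hno)
    simp only [Set.mem_insert_iff, Set.mem_singleton_iff] at hi
    rcases hi with rfl | rfl | rfl <;> simp at hi'

lemma WW_prime : WW.IsPrime := by
  rw [← ker_res]
  exact RingHom.ker_isPrime res

lemma ff_irreducible : Irreducible ff := by
  have h1 : ff = (X 0 ^ 2 * X 1 ^ 2) * X 2 + (X 0 ^ 4 + X 1 ^ 4 + X 3 ^ 5) := by
    rw [ff]; ring
  rw [h1]
  have hX0 : Prime (X 0 : MvPolynomial (Fin 4) ℂ) := X_prime
  have hX1 : Prime (X 1 : MvPolynomial (Fin 4) ℂ) := X_prime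
  have hnd0 : ¬ (X 0 : MvPolynomial (Fin 4) ℂ) ∣ X 0 ^ 4 + X 1 ^ 4 + X 3 ^ 5 := by
    rintro ⟨c, hc⟩
    have := congrArg (eval ![0, 1, 0, 0]) hc
    simp at this
  have hnd1 : ¬ (X 1 : MvPolynomial (Fin 4) ℂ) ∣ X 0 ^ 4 + X 1 ^ 4 + X 3 ^ 5 := by
    rintro ⟨c, hc⟩
    have := congrArg (eval ![1, 0, 0, 0]) hc
    simp at this
  apply irreducible_mul_X_add
  · exact mul_ne_zero (pow_ne_zero _ hX0.ne_zero) (pow_ne_zero _ hX1.ne_zero)
  · intro h
    have h2 := vars_mul _ _ h
    simp only [Finset.mem_union] at h2
    rcases h2 with h2 | h2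
    · have := vars_pow _ _ h2
      simp [vars_X] at this
    · have := vars_pow _ _ h2
      simp [vars_X] at this
  · intro h
    have h2 := vars_add_subset _ _ h
    simp only [Finset.mem_union] at h2
    rcases h2 with h2 | h2
    · have h3 := vars_add_subset _ _ h2
      simp only [Finset.mem_union] at h3
      rcases h3 with h3 | h3
      · have := vars_pow _ _ h3
        simp [vars_X] at this
      · have := vars_pow _ _ h3
        simp [vars_X] at this
    · have := vars_pow _ _ h2
      simp [vars_X] at this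
  · refine IsRelPrime.mul_left ?_ ?_
    · exact (hX0.irreducible.isRelPrime_iff_not_dvd.2 hnd0).pow_left
    · exact (hX1.irreducible.isRelPrime_iff_not_dvd.2 hnd1).pow_left

end Pool.Agent.TH213.EQ
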