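import Pool.Agent.TH213.EQ.Blowup
import Pool.Agent.TH213.EQ.Irred

/-!
# The blowing-up of `x⁴ + y⁴ + t x² y² + z⁵ = 0` along the `t`-axis
-/

set_option autoImplicit false

namespace Pool.Agent.TH213.EQ

open MvPolynomial Filter Topology

lemma continuous_mk (m : ℕ) :
    Continuous (fun v : {v : Fin (m + 1) → ℂ // v ≠ 0} => PS.mk v.1 v.2) :=
  continuous_coinduced_rng

lemma mk_eq_iff {m : ℕ} (v w : Fin (m + 1) → ℂ) (hv : v ≠ 0) (hw : w ≠ 0) :
    PS.mk v hv = PS.mk w hw ↔ ∃ a : ℂ, a ≠ 0 ∧ a • w = v := by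
  refine (Projectivization.mk_eq_mk_iff ℂ v w hv hw).trans ?_
  constructor
  · rintro ⟨a, ha⟩
    exact ⟨a, a.ne_zero, ha⟩
  · rintro ⟨a, ha0, ha⟩
    exact ⟨Units.mk0 a ha0, ha⟩

lemma isOpenMap_mk (m : ℕ) :
    IsOpenMap (fun v : {v : Fin (m + 1) → ℂ // v ≠ 0} => PS.mk v.1 v.2) := by
  intro U hU
  rw [isOpen_coinduced]
  have h1 : (fun v : {v : Fin (m + 1) → ℂ // v ≠ 0} => PS.mk v.1 v.2) ⁻¹'
      ((fun v : {v : Fin (m + 1) → ℂ // v ≠ 0} => PS.mk v.1 v.2) '' U) =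
      ⋃ a : {a : ℂ // a ≠ 0}, (fun v : {v : Fin (m + 1) → ℂ // v ≠ 0} =>
        (⟨a.1 • v.1, smul_ne_zero a.2 v.2⟩ : {v : Fin (m + 1) → ℂ // v ≠ 0})) ⁻¹' U := by
    ext v
    simp only [Set.mem_preimage, Set.mem_image, Set.mem_iUnion]
    constructor
    · rintro ⟨w, hw, hwv⟩
      obtain ⟨a, ha0, ha⟩ := (mk_eq_iff _ _ _ _).1 hwv
      refine ⟨⟨a, ha0⟩, ?_⟩
      have : (⟨a • v.1, smul_ne_zero ha0 v.2⟩ : {v : Fin (m + 1) → ℂ // v ≠ 0}) = w :=
        Subtype.ext ha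
      rw [this]
      exact hw
    · rintro ⟨a, ha⟩
      exact ⟨_, ha, (mk_eq_iff _ _ _ _).2 ⟨a.1, a.2, rfl⟩⟩
  rw [h1]
  refine isOpen_iUnion fun a => ?_
  refine IsOpen.preimage ?_ hU
  have hc : Continuous (fun v : {v : Fin (m + 1) → ℂ // v ≠ 0} => a.1 • v.1) :=
    continuous_subtype_val.const_smul a.1
  exact hc.subtype_mk _

/-- The generators of the ideal of the axis. -/
noncomputable def gg : Fin (2 + 1) → MvPolynomial (Fin 4) ℂ := ![X 0, X 1, X 3]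

lemma span_gg : idealOf gg = WW := by
  unfold WW idealOf
  congr 1
  ext x
  simp only [Set.mem_range, Set.mem_insert_iff, Set.mem_singleton_iff]
  constructor
  · rintro ⟨i, rfl⟩
    fin_cases i <;> simp [gg]
  · rintro (rfl | rfl | rfl)
    · exact ⟨0, rfl⟩
    · exact ⟨1, rfl⟩
    · exact ⟨2, rfl⟩

lemma eval_gg (p : Fin 4 → ℂ) : (fun i => eval p (gg i)) = ![p 0, p 1, p 3] := by
  funext i
  fin_cases i <;> simp [gg]

lemma eval_ff (p : Fin 4 → ℂ) :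
    eval p ff = p 0 ^ 4 + p 1 ^ 4 + p 2 * p 0 ^ 2 * p 1 ^ 2 + p 3 ^ 5 := by
  simp [ff]

/-- The blowing-up. -/
noncomputable def VV : Set (AP 4 2) := blowup ff gg

/-- The local equations of the blowing-up. -/
def FF (u : (Fin 4 → ℂ) × (Fin (2 + 1) → ℂ)) : Fin 3 → ℂ :=
  ![u.1 0 * u.2 2 - u.1 3 * u.2 0, u.1 1 * u.2 2 - u.1 3 * u.2 1,
    u.2 0 ^ 4 + u.2 1 ^ 4 + u.1 2 * u.2 0 ^ 2 * u.2 1 ^ 2 + u.1 3 * u.2 2 ^ 4]

lemma FF_zero_iff (u : (Fin 4 → ℂ) × (Fin (2 + 1) → ℂ)) : FF u = 0 ↔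
    u.1 0 * u.2 2 - u.1 3 * u.2 0 = 0 ∧ u.1 1 * u.2 2 - u.1 3 * u.2 1 = 0 ∧
    u.2 0 ^ 4 + u.2 1 ^ 4 + u.1 2 * u.2 0 ^ 2 * u.2 1 ^ 2 + u.1 3 * u.2 2 ^ 4 = 0 := by
  constructor
  · intro h
    exact ⟨congrFun h 0, congrFun h 1, congrFun h 2⟩
  · rintro ⟨h0, h1, h2⟩
    funext i
    fin_cases i
    · exact h0
    · exact h1
    · exact h2

lemma continuous_FF : Continuous FF := by
  unfold FF
  refine continuous_pi fun i => ?_
  fin_cases i <;> simp <;> fun_prop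

/-- The points of the blowing-up satisfy the equations. -/
lemma FF_of_mem (u : (Fin 4 → ℂ) × (Fin (2 + 1) → ℂ)) (z : AP 4 2) (hu : Rep u z) (hz : z ∈ VV) :
    FF u = 0 := by
  obtain ⟨hu1, hv, hu2⟩ := hu
  set π : (Fin 4 → ℂ) × {v : Fin (2 + 1) → ℂ // v ≠ 0} → AP 4 2 :=
    Prod.map id (fun v => PS.mk v.1 v.2) with hπ
  have hπo : IsOpenMap π := IsOpenMap.id.prodMap (isOpenMap_mk 2)
  have h1 : (u.1, (⟨u.2, hv⟩ : {v : Fin (2 + 1) → ℂ // v ≠ 0})) ∈ π ⁻¹' VV := by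
    rw [Set.mem_preimage, hπ, Prod.map_apply, id, hu1, hu2]
    exact hz
  have h2 := hπo.preimage_closure_subset_closure_preimage h1
  have hcl : IsClosed {q : (Fin 4 → ℂ) × {v : Fin (2 + 1) → ℂ // v ≠ 0} | FF (q.1, q.2.1) = 0} := by
    refine isClosed_eq ?_ continuous_const
    exact continuous_FF.comp (by fun_prop)
  have h3 := closure_minimal (t := {q : (Fin 4 → ℂ) × {v : Fin (2 + 1) → ℂ // v ≠ 0} |
    FF (q.1, q.2.1) = 0}) ?_ hcl h2
  · exact h3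
  · rintro ⟨p, v⟩ hq
    obtain ⟨hf, -, hg, hgv⟩ := hq
    change PS.mk (fun i => eval p (gg i)) hg = PS.mk v.1 v.2 at hgv
    change eval p ff = 0 at hf
    obtain ⟨a, ha0, ha⟩ := (mk_eq_iff _ _ _ _).1 hgv
    rw [eval_gg] at ha
    have a0 : a * v.1 0 = p 0 := congrFun ha 0
    have a1 : a * v.1 1 = p 1 := congrFun ha 1
    have a2 : a * v.1 2 = p 3 := congrFun ha 2
    rw [eval_ff] at hf
    change FF (p, v.1) = 0
    rw [FF_zero_iff]
    refine ⟨?_, ?_, ?_⟩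
    · change p 0 * v.1 2 - p 3 * v.1 0 = 0
      rw [← a0, ← a2]; ring
    · change p 1 * v.1 2 - p 3 * v.1 1 = 0
      rw [← a1, ← a2]; ring
    · have h4 : a ^ 4 * (v.1 0 ^ 4 + v.1 1 ^ 4 + p 2 * v.1 0 ^ 2 * v.1 1 ^ 2 +
          p 3 * v.1 2 ^ 4) = 0 := by
        rw [← hf, ← a0, ← a1, ← a2]; ring
      exact (mul_eq_zero.1 h4).resolve_left (pow_ne_zero _ ha0)

lemma ne_zero_of_two {v : Fin (2 + 1) → ℂ} (h : v 2 ≠ 0) : v ≠ 0 := fun h0 => h (by rw [h0]; rfl)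

lemma mem_graph (p : Fin 4 → ℂ) (v : Fin (2 + 1) → ℂ) (hv : v 2 ≠ 0) (hF : FF (p, v) = 0)
    (hp : p 3 ≠ 0) : (p, PS.mk v (ne_zero_of_two hv)) ∈ VV := by
  obtain ⟨e0, e1, e2⟩ := (FF_zero_iff _).1 hF
  simp only at e0 e1 e2
  apply subset_closure
  have ha : (p 3 / v 2) • v = ![p 0, p 1, p 3] := by
    funext i
    fin_cases i
    · change p 3 / v 2 * v 0 = p 0
      field_simp
      linear_combination -e0
    · change p 3 / v 2 * v 1 = p 1
      field_simp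
      linear_combination -e1
    · change p 3 / v 2 * v 2 = p 3
      field_simp
  have hne : (fun i => eval p (gg i)) ≠ 0 := by
    rw [eval_gg]
    intro h
    exact hp (congrFun h 2)
  refine ⟨?_, rfl, hne, ?_⟩
  · change eval p ff = 0
    rw [eval_ff]
    have a0 : p 0 = p 3 / v 2 * v 0 := (congrFun ha 0).symm
    have a1 : p 1 = p 3 / v 2 * v 1 := (congrFun ha 1).symm
    rw [a0, a1]
    field_simp
    linear_combination p 3 ^ 4 * e2
  · rw [mk_eq_iff]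
    exact ⟨p 3 / v 2, div_ne_zero hp hv, by rw [eval_gg]; exact ha⟩

lemma frequently_aux (a b c d : ℂ) (hd : d ≠ 0) :
    ∃ᶠ s : ℂ in 𝓝 0, -((a + s) ^ 4 + b ^ 4 + c * (a + s) ^ 2 * b ^ 2) / d ^ 4 ≠ 0 := by
  intro h
  set q : Polynomial ℂ := (Polynomial.X + Polynomial.C a) ^ 4 + Polynomial.C (b ^ 4) +
    Polynomial.C (c * b ^ 2) * (Polynomial.X + Polynomial.C a) ^ 2 with hq
  have hdeg : q.natDegree = 4 := by
    rw [hq]
    compute_degree!
  have hq0 : q ≠ 0 := by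
    intro h0
    rw [h0, Polynomial.natDegree_zero] at hdeg
    omega
  apply hq0
  apply Polynomial.eq_zero_of_infinite_isRoot
  refine Set.Infinite.mono ?_ (infinite_of_mem_nhds 0 h)
  intro s hs
  simp only [ne_eq, not_not, Set.mem_ofPred_eq] at hs
  rw [div_eq_zero_iff] at hs
  have hs' := hs.resolve_right (pow_ne_zero _ hd)
  change q.IsRoot s
  rw [Polynomial.IsRoot, hq]
  simp only [Polynomial.eval_add, Polynomial.eval_mul, Polynomial.eval_pow, Polynomial.eval_X,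
    Polynomial.eval_C]
  linear_combination -hs'

lemma mem_of_FF (p : Fin 4 → ℂ) (v : Fin (2 + 1) → ℂ) (hv : v 2 ≠ 0) (hF : FF (p, v) = 0) :
    (p, PS.mk v (ne_zero_of_two hv)) ∈ VV := by
  by_cases hp : p 3 = 0
  · obtain ⟨e0, e1, e2⟩ := (FF_zero_iff _).1 hF
    simp only [hp, zero_mul, sub_zero, add_zero] at e0 e1 e2
    have p0 : p 0 = 0 := (mul_eq_zero.1 e0).resolve_right hv
    have p1 : p 1 = 0 := (mul_eq_zero.1 e1).resolve_right hv
    set ζ : ℂ → ℂ := fun s => -((v 0 + s) ^ 4 + v 1 ^ 4 + p 2 * (v 0 + s) ^ 2 * v 1 ^ 2) / v 2 ^ 4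
      with hζ
    have hζ0 : ζ 0 = 0 := by
      rw [hζ]
      simp only [add_zero]
      rw [e2]
      simp
    set P : ℂ → (Fin 4 → ℂ) := fun s => ![ζ s * (v 0 + s) / v 2, ζ s * v 1 / v 2, p 2, ζ s] with hP
    set Vv : ℂ → (Fin (2 + 1) → ℂ) := fun s => ![v 0 + s, v 1, v 2] with hVv
    have hVv2 : ∀ s, Vv s 2 ≠ 0 := fun s => hv
    have hζc : Continuous ζ := by rw [hζ]; fun_prop
    have hPc : Continuous P := by
      refine continuous_pi fun i => ?_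
      rw [hP]
      fin_cases i <;> simp <;> fun_prop
    have hVc : Continuous Vv := by
      refine continuous_pi fun i => ?_
      rw [hVv]
      fin_cases i <;> simp <;> fun_prop
    have hc : Continuous fun s => ((P s, PS.mk (Vv s) (ne_zero_of_two (hVv2 s))) : AP 4 2) := by
      refine hPc.prodMk ?_
      have h1 : Continuous fun s => (⟨Vv s, ne_zero_of_two (hVv2 s)⟩ :
        {v : Fin (2 + 1) → ℂ // v ≠ 0}) := hVc.subtype_mk _
      exact (continuous_mk 2).comp h1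
    have hP0 : P 0 = p := by
      funext i
      rw [hP]
      fin_cases i
      · simp [hζ0, p0]
      · simp [hζ0, p1]
      · simp
      · simp [hζ0, hp]
    have hV0 : Vv 0 = v := by
      funext i
      rw [hVv]
      fin_cases i <;> simp
    have hcl : IsClosed VV := isClosed_closure
    have hmem : ((P 0, PS.mk (Vv 0) (ne_zero_of_two (hVv2 0))) : AP 4 2) ∈ VV := by
      refine hcl.mem_of_frequently_of_tendsto (f := fun s =>
        ((P s, PS.mk (Vv s) (ne_zero_of_two (hVv2 s))) : AP 4 2)) (b := 𝓝 0) ?_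
        (hc.tendsto 0)
      refine (frequently_aux (v 0) (v 1) (p 2) (v 2) hv).mono fun s hs => ?_
      refine mem_graph (P s) (Vv s) (hVv2 s) ?_ hs
      rw [FF_zero_iff]
      simp only [hP, hVv, Matrix.cons_val_zero, Matrix.cons_val_one, Matrix.cons_val]
      refine ⟨?_, ?_, ?_⟩
      · field_simp
        ring
      · field_simp
        ring
      · rw [hζ]
        field_simp
        ring
    have e3 : ((P 0, PS.mk (Vv 0) (ne_zero_of_two (hVv2 0))) : AP 4 2) =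
        (p, PS.mk v (ne_zero_of_two hv)) := by
      congr 1
      congr 1
    rw [← e3]
    exact hmem
  · exact mem_graph p v hv hF hp

lemma analytic_fst (i : Fin 4) (u : (Fin 4 → ℂ) × (Fin (2 + 1) → ℂ)) :
    AnalyticAt ℂ (fun u : (Fin 4 → ℂ) × (Fin (2 + 1) → ℂ) => u.1 i) u :=
  ((ContinuousLinearMap.proj i).comp (ContinuousLinearMap.fst ℂ (Fin 4 → ℂ)
    (Fin (2 + 1) → ℂ)) : ((Fin 4 → ℂ) × (Fin (2 + 1) → ℂ)) →L[ℂ] ℂ).analyticAt u

lemma analytic_snd (i : Fin (2 + 1)) (u : (Fin 4 → ℂ) × (Fin (2 + 1) → ℂ)) :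
    AnalyticAt ℂ (fun u : (Fin 4 → ℂ) × (Fin (2 + 1) → ℂ) => u.2 i) u :=
  ((ContinuousLinearMap.proj i).comp (ContinuousLinearMap.snd ℂ (Fin 4 → ℂ)
    (Fin (2 + 1) → ℂ)) : ((Fin 4 → ℂ) × (Fin (2 + 1) → ℂ)) →L[ℂ] ℂ).analyticAt u

lemma analytic_FF (u : (Fin 4 → ℂ) × (Fin (2 + 1) → ℂ)) : AnalyticAt ℂ FF u := by
  rw [analyticAt_pi_iff]
  intro i
  fin_cases i
  · exact ((analytic_fst 0 u).mul (analytic_snd 2 u)).sub ((analytic_fst 3 u).mul
      (analytic_snd 0 u))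
  · exact ((analytic_fst 1 u).mul (analytic_snd 2 u)).sub ((analytic_fst 3 u).mul
      (analytic_snd 1 u))
  · exact ((((analytic_snd 0 u).pow 4).add ((analytic_snd 1 u).pow 4)).add
      (((analytic_fst 2 u).mul ((analytic_snd 0 u).pow 2)).mul ((analytic_snd 1 u).pow 2))).add
      ((analytic_fst 3 u).mul ((analytic_snd 2 u).pow 4))

/-- All points of the blowing-up in the third chart are simple points. -/
lemma simple_of_FF (p : Fin 4 → ℂ) (v : Fin (2 + 1) → ℂ) (hv : v 2 ≠ 0) (hF : FF (p, v) = 0) :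
    IsSimplePoint 3 VV (p, PS.mk v (ne_zero_of_two hv)) := by
  refine ⟨mem_of_FF p v hv hF, 3, rfl, (p, v), ⟨rfl, ne_zero_of_two hv, rfl⟩, FF,
    ⟨analytic_FF _, ?_⟩, ?_⟩
  · -- surjectivity of the differential
    intro y
    set δ : Fin 4 → ℂ := ![(y 0 + y 2 / v 2 ^ 4 * v 0) / v 2, (y 1 + y 2 / v 2 ^ 4 * v 1) / v 2, 0,
      y 2 / v 2 ^ 4] with hδ
    refine ⟨(δ, 0), ?_⟩
    have h1 : HasFDerivAt FF (fderiv ℂ FF (p, v)) (p, v) :=
      (analytic_FF (p, v)).differentiableAt.hasFDerivAt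
    have h2 : HasDerivAt (fun s : ℂ => ((p + s • δ, v) : (Fin 4 → ℂ) × (Fin (2 + 1) → ℂ)))
        (δ, 0) 0 := by
      refine HasDerivAt.prodMk ?_ (hasDerivAt_const _ _)
      have h3 := ((hasDerivAt_id (0 : ℂ)).smul_const δ).const_add p
      simpa using h3
    have h3 : HasFDerivAt FF (fderiv ℂ FF (p, v)) (p + (0 : ℂ) • δ, v) := by
      rw [zero_smul, add_zero]; exact h1
    have h4 := h3.comp_hasDerivAt (0 : ℂ) h2
    have h5 : (FF ∘ fun s : ℂ => ((p + s • δ, v) : (Fin 4 → ℂ) × (Fin (2 + 1) → ℂ))) =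
        fun s => FF (p, v) + s • y := by
      have d0 : δ 0 = (y 0 + y 2 / v 2 ^ 4 * v 0) / v 2 := rfl
      have d1 : δ 1 = (y 1 + y 2 / v 2 ^ 4 * v 1) / v 2 := rfl
      have d2 : δ 2 = 0 := rfl
      have d3 : δ 3 = y 2 / v 2 ^ 4 := rfl
      funext s
      funext i
      fin_cases i
      · change (p 0 + s * δ 0) * v 2 - (p 3 + s * δ 3) * v 0 = p 0 * v 2 - p 3 * v 0 + s * y 0
        rw [d0, d3]
        field_simp
        ring
      · change (p 1 + s * δ 1) * v 2 - (p 3 + s * δ 3) * v 1 = p 1 * v 2 - p 3 * v 1 + s * y 1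
        rw [d1, d3]
        field_simp
        ring
      · change v 0 ^ 4 + v 1 ^ 4 + (p 2 + s * δ 2) * v 0 ^ 2 * v 1 ^ 2 +
          (p 3 + s * δ 3) * v 2 ^ 4 = v 0 ^ 4 + v 1 ^ 4 + p 2 * v 0 ^ 2 * v 1 ^ 2 +
          p 3 * v 2 ^ 4 + s * y 2
        rw [d2, d3]
        field_simp
        ring
    rw [h5] at h4
    have h6 : HasDerivAt (fun s : ℂ => FF (p, v) + s • y) y 0 := by
      have h3 := ((hasDerivAt_id (0 : ℂ)).smul_const y).const_add (FF (p, v))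
      simpa using h3
    exact h4.unique h6
  · have hopen : ∀ᶠ u : (Fin 4 → ℂ) × (Fin (2 + 1) → ℂ) in 𝓝 (p, v), u.2 2 ≠ 0 := by
      have hc : Continuous fun u : (Fin 4 → ℂ) × (Fin (2 + 1) → ℂ) => u.2 2 := by fun_prop
      exact hc.continuousAt.eventually_ne hv
    filter_upwards [hopen] with u hu
    constructor
    · intro h
      exact ⟨_, mem_of_FF u.1 u.2 hu h, rfl, ne_zero_of_two hu, rfl⟩
    · rintro ⟨z, hz, hz'⟩
      exact FF_of_mem u z hz' hz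

end Pool.Agent.TH213.EQ
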