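import Pool.Agent.TH213.EQ.Line

/-!
# The weighted initial form and double roots near the centre of a valuation
-/

set_option autoImplicit false

namespace Pool.Agent.TH213.EQ

open MvPolynomial

variable {K : Type} [Field K]

/-- `n ↦ τ⁵ n`, `s ↦ τ⁴ s`, `T ↦ T`. -/
noncomputable def theta : MvPolynomial (Fin 3) K →+* Polynomial (MvPolynomial (Fin 3) K) :=
  (aeval (![Polynomial.C (X 0) * Polynomial.X ^ 5, Polynomial.C (X 1) * Polynomial.X ^ 4,
    Polynomial.C (X 2)]) :
    MvPolynomial (Fin 3) K →ₐ[K] Polynomial (MvPolynomial (Fin 3) K)).toRingHom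

lemma theta_C (a : K) : theta (C a) = Polynomial.C (C a) := by
  simp only [theta, AlgHom.toRingHom_eq_coe, RingHom.coe_coe]
  rw [← algebraMap_eq, AlgHom.commutes]
  rfl

lemma theta_0 : theta (X 0 : MvPolynomial (Fin 3) K) = Polynomial.C (X 0) * Polynomial.X ^ 5 := by
  simp [theta]

lemma theta_1 : theta (X 1 : MvPolynomial (Fin 3) K) = Polynomial.C (X 1) * Polynomial.X ^ 4 := by
  simp [theta]

lemma theta_2 : theta (X 2 : MvPolynomial (Fin 3) K) = Polynomial.C (X 2) := by
  simp [theta]

/-- Substitution hom on `Polynomial A`. -/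
noncomputable def subst {B : Type} [CommRing B] (i : K →+* B) (w : Fin 3 → B) (t : B) :
    Polynomial (MvPolynomial (Fin 3) K) →+* B :=
  Polynomial.eval₂RingHom (eval₂Hom i w) t

lemma subst_theta {B : Type} [CommRing B] (i : K →+* B) (w : Fin 3 → B) (t : B) :
    (subst i w t).comp theta = eval₂Hom i ![w 0 * t ^ 5, w 1 * t ^ 4, w 2] := by
  ext j
  · simp [subst, theta_C]
  · fin_cases j
    · simp [subst, theta_0]
    · simp [subst, theta_1]
    · simp [subst, theta_2]

lemma subst_theta_apply {B : Type} [CommRing B] (i : K →+* B) (w : Fin 3 → B) (t : B)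
    (f : MvPolynomial (Fin 3) K) :
    subst i w t (theta f) = eval₂ i ![w 0 * t ^ 5, w 1 * t ^ 4, w 2] f := by
  rw [← RingHom.comp_apply, subst_theta]
  rfl

lemma subst_map {B B' : Type} [CommRing B] [CommRing B'] (i : K →+* B) (w : Fin 3 → B) (t : B)
    (g : B →+* B') (f : Polynomial (MvPolynomial (Fin 3) K)) :
    g (subst i w t f) = subst (g.comp i) (fun j => g (w j)) (g t) f := by
  rw [← RingHom.comp_apply]
  refine DFunLike.congr_fun ?_ f
  ext
  · simp [subst]
  · simp [subst]
  · simp [subst]

lemma subst_zero {B : Type} [CommRing B] (i : K →+* B) (w : Fin 3 → B)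
    (f : Polynomial (MvPolynomial (Fin 3) K)) :
    subst i w 0 f = eval₂ i w (f.coeff 0) := by
  simp only [subst, Polynomial.coe_eval₂RingHom]
  rw [Polynomial.eval₂_at_zero]
  rfl

theorem core {Ω : Type} [Field Ω] [IsAlgClosed Ω] (O : ValuationSubring Ω)
    (i : K →+* O) (δ : MvPolynomial (Fin 3) K) (δt : Polynomial (MvPolynomial (Fin 3) K)) (e : ℕ)
    (H1 : theta δ = Polynomial.X ^ e * δt)
    (H2 : eval ![1, 0, 0] (δt.coeff 0) ≠ 0)
    (H3 : (aeval ![Polynomial.X, 1, 0] (δt.coeff 0) : Polynomial K).Separable)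
    (a b S T n₀ : O) (hS0 : S ≠ 0) (hS : S ∈ IsLocalRing.maximalIdeal O)
    (hT : T ∈ IsLocalRing.maximalIdeal O) (hn : n₀ ∈ IsLocalRing.maximalIdeal O)
    (h1 : (eval₂ (Polynomial.C.comp i) ![Polynomial.X, Polynomial.C S + Polynomial.C a *
      Polynomial.X, Polynomial.C T + Polynomial.C b * Polynomial.X] δ).eval n₀ = 0)
    (h2 : (eval₂ (Polynomial.C.comp i) ![Polynomial.X, Polynomial.C S + Polynomial.C a *
      Polynomial.X, Polynomial.C T + Polynomial.C b * Polynomial.X] δ).derivative.eval n₀ = 0) :
    False := by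
  classical
  set F : Polynomial O := eval₂ (Polynomial.C.comp i) ![Polynomial.X, Polynomial.C S +
    Polynomial.C a * Polynomial.X, Polynomial.C T + Polynomial.C b * Polynomial.X] δ with hF
  set κ := IsLocalRing.ResidueField O with hκ
  set res : O →+* κ := IsLocalRing.residue O with hres
  have hresm : ∀ x : O, x ∈ IsLocalRing.maximalIdeal O → res x = 0 := fun x hx =>
    (IsLocalRing.residue_eq_zero_iff x).2 hx
  have hlt : ∀ x : O, x ∈ IsLocalRing.maximalIdeal O ↔ O.valuation x < 1 := fun x =>
    O.valuation_lt_one_iff x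
  -- the root σ
  obtain ⟨σ', hσ'⟩ := IsAlgClosed.exists_pow_nat_eq (S : Ω) (show 0 < 4 by norm_num)
  have hσv : O.valuation σ' < 1 := by
    have h3 := (hlt S).1 hS
    rw [← hσ', map_pow] at h3
    exact (pow_lt_one_iff (by norm_num)).1 h3
  have hσO : σ' ∈ O := (O.valuation_le_one_iff σ').1 hσv.le
  set σ : O := ⟨σ', hσO⟩ with hσ
  have hσm : σ ∈ IsLocalRing.maximalIdeal O := (hlt σ).2 hσv
  have hσS : σ ^ 4 = S := Subtype.ext hσ'
  have hσ0 : σ ≠ 0 := by
    intro h
    apply hS0
    rw [← hσS, h]
    norm_num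
  have hσ'0 : σ' ≠ 0 := fun h => hσ0 (Subtype.ext h)
  by_cases hN : O.valuation ((n₀ : Ω) / σ' ^ 5) ≤ 1
  · -- case `N₀ ∈ O`
    set N₀ : O := ⟨(n₀ : Ω) / σ' ^ 5, (O.valuation_le_one_iff _).1 hN⟩ with hN₀
    have hn₀ : n₀ = σ ^ 5 * N₀ := by
      apply Subtype.ext
      change (n₀ : Ω) = σ' ^ 5 * ((n₀ : Ω) / σ' ^ 5)
      field_simp
    set G : Polynomial O := subst (Polynomial.C.comp i)
      ![Polynomial.X, 1 + Polynomial.C (a * σ) * Polynomial.X,
        Polynomial.C T + Polynomial.C (b * σ ^ 5) * Polynomial.X] (Polynomial.C σ) δt with hG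
    have h3 : F.comp (Polynomial.C (σ ^ 5) * Polynomial.X) = Polynomial.C (σ ^ e) * G := by
      have h4 : F.comp (Polynomial.C (σ ^ 5) * Polynomial.X) =
          subst (Polynomial.C.comp i)
          ![Polynomial.X, 1 + Polynomial.C (a * σ) * Polynomial.X,
            Polynomial.C T + Polynomial.C (b * σ ^ 5) * Polynomial.X] (Polynomial.C σ)
            (theta δ) := by
        rw [subst_theta_apply, hF]
        have key : (Polynomial.compRingHom (Polynomial.C (σ ^ 5) * Polynomial.X)).comp
            (eval₂Hom ((Polynomial.C.comp i : K →+* Polynomial O))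
              ![Polynomial.X, Polynomial.C S + Polynomial.C a * Polynomial.X,
                Polynomial.C T + Polynomial.C b * Polynomial.X]) =
            eval₂Hom (Polynomial.C.comp i)
              ![(![Polynomial.X, 1 + Polynomial.C (a * σ) * Polynomial.X,
                Polynomial.C T + Polynomial.C (b * σ ^ 5) * Polynomial.X] :
                  Fin 3 → Polynomial O) 0 * Polynomial.C σ ^ 5,
                (![Polynomial.X, 1 + Polynomial.C (a * σ) * Polynomial.X,
                Polynomial.C T + Polynomial.C (b * σ ^ 5) * Polynomial.X] :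
                  Fin 3 → Polynomial O) 1 * Polynomial.C σ ^ 4,
                (![Polynomial.X, 1 + Polynomial.C (a * σ) * Polynomial.X,
                Polynomial.C T + Polynomial.C (b * σ ^ 5) * Polynomial.X] :
                  Fin 3 → Polynomial O) 2] := by
          refine MvPolynomial.ringHom_ext (fun c => ?_) (fun j => ?_)
          · simp
          · fin_cases j
            · simp
              ring
            · simp [← hσS]
              ring
            · simp
              ring
        exact DFunLike.congr_fun key δ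
      rw [h4, H1, map_mul, map_pow, hG]
      congr 1
      simp [subst]
    have h5 : G.eval N₀ = 0 := by
      have h6 := congrArg (Polynomial.eval N₀) h3
      rw [Polynomial.eval_comp, Polynomial.eval_mul, Polynomial.eval_C, Polynomial.eval_mul,
        Polynomial.eval_C, Polynomial.eval_X, ← hn₀, h1] at h6
      rcases mul_eq_zero.1 h6.symm with h | h
      · exact absurd h (pow_ne_zero _ hσ0)
      · exact h
    have h5' : G.derivative.eval N₀ = 0 := by
      have h6 := congrArg (fun p => (Polynomial.derivative p).eval N₀) h3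
      simp only [Polynomial.derivative_comp, Polynomial.derivative_mul, Polynomial.derivative_C,
        Polynomial.derivative_X, Polynomial.eval_mul, Polynomial.eval_C,
        Polynomial.eval_comp, Polynomial.eval_X, zero_mul, mul_one, zero_add] at h6
      rw [← hn₀, h2, mul_zero] at h6
      rcases mul_eq_zero.1 h6.symm with h | h
      · exact absurd h (pow_ne_zero _ hσ0)
      · exact h
    have h7 : G.map res = (aeval ![Polynomial.X, 1, 0] (δt.coeff 0) : Polynomial K).map
        (res.comp i) := by
      rw [hG, ← Polynomial.coe_mapRingHom, subst_map]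
      have h8 : Polynomial.mapRingHom res (Polynomial.C σ) = 0 := by
        simp [hresm σ hσm]
      rw [h8, subst_zero]
      rw [aeval_def, ← Polynomial.coe_mapRingHom, ← coe_eval₂Hom, ← coe_eval₂Hom,
        ← RingHom.comp_apply]
      refine DFunLike.congr_fun ?_ _
      ext j
      · simp
      · fin_cases j
        · simp
        · simp [hresm σ hσm]
        · simp [hresm σ hσm, hresm T hT]
    have h9 := H3.map (f := res.comp i)
    rw [← h7] at h9
    obtain ⟨p, q, hpq⟩ := h9
    have h10 := congrArg (Polynomial.eval (res N₀)) hpq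
    rw [Polynomial.derivative_map, Polynomial.eval_add, Polynomial.eval_mul, Polynomial.eval_mul,
      Polynomial.eval_map_apply, Polynomial.eval_map_apply, h5, h5', map_zero, mul_zero, mul_zero,
      Polynomial.eval_one, add_zero] at h10
    exact zero_ne_one h10
  · -- case `σ⁵/n₀ ∈ m`
    rw [not_le] at hN
    have hn₀0 : (n₀ : Ω) ≠ 0 := by
      intro h
      rw [h, zero_div, map_zero] at hN
      exact absurd hN (by simp)
    obtain ⟨ν', hν'⟩ := IsAlgClosed.exists_pow_nat_eq (n₀ : Ω) (show 0 < 5 by norm_num)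
    have hνv : O.valuation ν' < 1 := by
      have h3 := (hlt n₀).1 hn
      rw [← hν', map_pow] at h3
      exact (pow_lt_one_iff (by norm_num)).1 h3
    have hν'0 : ν' ≠ 0 := by
      intro h
      rw [h] at hν'
      exact hn₀0 (by rw [← hν']; norm_num)
    have hηv : O.valuation (σ' / ν') < 1 := by
      have h3 : O.valuation ((σ' / ν') ^ 5) < 1 := by
        rw [div_pow, hν', map_div₀]
        rw [map_div₀] at hN
        have hp : 0 < O.valuation (σ' ^ 5) := by
          rw [zero_lt_iff]
          exact (Valuation.ne_zero_iff _).2 (pow_ne_zero _ hσ'0)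
        have hq : 0 < O.valuation (n₀ : Ω) := by
          rw [zero_lt_iff]
          exact (Valuation.ne_zero_iff _).2 hn₀0
        rw [one_lt_div₀ hp] at hN
        rw [div_lt_one₀ hq]
        exact hN
      rw [map_pow] at h3
      exact (pow_lt_one_iff (by norm_num)).1 h3
    set ν : O := ⟨ν', (O.valuation_le_one_iff ν').1 hνv.le⟩ with hν
    set η : O := ⟨σ' / ν', (O.valuation_le_one_iff _).1 hηv.le⟩ with hη
    have hνm : ν ∈ IsLocalRing.maximalIdeal O := (hlt ν).2 hνv
    have hηm : η ∈ IsLocalRing.maximalIdeal O := (hlt η).2 hηv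
    have hν0 : ν ≠ 0 := fun h => hν'0 (congrArg Subtype.val h)
    have hνn : ν ^ 5 = n₀ := Subtype.ext hν'
    have hσην : σ = η * ν := by
      apply Subtype.ext
      change σ' = σ' / ν' * ν'
      field_simp
    have h3 : subst i ![1, η ^ 4 + a * ν, T + b * ν ^ 5] ν (theta δ) = 0 := by
      rw [subst_theta_apply]
      rw [← h1, hF, ← Polynomial.coe_evalRingHom, ← coe_eval₂Hom, ← coe_eval₂Hom,
        ← RingHom.comp_apply]
      refine DFunLike.congr_fun ?_ δ
      ext j
      · simp
      · congr 1
        fin_cases j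
        · simp [hνn]
        · simp [← hσS, hσην, ← hνn]
          ring
        · simp [hνn]
    rw [H1, map_mul, map_pow] at h3
    have h4 : subst i ![1, η ^ 4 + a * ν, T + b * ν ^ 5] ν Polynomial.X = ν := by
      simp [subst]
    rw [h4] at h3
    have h5 : subst i ![1, η ^ 4 + a * ν, T + b * ν ^ 5] ν δt = 0 := by
      rcases mul_eq_zero.1 h3 with h | h
      · exact absurd h (pow_ne_zero _ hν0)
      · exact h
    have h6 := congrArg res h5
    rw [subst_map, map_zero, hresm ν hνm, subst_zero] at h6
    have h7 : eval₂ (res.comp i) (fun j => res (![1, η ^ 4 + a * ν, T + b * ν ^ 5] j))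
        (δt.coeff 0) = (res.comp i) (eval ![1, 0, 0] (δt.coeff 0)) := by
      rw [← coe_eval₂Hom, ← RingHom.comp_apply (res.comp i)]
      refine DFunLike.congr_fun ?_ _
      ext j
      · simp
      · fin_cases j
        · simp
        · simp [hresm η hηm, hresm ν hνm]
        · simp [hresm T hT, hresm ν hνm]
    rw [h7] at h6
    exact H2 ((map_eq_zero _).1 h6)

end Pool.Agent.TH213.EQ
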