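import Pool.Agent.TH213.EQ.GP

/-!
# Discriminants and double roots
-/

set_option autoImplicit false

namespace Pool.Agent.TH213.EQ

/-- The discriminant vanishes if and only if there is a double root. -/
theorem discr_zero_iff {A Ω : Type} [CommRing A] [Field Ω] [CharZero Ω] [IsAlgClosed Ω]
    (F : Polynomial A) (Φ : A →+* Ω) (hd : 0 < F.natDegree) (hc : Φ F.leadingCoeff ≠ 0) :
    Φ F.discr = 0 ↔ ∃ z : Ω, (F.map Φ).eval z = 0 ∧ (F.map Φ).derivative.eval z = 0 := by
  have h1 := Polynomial.resultant_deriv (f := F) (Polynomial.natDegree_pos_iff_degree_pos.1 hd)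
  have h2 := congrArg Φ h1
  rw [← Polynomial.resultant_map_map] at h2
  have h3 : (F.map Φ).natDegree = F.natDegree := Polynomial.natDegree_map_of_leadingCoeff_ne_zero _ hc
  have h4 : (F.map Φ).derivative.natDegree = F.natDegree - 1 := by
    rw [Polynomial.natDegree_derivative, h3]
  have h5 : F.map Φ ≠ 0 := by
    intro h
    rw [h, Polynomial.natDegree_zero] at h3
    omega
  have h6 : (F.map Φ).resultant (F.map Φ).derivative =
      Φ ((-1) ^ (F.natDegree * (F.natDegree - 1) / 2) * F.leadingCoeff * F.discr) := by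
    rw [← h2, ← Polynomial.derivative_map, h3, h4]
  have h7 : Φ F.discr = 0 ↔ (F.map Φ).resultant (F.map Φ).derivative = 0 := by
    rw [h6, map_mul, map_mul, map_pow, map_neg, map_one]
    constructor
    · intro h; rw [h, mul_zero]
    · intro h
      rcases mul_eq_zero.1 h with h | h
      · rcases mul_eq_zero.1 h with h | h
        · exact absurd h (pow_ne_zero _ (neg_ne_zero.2 one_ne_zero))
        · exact absurd h hc
      · exact h
  rw [h7, Polynomial.resultant_eq_zero_iff]
  rw [Polynomial.isCoprime_iff_aeval_ne_zero_of_isAlgClosed Ω Ω]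
  simp only [Polynomial.coe_aeval_eq_eval, not_forall, not_or, not_not]
  constructor
  · rintro ⟨_, h⟩; exact h
  · intro h; exact ⟨Or.inl h5, h⟩

end Pool.Agent.TH213.EQ
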