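import Mathlib

/-!
# Generic linear projections and equisingularity of hypersurfaces (definitions)
-/

set_option autoImplicit false

namespace Pool.Agent.TH213.EQ

open MvPolynomial

/-- The algebraic closure of `K(u_{ij})`, where the `u_{ij}`, `i < r`, `j < r + 1`, are
indeterminates. -/
def GF (K : Type) [Field K] (r : ℕ) : Type :=
  AlgebraicClosure (FractionRing (MvPolynomial (Fin r × Fin (r + 1)) K))

noncomputable instance instFieldGF (K : Type) [Field K] (r : ℕ) : Field (GF K r) :=
  AlgebraicClosure.instField (k := FractionRing (MvPolynomial (Fin r × Fin (r + 1)) K))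

noncomputable instance instAlgebraGF (K : Type) [Field K] (r : ℕ) : Algebra K (GF K r) :=
  AlgebraicClosure.instAlgebra (k := FractionRing (MvPolynomial (Fin r × Fin (r + 1)) K))

noncomputable instance instAlgebraPolyGF (K : Type) [Field K] (r : ℕ) :
    Algebra (MvPolynomial (Fin r × Fin (r + 1)) K) (GF K r) :=
  AlgebraicClosure.instAlgebra (k := FractionRing (MvPolynomial (Fin r × Fin (r + 1)) K))

/-- The indeterminate `u_{ij}`, as an element of the algebraic closure of `K(u_{ij})`. -/
noncomputable def gu (K : Type) [Field K] (r : ℕ) (i : Fin r) (j : Fin (r + 1)) : GF K r :=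
  algebraMap (MvPolynomial (Fin r × Fin (r + 1)) K) (GF K r) (X (i, j))

/-- The matrix of the linear coordinates `X₁*, …, X_r*, X_{r+1}` of the affine space of dimension
`r + 1`, where `X_i* = ∑ j, u_{ij} X_j`. -/
def coordMatrix {k : Type} [Field k] {r : ℕ} (u : Fin r → Fin (r + 1) → k) :
    Matrix (Fin (r + 1)) (Fin (r + 1)) k :=
  Matrix.of (Fin.snoc u (Pi.single (Fin.last r) 1))

/-- The linear form `a₁ X₁* + … + a_r X_r* + a_{r+1} X_{r+1}`, as a polynomial in `X_{r+1}` whose
coefficients are polynomials in `X₁*, …, X_r*`. -/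
noncomputable def linForm {k : Type} [Field k] {r : ℕ} (a : Fin (r + 1) → k) :
    Polynomial (MvPolynomial (Fin r) k) :=
  Polynomial.C (∑ i : Fin r, C (a (Fin.castSucc i)) * X i) +
    Polynomial.C (C (a (Fin.last r))) * Polynomial.X

/-- The polynomial `f(X₁, …, X_{r+1})`, written as a polynomial in `X_{r+1}` whose coefficients are
polynomials in `X₁*, …, X_r*`, where `X_i* = ∑ j, u_{ij} X_j`. Here
`X_j = ∑ m, (M⁻¹)_{jm} Y_m`, where `M` is the matrix of the coordinates
`Y = (X₁*, …, X_r*, X_{r+1})`. -/
noncomputable def inCoord {K k : Type} [Field K] [Field k] [Algebra K k] {r : ℕ}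
    (u : Fin r → Fin (r + 1) → k) (f : MvPolynomial (Fin (r + 1)) K) :
    Polynomial (MvPolynomial (Fin r) k) :=
  aeval (fun j => linForm ((coordMatrix u)⁻¹ j)) f

/-- `Q` is a simple (nonsingular) point of the hypersurface `f = 0` (`f` squarefree). -/
def Simple {K : Type} [Field K] {n : ℕ} (f : MvPolynomial (Fin n) K) (Q : Fin n → K) : Prop :=
  eval Q f = 0 ∧ ∃ i, eval Q (pderiv i f) ≠ 0

/-- The irreducible variety with ideal `W` is contained in the singular locus of the hypersurface
`f = 0` (`f` squarefree). -/
def InSing {K : Type} [Field K] {n : ℕ} (f : MvPolynomial (Fin n) K)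
    (W : Ideal (MvPolynomial (Fin n) K)) : Prop :=
  f ∈ W ∧ ∀ i, pderiv i f ∈ W

/-- `D` is a squarefree polynomial with the same irreducible factors as `E ≠ 0`. -/
def IsRed {K : Type} [Field K] {n : ℕ} (D E : MvPolynomial (Fin n) K) : Prop :=
  Squarefree D ∧ D ∣ E ∧ ∃ m : ℕ, E ∣ D ^ m

/-- The image of the point `Q` under the linear projection
`(X₁, …, X_{r+1}) ↦ (X₁*, …, X_r*)`, `X_i* = ∑ j, u_{ij} X_j`. -/
def pushPt {K k : Type} [Field K] [Field k] [Algebra K k] {r : ℕ} (u : Fin r → Fin (r + 1) → k)
    (Q : Fin (r + 1) → K) (i : Fin r) : k :=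
  ∑ j, u i j * algebraMap K k (Q j)

/-- The substitution `G ↦ G(X₁*, …, X_r*)`, `X_i* = ∑ j, u_{ij} X_j`. -/
noncomputable def substU {k : Type} [Field k] {r : ℕ} (u : Fin r → Fin (r + 1) → k) :
    MvPolynomial (Fin r) k →ₐ[k] MvPolynomial (Fin (r + 1)) k :=
  aeval (fun i => ∑ j, C (u i j) * X j)

/-- The ideal of (the Zariski closure of) the image, under the linear projection
`(X₁, …, X_{r+1}) ↦ (X₁*, …, X_r*)`, of the variety with ideal `W`: the polynomials `G` with
coefficients in `k` such that `G(X₁*, …, X_r*)` is in the extension of `W` to the polynomial ring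
over the field `k`. -/
noncomputable def pushId {K k : Type} [Field K] [Field k] [Algebra K k] {r : ℕ}
    (u : Fin r → Fin (r + 1) → k) (W : Ideal (MvPolynomial (Fin (r + 1)) K)) :
    Ideal (MvPolynomial (Fin r) k) :=
  Ideal.comap (substU u) (Ideal.map (MvPolynomial.map (algebraMap K k)) W)

/-- **Equisingularity** (Zariski's generic linear projections). `f` is a squarefree polynomial in
`r + 1` variables over the algebraically closed field `K`, `W` is the ideal of an irreducible
subvariety of the hypersurface `V : f = 0` and `Q` is a point of this subvariety.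
`V` is equisingular at `Q` along `W` if and only if
* `W` is not contained in the singular locus of `V` and `Q` is a simple point of `V`; or
* `W` is contained in the singular locus of `V`, and the branch hypersurface `Δ*` of the generic
  linear projection of `V` (its equation `D` is the squarefree polynomial with the same irreducible
  factors as the discriminant of `f` with respect to `X_{r+1}`) is equisingular at the image of `Q`
  along the image of `W`. The generic linear projection is
  `(X₁, …, X_{r+1}) ↦ (X₁*, …, X_r*)`, `X_i* = ∑ j, u_{ij} X_j`, over the algebraic closure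
  `GF K r` of the field `K(u_{ij})`, where the `u_{ij}` are indeterminates. -/
def Equisingular : (r : ℕ) → (K : Type) → [Field K] → MvPolynomial (Fin (r + 1)) K →
    Ideal (MvPolynomial (Fin (r + 1)) K) → (Fin (r + 1) → K) → Prop
  | 0, _, _, f, W, Q => ¬ InSing f W ∧ Simple f Q
  | r + 1, K, _, f, W, Q =>
      (¬ InSing f W ∧ Simple f Q) ∨
      (InSing f W ∧ ∃ D : MvPolynomial (Fin (r + 1)) (GF K (r + 1)),
        IsRed D (inCoord (gu K (r + 1)) f).discr ∧
        Equisingular r (GF K (r + 1)) D (pushId (gu K (r + 1)) W) (pushPt (gu K (r + 1)) Q))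

end Pool.Agent.TH213.EQ
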