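import Pool.Agent.TH213.EQ.Gen

/-!
# Abstract generic projections; the leading coefficient of the fibre polynomial
-/

set_option autoImplicit false

namespace Pool.Agent.TH213.EQ

open MvPolynomial

/-- Abstract form of the data of a generic linear projection. -/
structure GP (K k : Type) [Field K] [Field k] [Algebra K k] (r : ℕ) where
  U : Fin r → Fin (r + 1) → k
  B : Fin (r + 1) → Fin r → k
  v : Fin (r + 1) → k
  UB : ∀ i i', ∑ j, U i j * B j i' = if i = i' then 1 else 0
  Uv : ∀ i, ∑ j, U i j * v j = 0
  BU : ∀ j j', ∑ i, B j i * U i j' + v j * (if j' = Fin.last r then 1 else 0) =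
    if j = j' then 1 else 0
  vlast : v (Fin.last r) = 1
  Blast : ∀ i, B (Fin.last r) i = 0
  ind : AlgebraicIndependent K (fun i : Fin r => v (Fin.castSucc i))

lemma inv_last (K : Type) [Field K] (r : ℕ) (j : Fin (r + 1)) :
    (coordMat K r)⁻¹ (Fin.last r) j = if Fin.last r = j then 1 else 0 := by
  have h := congrFun (congrFun (coordMat_mul_inv K r) (Fin.last r)) j
  rw [Matrix.mul_apply, Finset.sum_eq_single (Fin.last r)] at h
  · rw [coordMat_last, if_pos rfl, one_mul, Matrix.one_apply] at h
    exact h
  · intro b _ hb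
    rw [coordMat_last, if_neg hb, zero_mul]
  · simp

/-- The generic projection. -/
noncomputable def gp (K : Type) [Field K] (r : ℕ) : GP K (GF K r) r where
  U := gu K r
  B j i := (coordMat K r)⁻¹ j (Fin.castSucc i)
  v j := (coordMat K r)⁻¹ j (Fin.last r)
  UB i i' := by
    have h := congrFun (congrFun (coordMat_mul_inv K r) (Fin.castSucc i)) (Fin.castSucc i')
    rw [Matrix.mul_apply, Matrix.one_apply] at h
    simp only [coordMat_castSucc, Fin.castSucc_inj] at h
    exact h
  Uv i := by
    have h := congrFun (congrFun (coordMat_mul_inv K r) (Fin.castSucc i)) (Fin.last r)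
    rw [Matrix.mul_apply, Matrix.one_apply, if_neg (Fin.castSucc_lt_last i).ne] at h
    simp only [coordMat_castSucc] at h
    exact h
  BU j j' := by
    have h := congrFun (congrFun (coordMat_inv_mul K r) j) j'
    rw [Matrix.mul_apply, Matrix.one_apply, Fin.sum_univ_castSucc] at h
    simp only [coordMat_castSucc, coordMat_last] at h
    exact h
  vlast := by rw [inv_last, if_pos rfl]
  Blast i := by rw [inv_last, if_neg (Fin.castSucc_lt_last i).ne']
  ind := algIndep K r

namespace GP

variable {K k : Type} [Field K] [Field k] [Algebra K k] {r : ℕ} (P : GP K k r)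

/-- The linear forms `X_j` at `X_{r+1} = 0`. -/
noncomputable def L (j : Fin (r + 1)) : MvPolynomial (Fin r) k := ∑ i, C (P.B j i) * X i

/-- The fibre polynomial. -/
noncomputable def fib (f : MvPolynomial (Fin (r + 1)) K) : Polynomial (MvPolynomial (Fin r) k) :=
  aeval (fun j => Polynomial.C (P.L j) + Polynomial.C (C (P.v j)) * Polynomial.X) f

end GP

theorem fib_eq {K : Type} [Field K] {r : ℕ} (f : MvPolynomial (Fin (r + 1)) K) :
    fib f = (gp K r).fib f := rfl

section lead

/-- Products of powers of linear polynomials. -/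
lemma prod_lin {S : Type} [CommRing S] {ι : Type} (s : Finset ι) (a b : ι → S)
    (m : ι → ℕ) :
    (∏ j ∈ s, (Polynomial.C (a j) + Polynomial.C (b j) * Polynomial.X) ^ m j).natDegree ≤
      ∑ j ∈ s, m j ∧
    (∏ j ∈ s, (Polynomial.C (a j) + Polynomial.C (b j) * Polynomial.X) ^ m j).coeff
      (∑ j ∈ s, m j) = ∏ j ∈ s, b j ^ m j := by
  classical
  induction s using Finset.induction_on with
  | empty => simp
  | insert j s hj ih =>
    rw [Finset.prod_insert hj, Finset.sum_insert hj, Finset.prod_insert hj]
    have h1 : (Polynomial.C (a j) + Polynomial.C (b j) * Polynomial.X).natDegree ≤ 1 := by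
      compute_degree
    have h2 : ((Polynomial.C (a j) + Polynomial.C (b j) * Polynomial.X) ^ m j).natDegree ≤ m j := by
      refine (Polynomial.natDegree_pow_le_of_le (m j) h1).trans ?_
      simp
    have h3 : ((Polynomial.C (a j) + Polynomial.C (b j) * Polynomial.X) ^ m j).coeff (m j) =
        b j ^ m j := by
      have := Polynomial.coeff_pow_of_natDegree_le (m := m j) h1
      rw [mul_one] at this
      rw [this]
      simp
    refine ⟨?_, ?_⟩
    · exact Polynomial.natDegree_mul_le_of_le h2 ih.1
    · rw [Polynomial.coeff_mul_add_eq_of_natDegree_le h2 ih.1, h3, ih.2]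

lemma homog_eval_smul {K : Type} [Field K] {n d : ℕ} (f : MvPolynomial (Fin n) K)
    (hf : f.IsHomogeneous d) (c : K) (w : Fin n → K) :
    eval (fun i => c * w i) f = c ^ d * eval w f := by
  rw [eval_eq, eval_eq, Finset.mul_sum]
  refine Finset.sum_congr rfl fun m hm => ?_
  have h1 : m.degree = d := by
    by_contra h
    exact (mem_support_iff.1 hm) (hf.coeff_eq_zero h)
  have h2 : ∑ i ∈ m.support, m i = d := h1
  simp only [mul_pow]
  rw [Finset.prod_mul_distrib, Finset.prod_pow_eq_pow_sum, h2]
  ring

end lead

namespace GP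

variable {K k : Type} [Field K] [Field k] [Algebra K k] {r : ℕ} (P : GP K k r)

lemma v_eq : P.v = Fin.snoc (fun i : Fin r => P.v (Fin.castSucc i)) 1 := by
  funext j
  refine Fin.lastCases ?_ (fun i => ?_) j
  · simp [P.vlast]
  · simp

/-- A polynomial which vanishes at the generic direction vanishes at all directions with last
coordinate `1`. -/
theorem spec {G : MvPolynomial (Fin (r + 1)) K} (hG : aeval P.v G = 0) (w : Fin r → K) :
    eval (Fin.snoc w 1 : Fin (r + 1) → K) G = 0 := by
  set g : MvPolynomial (Fin r) K := aeval (Fin.snoc (fun i => X i) 1 : Fin (r + 1) → _) G with hg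
  have h1 : aeval (fun i : Fin r => P.v (Fin.castSucc i)) g = 0 := by
    rw [hg, ← AlgHom.comp_apply, comp_aeval]
    rw [← hG]
    congr 2
    funext j
    conv_rhs => rw [P.v_eq]
    refine Fin.lastCases ?_ (fun i => ?_) j
    · simp
    · simp
  have h2 : g = 0 := (algebraicIndependent_iff.1 P.ind) g h1
  have h3 : aeval w g = 0 := by rw [h2, map_zero]
  rw [hg, ← AlgHom.comp_apply, comp_aeval] at h3
  rw [← h3, ← coe_aeval_eq_eval]
  change aeval _ G = _
  congr 2
  funext j
  refine Fin.lastCases ?_ (fun i => ?_) j
  · simp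
  · simp

theorem top_ne_zero [CharZero K] {f : MvPolynomial (Fin (r + 1)) K} (hf : f ≠ 0) :
    aeval P.v (homogeneousComponent f.totalDegree f) ≠ 0 := by
  intro h0
  have h1 := P.spec h0
  set F := homogeneousComponent f.totalDegree f with hF
  have hFh : F.IsHomogeneous f.totalDegree := homogeneousComponent_isHomogeneous _ _
  have h2 : F * X (Fin.last r) = 0 := by
    apply MvPolynomial.funext
    intro w
    rw [map_mul, eval_X, map_zero]
    by_cases hw : w (Fin.last r) = 0
    · rw [hw, mul_zero]
    · have h3 := homog_eval_smul F hFh (w (Fin.last r))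
        (Fin.snoc (fun i : Fin r => w (Fin.castSucc i) / w (Fin.last r)) 1)
      rw [h1, mul_zero] at h3
      have h4 : (fun i => w (Fin.last r) *
          (Fin.snoc (fun i : Fin r => w (Fin.castSucc i) / w (Fin.last r)) 1 :
            Fin (r + 1) → K) i) = w := by
        funext j
        refine Fin.lastCases ?_ (fun i => ?_) j
        · simp
        · simp only [Fin.snoc_castSucc]
          field_simp
      rw [h4] at h3
      rw [h3, zero_mul]
  have h3 : F = 0 := by
    rcases mul_eq_zero.1 h2 with h | h
    · exact h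
    · exact absurd h (X_ne_zero _)
  -- contradiction
  obtain ⟨m, hm, hm'⟩ := Finset.exists_mem_eq_sup f.support (support_nonempty.2 hf)
    (fun m => m.sum fun _ e => e)
  have h4 : coeff m F = coeff m f := by
    rw [hF, coeff_homogeneousComponent, if_pos]
    change m.degree = f.support.sup _
    rw [hm']
    rfl
  rw [h3, coeff_zero] at h4
  exact (mem_support_iff.1 hm) h4.symm

theorem coeff_fib (f : MvPolynomial (Fin (r + 1)) K) :
    (P.fib f).natDegree ≤ f.totalDegree ∧
    (P.fib f).coeff f.totalDegree = C (aeval P.v (homogeneousComponent f.totalDegree f)) := by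
  have h0 : P.fib f = ∑ m ∈ f.support, algebraMap K _ (coeff m f) *
      ∏ j, (Polynomial.C (P.L j) + Polynomial.C (C (P.v j)) * Polynomial.X) ^ m j := by
    unfold GP.fib
    rw [aeval_def, eval₂_eq']
  have h1 : ∀ m ∈ f.support, ∑ j, m j ≤ f.totalDegree := by
    intro m hm
    have := le_totalDegree hm
    rwa [Finsupp.sum_fintype _ _ (fun _ => rfl)] at this
  have hC : ∀ c : K, algebraMap K (Polynomial (MvPolynomial (Fin r) k)) c =
      Polynomial.C (C (algebraMap K k c)) := fun c => rfl
  refine ⟨?_, ?_⟩
  · rw [h0]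
    refine Polynomial.natDegree_sum_le_of_forall_le _ _ fun m hm => ?_
    rw [hC]
    refine (Polynomial.natDegree_C_mul_le _ _).trans ?_
    exact (prod_lin Finset.univ _ _ _).1.trans (h1 m hm)
  · rw [h0, Polynomial.finsetSum_coeff]
    rw [homogeneousComponent_apply, map_sum, map_sum]
    rw [Finset.sum_filter]
    refine Finset.sum_congr rfl fun m hm => ?_
    rw [hC, Polynomial.coeff_C_mul]
    have h2 : m.degree = ∑ j, m j := by
      rw [Finsupp.degree_eq_sum]
    split_ifs with h3
    · rw [← h3, h2, (prod_lin Finset.univ _ _ _).2]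
      rw [aeval_monomial, map_mul]
      congr 1
      rw [Finsupp.prod_fintype _ _ (fun _ => pow_zero _), map_prod]
      simp only [map_pow]
    · rw [Polynomial.coeff_eq_zero_of_natDegree_lt, mul_zero]
      refine lt_of_le_of_lt (prod_lin Finset.univ _ _ _).1 ?_
      rw [h2] at h3
      exact lt_of_le_of_ne (h1 m hm) h3

/-- The fibre polynomial of `f ≠ 0` has a nonzero constant as leading coefficient. -/
theorem lead [CharZero K] {f : MvPolynomial (Fin (r + 1)) K} (hf : f ≠ 0) :
    (P.fib f).natDegree = f.totalDegree ∧ ∃ c : k, c ≠ 0 ∧ (P.fib f).leadingCoeff = C c := by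
  have h1 := P.coeff_fib f
  have h2 := P.top_ne_zero hf
  have h3 : (P.fib f).natDegree = f.totalDegree := by
    refine le_antisymm h1.1 ?_
    apply Polynomial.le_natDegree_of_ne_zero
    rw [h1.2]
    intro h
    exact h2 ((C_injective _ _) (by rw [h, map_zero]))
  refine ⟨h3, _, h2, ?_⟩
  rw [Polynomial.leadingCoeff, h3, h1.2]

end GP

end Pool.Agent.TH213.EQ
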