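import Pool.Agent.TH213.EQ.Defs

/-!
# The generic projection: the matrix is invertible and the direction is generic
-/

set_option autoImplicit false

namespace Pool.Agent.TH213.EQ

open MvPolynomial

variable (K : Type) [Field K] (r : ℕ)

noncomputable instance instAlgebraFracGF :
    Algebra (FractionRing (MvPolynomial (Fin r × Fin (r + 1)) K)) (GF K r) :=
  inferInstanceAs (Algebra (FractionRing (MvPolynomial (Fin r × Fin (r + 1)) K))
    (AlgebraicClosure (FractionRing (MvPolynomial (Fin r × Fin (r + 1)) K))))

instance instTowerFracGF : IsScalarTower (MvPolynomial (Fin r × Fin (r + 1)) K)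
    (FractionRing (MvPolynomial (Fin r × Fin (r + 1)) K)) (GF K r) :=
  inferInstanceAs (IsScalarTower (MvPolynomial (Fin r × Fin (r + 1)) K)
    (FractionRing (MvPolynomial (Fin r × Fin (r + 1)) K))
    (AlgebraicClosure (FractionRing (MvPolynomial (Fin r × Fin (r + 1)) K))))

instance instTowerPolyGF : IsScalarTower K (MvPolynomial (Fin r × Fin (r + 1)) K) (GF K r) :=
  inferInstanceAs (IsScalarTower K (MvPolynomial (Fin r × Fin (r + 1)) K)
    (AlgebraicClosure (FractionRing (MvPolynomial (Fin r × Fin (r + 1)) K))))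

instance instIsAlgClosedGF : IsAlgClosed (GF K r) :=
  inferInstanceAs
    (IsAlgClosed (AlgebraicClosure (FractionRing (MvPolynomial (Fin r × Fin (r + 1)) K))))

instance instCharZeroGF [CharZero K] : CharZero (GF K r) :=
  inferInstanceAs
    (CharZero (AlgebraicClosure (FractionRing (MvPolynomial (Fin r × Fin (r + 1)) K))))

/-- The image of a point under the generic projection. -/
noncomputable abbrev projPt {K : Type} [Field K] {r : ℕ} (Q : Fin (r + 1) → K) :
    Fin r → GF K r := pushPt (gu K r) Q

/-- The image of a variety under the generic projection. -/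
noncomputable abbrev projId {K : Type} [Field K] {r : ℕ}
    (W : Ideal (MvPolynomial (Fin (r + 1)) K)) : Ideal (MvPolynomial (Fin r) (GF K r)) :=
  pushId (gu K r) W

/-- The polynomial in the generic coordinates. -/
noncomputable abbrev fib {K : Type} [Field K] {r : ℕ} (f : MvPolynomial (Fin (r + 1)) K) :
    Polynomial (MvPolynomial (Fin r) (GF K r)) := inCoord (gu K r) f

/-- The matrix of the coordinates of the generic projection. -/
noncomputable def coordMat : Matrix (Fin (r + 1)) (Fin (r + 1)) (GF K r) := coordMatrix (gu K r)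

lemma coordMat_castSucc (i : Fin r) (j : Fin (r + 1)) :
    coordMat K r (Fin.castSucc i) j = gu K r i j := by
  simp [coordMat, coordMatrix, Matrix.of_apply]

lemma coordMat_last (j : Fin (r + 1)) :
    coordMat K r (Fin.last r) j = if j = Fin.last r then 1 else 0 := by
  simp [coordMat, coordMatrix, Matrix.of_apply, Pi.single_apply]

/-- The matrix over the polynomial ring. -/
noncomputable def M0 : Matrix (Fin (r + 1)) (Fin (r + 1)) (MvPolynomial (Fin r × Fin (r + 1)) K) :=
  Matrix.of (Fin.snoc (fun i j => X (i, j)) (Pi.single (Fin.last r) 1))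

lemma M0_castSucc (i : Fin r) (j : Fin (r + 1)) :
    M0 K r (Fin.castSucc i) j = X (i, j) := by
  simp [M0, Matrix.of_apply]

lemma M0_last (j : Fin (r + 1)) :
    M0 K r (Fin.last r) j = if j = Fin.last r then 1 else 0 := by
  simp [M0, Matrix.of_apply, Pi.single_apply]

lemma coordMat_eq : coordMat K r = (M0 K r).map (algebraMap _ (GF K r)) := by
  ext i j
  refine Fin.lastCases ?_ (fun i => ?_) i
  · rw [coordMat_last, Matrix.map_apply, M0_last]
    split <;> simp
  · rw [coordMat_castSucc, Matrix.map_apply, M0_castSucc]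
    rfl

/-- The specialization `u_{ij} ↦ δ_{ij}` for `j < r` and `u_{i,r+1} ↦ - x_i`. -/
noncomputable def spec : MvPolynomial (Fin r × Fin (r + 1)) K →+* MvPolynomial (Fin r) K :=
  (aeval (fun p : Fin r × Fin (r + 1) =>
    if p.2 = Fin.castSucc p.1 then (1 : MvPolynomial (Fin r) K)
    else if p.2 = Fin.last r then - X p.1 else 0) :
    MvPolynomial (Fin r × Fin (r + 1)) K →ₐ[K] MvPolynomial (Fin r) K).toRingHom

lemma spec_C (a : K) : spec K r (C a) = C a := by
  simp [spec, algebraMap_eq]

/-- The inverse of the specialized matrix. -/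
noncomputable def N1 : Matrix (Fin (r + 1)) (Fin (r + 1)) (MvPolynomial (Fin r) K) :=
  Matrix.of fun i j => if i = j then 1 else
    if j = Fin.last r then (Fin.snoc (fun i => X i) 0 : Fin (r + 1) → MvPolynomial (Fin r) K) i
    else 0

lemma spec_mul : (M0 K r).map (spec K r) * N1 K r = 1 := by
  ext i j
  rw [Matrix.mul_apply]
  refine Fin.lastCases ?_ (fun i => ?_) i
  · simp only [Matrix.map_apply, M0_last]
    rw [Finset.sum_eq_single (Fin.last r)]
    · simp only [if_true, map_one, one_mul, N1, Matrix.of_apply, Fin.snoc_last, ite_self,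
        Matrix.one_apply]
    · intro b _ hb
      simp [hb]
    · simp
  · simp only [Matrix.map_apply, M0_castSucc]
    have h1 : ∀ x : Fin (r + 1), spec K r (X (i, x)) = if x = Fin.castSucc i then 1
        else if x = Fin.last r then - X i else 0 := by
      intro x
      simp [spec]
    simp only [h1]
    rw [Fin.sum_univ_castSucc]
    rw [Finset.sum_eq_single i]
    · have h2 : (Fin.last r : Fin (r + 1)) ≠ Fin.castSucc i := (Fin.castSucc_lt_last i).ne'
      simp only [if_true, one_mul, h2, if_false, N1, Matrix.of_apply, Matrix.one_apply]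
      refine Fin.lastCases ?_ (fun j => ?_) j
      · simp [h2.symm]
      · have h3 : (Fin.last r : Fin (r + 1)) ≠ Fin.castSucc j := (Fin.castSucc_lt_last j).ne'
        simp [h3, h3.symm]
    · intro b _ hb
      have h2 : (Fin.castSucc b : Fin (r + 1)) ≠ Fin.castSucc i := by
        intro h
        exact hb (Fin.castSucc_injective _ h)
      have h3 : (Fin.castSucc b : Fin (r + 1)) ≠ Fin.last r := (Fin.castSucc_lt_last b).ne
      simp [h2, h3]
    · simp

lemma det_M0_ne : (M0 K r).det ≠ 0 := by
  intro h
  have h1 := congrArg Matrix.det (spec_mul K r)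
  rw [Matrix.det_mul, Matrix.det_one] at h1
  have h2 : ((M0 K r).map (spec K r)).det = spec K r (M0 K r).det := by
    rw [RingHom.map_det]; rfl
  rw [h2, h, map_zero, zero_mul] at h1
  exact zero_ne_one h1

lemma algMap_inj : Function.Injective
    (algebraMap (MvPolynomial (Fin r × Fin (r + 1)) K) (GF K r)) := by
  have h1 := IsFractionRing.injective (MvPolynomial (Fin r × Fin (r + 1)) K)
    (FractionRing (MvPolynomial (Fin r × Fin (r + 1)) K))
  rw [IsScalarTower.algebraMap_eq (MvPolynomial (Fin r × Fin (r + 1)) K)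
    (FractionRing (MvPolynomial (Fin r × Fin (r + 1)) K)) (GF K r)]
  exact (algebraMap (FractionRing (MvPolynomial (Fin r × Fin (r + 1)) K)) (GF K r)).injective.comp h1

lemma det_coordMat : (coordMat K r).det =
    algebraMap (MvPolynomial (Fin r × Fin (r + 1)) K) (GF K r) (M0 K r).det := by
  rw [coordMat_eq, RingHom.map_det]; rfl

lemma det_coordMat_ne : (coordMat K r).det ≠ 0 := by
  rw [det_coordMat]
  intro h
  exact det_M0_ne K r ((injective_iff_map_eq_zero _).1 (algMap_inj K r) _ h)

lemma coordMat_mul_inv : coordMat K r * (coordMat K r)⁻¹ = 1 :=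
  Matrix.mul_nonsing_inv _ (isUnit_iff_ne_zero.2 (det_coordMat_ne K r))

lemma coordMat_inv_mul : (coordMat K r)⁻¹ * coordMat K r = 1 :=
  Matrix.nonsing_inv_mul _ (isUnit_iff_ne_zero.2 (det_coordMat_ne K r))

/-- The direction of the projection is generic. -/
theorem algIndep : AlgebraicIndependent K
    (fun i : Fin r => (coordMat K r)⁻¹ (Fin.castSucc i) (Fin.last r)) := by
  rw [algebraicIndependent_iff]
  intro G hG
  set A0 := MvPolynomial (Fin r × Fin (r + 1)) K with hA0
  set φ : A0 →+* GF K r := algebraMap A0 (GF K r) with hφ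
  set d : A0 := (M0 K r).det with hd
  let Ad := Localization.Away d
  have hφd : IsUnit (φ d) := by
    rw [isUnit_iff_ne_zero]
    intro h
    exact det_M0_ne K r ((injective_iff_map_eq_zero _).1 (algMap_inj K r) _ h)
  have hsd : IsUnit (spec K r d) := by
    have h1 := congrArg Matrix.det (spec_mul K r)
    rw [Matrix.det_mul, Matrix.det_one] at h1
    have h2 : ((M0 K r).map (spec K r)).det = spec K r (M0 K r).det := by
      rw [RingHom.map_det]; rfl
    rw [h2] at h1
    exact IsUnit.of_mul_eq_one _ h1
  let φd : Ad →+* GF K r := IsLocalization.Away.lift d hφd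
  let ed : Ad →+* MvPolynomial (Fin r) K := IsLocalization.Away.lift d hsd
  have hφd1 : φd.comp (algebraMap A0 Ad) = φ := IsLocalization.Away.lift_comp d hφd
  have hed1 : ed.comp (algebraMap A0 Ad) = spec K r := IsLocalization.Away.lift_comp d hsd
  let Md : Matrix (Fin (r + 1)) (Fin (r + 1)) Ad := (M0 K r).map (algebraMap A0 Ad)
  have hMd : IsUnit Md.det := by
    have : Md.det = algebraMap A0 Ad d := (RingHom.map_det (algebraMap A0 Ad) (M0 K r)).symm
    rw [this]
    exact IsLocalization.Away.algebraMap_isUnit d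
  have hMN : Md * Md⁻¹ = 1 := Matrix.mul_nonsing_inv _ hMd
  have e1 : (coordMat K r)⁻¹ = (Md⁻¹).map φd := by
    apply Matrix.inv_eq_right_inv
    have h1 : coordMat K r = Md.map φd := by
      rw [coordMat_eq]
      ext i j
      simp only [Matrix.map_apply, Md]
      rw [← RingHom.comp_apply, hφd1]
    rw [h1]
    have h2 := congrArg φd.mapMatrix hMN
    rw [map_mul, map_one] at h2
    exact h2
  have e2 : N1 K r = (Md⁻¹).map ed := by
    have h1 : (M0 K r).map (spec K r) = Md.map ed := by
      ext i j
      simp only [Matrix.map_apply, Md]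
      rw [← RingHom.comp_apply, hed1]
    have h2 := congrArg ed.mapMatrix hMN
    rw [map_mul, map_one] at h2
    have h3 : (M0 K r).map (spec K r) * (Md⁻¹).map ed = 1 := by
      rw [h1]; exact h2
    have h4 := spec_mul K r
    have h5 : N1 K r * (M0 K r).map (spec K r) = 1 := mul_eq_one_comm.1 h4
    calc N1 K r = N1 K r * ((M0 K r).map (spec K r) * (Md⁻¹).map ed) := by rw [h3, mul_one]
      _ = (Md⁻¹).map ed := by rw [← mul_assoc, h5, one_mul]
  have hinj : Function.Injective φd := by
    rw [injective_iff_map_eq_zero]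
    intro x hx
    obtain ⟨a, s, rfl⟩ := IsLocalization.exists_mk'_eq (Submonoid.powers d) x
    rw [IsLocalization.mk'_eq_zero_iff]
    have h1 : φd (algebraMap A0 Ad a) = 0 := by
      have h2 : IsLocalization.mk' Ad a s * algebraMap A0 Ad s = algebraMap A0 Ad a :=
        IsLocalization.mk'_spec Ad a s
      rw [← h2, map_mul, hx, zero_mul]
    rw [← RingHom.comp_apply, hφd1] at h1
    have h3 := (injective_iff_map_eq_zero _).1 (algMap_inj K r) _ h1
    exact ⟨1, by simp [h3]⟩
  -- transfer
  let w : Fin r → Ad := fun i => Md⁻¹ (Fin.castSucc i) (Fin.last r)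
  have e3 : φd (eval₂ ((algebraMap A0 Ad).comp C) w G) = 0 := by
    rw [← coe_eval₂Hom, ← RingHom.comp_apply]
    rw [show φd.comp (eval₂Hom ((algebraMap A0 Ad).comp C) w) =
      eval₂Hom (φd.comp ((algebraMap A0 Ad).comp C)) (fun i => φd (w i)) from by
        ext <;> simp]
    rw [← RingHom.comp_assoc, hφd1]
    have h1 : φ.comp (C : K →+* A0) = algebraMap K (GF K r) := by
      rw [hφ]
      change (algebraMap A0 (GF K r)).comp (algebraMap K A0) = _
      rw [← IsScalarTower.algebraMap_eq]
    rw [h1]
    have h2 : (fun i => φd (w i)) =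
        fun i : Fin r => (coordMat K r)⁻¹ (Fin.castSucc i) (Fin.last r) := by
      funext i
      rw [e1]; rfl
    rw [h2]
    exact hG
  have e4 : eval₂ ((algebraMap A0 Ad).comp C) w G = 0 := by
    apply hinj
    rw [e3, map_zero]
  have e5 := congrArg ed e4
  rw [← coe_eval₂Hom, ← RingHom.comp_apply] at e5
  rw [show ed.comp (eval₂Hom ((algebraMap A0 Ad).comp C) w) =
      eval₂Hom (ed.comp ((algebraMap A0 Ad).comp C)) (fun i => ed (w i)) from by
        ext <;> simp] at e5
  rw [← RingHom.comp_assoc, hed1, map_zero] at e5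
  have h2 : (fun i => ed (w i)) = fun i : Fin r => X i := by
    funext i
    have : ed (w i) = N1 K r (Fin.castSucc i) (Fin.last r) := by
      rw [e2]; rfl
    rw [this]
    have h3 : (Fin.castSucc i : Fin (r + 1)) ≠ Fin.last r := (Fin.castSucc_lt_last i).ne
    simp [N1, h3]
  have h3 : (spec K r).comp (C : K →+* A0) = C := by
    ext a
    rw [RingHom.comp_apply, spec_C]
  rw [h2, h3] at e5
  have h4 : eval₂Hom (C : K →+* MvPolynomial (Fin r) K) (fun i => X i) G = G := by
    simp
  rw [h4] at e5
  exact e5

end Pool.Agent.TH213.EQ
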