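import Mathlib

/-!
# The invariant of binary quartics; linear algebra
-/

set_option autoImplicit false

namespace Pool.Agent.TH213.EQ

lemma no_matrix (t r a b c d : ℂ) (ht : t ≠ 0) (ht4 : t ^ 2 ≠ 4) (ht36 : t ^ 2 ≠ 36)
    (hr : r ^ 4 + t * r ^ 2 + 1 = 0) (hdet : a * d - b * c ≠ 0)
    (h1 : (a * r + b) ^ 4 + (c * r + d) ^ 4 = 0)
    (h2 : (a * -r + b) ^ 4 + (c * -r + d) ^ 4 = 0)
    (h3 : (a * r⁻¹ + b) ^ 4 + (c * r⁻¹ + d) ^ 4 = 0)
    (h4 : (a * -r⁻¹ + b) ^ 4 + (c * -r⁻¹ + d) ^ 4 = 0) : False := by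
  have hr0 : r ≠ 0 := by
    rintro rfl
    norm_num at hr
  have hr4 : r ^ 4 - 1 ≠ 0 := by
    intro h
    apply ht4
    have e1 : t * r ^ 2 = -2 := by linear_combination hr - h
    have e2 : t ^ 2 * r ^ 4 = 4 := by
      calc t ^ 2 * r ^ 4 = (t * r ^ 2) ^ 2 := by ring
        _ = 4 := by rw [e1]; norm_num
    calc t ^ 2 = t ^ 2 * r ^ 4 - t ^ 2 * (r ^ 4 - 1) := by ring
      _ = 4 := by rw [e2, h]; ring
  set a4 := a ^ 4 + c ^ 4 with ha4
  set a3 := a ^ 3 * b + c ^ 3 * d with ha3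
  set a2 := a ^ 2 * b ^ 2 + c ^ 2 * d ^ 2 with ha2
  set a1 := a * b ^ 3 + c * d ^ 3 with ha1
  set a0 := b ^ 4 + d ^ 4 with ha0
  have k3 : (a + b * r) ^ 4 + (c + d * r) ^ 4 = 0 := by
    have : (a + b * r) ^ 4 + (c + d * r) ^ 4 = r ^ 4 * ((a * r⁻¹ + b) ^ 4 +
        (c * r⁻¹ + d) ^ 4) := by
      field_simp
    rw [this, h3, mul_zero]
  have k4 : (-a + b * r) ^ 4 + (-c + d * r) ^ 4 = 0 := by
    have : (-a + b * r) ^ 4 + (-c + d * r) ^ 4 = r ^ 4 * ((a * -r⁻¹ + b) ^ 4 +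
        (c * -r⁻¹ + d) ^ 4) := by
      field_simp
    rw [this, h4, mul_zero]
  have s1 : a4 * r ^ 4 + 6 * a2 * r ^ 2 + a0 = 0 := by
    rw [ha4, ha2, ha0]
    linear_combination (h1 + h2) / 2
  have s2 : r * (a3 * r ^ 2 + a1) = 0 := by
    rw [ha3, ha1]
    linear_combination (h1 - h2) / 8
  have s3 : a4 + 6 * a2 * r ^ 2 + a0 * r ^ 4 = 0 := by
    rw [ha4, ha2, ha0]
    linear_combination (k3 + k4) / 2
  have s4 : r * (a3 + a1 * r ^ 2) = 0 := by
    rw [ha3, ha1]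
    linear_combination (k3 - k4) / 8
  have s2' := (mul_eq_zero.1 s2).resolve_left hr0
  have s4' := (mul_eq_zero.1 s4).resolve_left hr0
  have z3 : a3 = 0 := by
    have : (r ^ 4 - 1) * a3 = 0 := by linear_combination r ^ 2 * s2' - s4'
    exact (mul_eq_zero.1 this).resolve_left hr4
  have z1 : a1 = 0 := by
    rw [z3] at s2'
    linear_combination s2'
  have z0 : a4 = a0 := by
    have : (r ^ 4 - 1) * (a4 - a0) = 0 := by linear_combination s1 - s3
    exact sub_eq_zero.1 ((mul_eq_zero.1 this).resolve_left hr4)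
  have z2 : 6 * a2 = t * a4 := by
    have : r ^ 2 * (6 * a2 - t * a4) = 0 := by
      rw [← z0] at s1
      linear_combination s1 - a4 * hr
    exact sub_eq_zero.1 ((mul_eq_zero.1 this).resolve_left (pow_ne_zero _ hr0))
  have J : a4 * a2 * a0 + 2 * a3 * a2 * a1 - a4 * a1 ^ 2 - a3 ^ 2 * a0 - a2 ^ 3 = 0 := by
    rw [ha4, ha3, ha2, ha1, ha0]
    ring
  have I : a4 * a0 - 4 * a3 * a1 + 3 * a2 ^ 2 = (a * d - b * c) ^ 4 := by
    rw [ha4, ha3, ha2, ha1, ha0]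
    ring
  have z4 : a4 = 0 := by
    have e1 : a4 ^ 3 * (t * (36 - t ^ 2)) = 0 := by
      have e2 : a2 = t * a4 / 6 := by
        rw [← z2]; ring
      rw [z3, z1, ← z0, e2] at J
      linear_combination 216 * J
    rcases mul_eq_zero.1 e1 with h | h
    · exact eq_zero_of_pow_eq_zero h
    · rcases mul_eq_zero.1 h with h | h
      · exact absurd h ht
      · exact absurd (sub_eq_zero.1 h).symm ht36
  have z2' : a2 = 0 := by
    rw [z4, mul_zero] at z2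
    linear_combination z2 / 6
  rw [z4, z3, z2'] at I
  apply hdet
  have : (a * d - b * c) ^ 4 = 0 := by rw [← I]; ring
  exact eq_zero_of_pow_eq_zero this

lemma linear_core (t r c : ℂ) (ht : t ≠ 0) (ht4 : t ^ 2 ≠ 4) (ht36 : t ^ 2 ≠ 36)
    (hr : r ^ 4 + t * r ^ 2 + 1 = 0) (hc : c ≠ 0)
    (a0 a1 a2 b0 b1 b2 n00 n01 n02 n10 n11 n12 p0 p1 p2 : ℂ)
    (hp : ¬ (p0 = 0 ∧ p1 = 0 ∧ p2 = 0))
    (h11 : n00 * a0 + n01 * a1 + n02 * a2 = c) (h12 : n00 * b0 + n01 * b1 + n02 * b2 = 0)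
    (h21 : n10 * a0 + n11 * a1 + n12 * a2 = 0) (h22 : n10 * b0 + n11 * b1 + n12 * b2 = c)
    (hN0 : n00 * p0 + n01 * p1 + n02 * p2 = 0) (hN1 : n10 * p0 + n11 * p1 + n12 * p2 = 0)
    (h3 : p0 ^ 4 + p1 ^ 4 = 0) (h4a : p0 ^ 3 * a0 + p1 ^ 3 * a1 = 0)
    (h4b : p0 ^ 3 * b0 + p1 ^ 3 * b1 = 0)
    (h5 : p0 = 0 → p1 = 0 → ((a0 * r + b0) ^ 4 + (a1 * r + b1) ^ 4 = 0 ∧
      (a0 * -r + b0) ^ 4 + (a1 * -r + b1) ^ 4 = 0 ∧
      (a0 * r⁻¹ + b0) ^ 4 + (a1 * r⁻¹ + b1) ^ 4 = 0 ∧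
      (a0 * -r⁻¹ + b0) ^ 4 + (a1 * -r⁻¹ + b1) ^ 4 = 0)) : False := by
  by_cases hp0 : p0 = 0
  · have hp1 : p1 = 0 := by
      rw [hp0] at h3
      have : p1 ^ 4 = 0 := by linear_combination h3
      exact eq_zero_of_pow_eq_zero this
    have hp2 : p2 ≠ 0 := fun h => hp ⟨hp0, hp1, h⟩
    rw [hp0, hp1] at hN0 hN1
    have n02z : n02 = 0 := by
      have : n02 * p2 = 0 := by linear_combination hN0
      exact (mul_eq_zero.1 this).resolve_right hp2
    have n12z : n12 = 0 := by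
      have : n12 * p2 = 0 := by linear_combination hN1
      exact (mul_eq_zero.1 this).resolve_right hp2
    rw [n02z] at h11 h12
    rw [n12z] at h21 h22
    have hdet : a0 * b1 - b0 * a1 ≠ 0 := by
      intro h
      apply hc
      have : c ^ 2 = 0 := by
        have e1 : c * c - 0 * 0 = (n00 * a0 + n01 * a1 + 0 * a2) *
            (n10 * b0 + n11 * b1 + 0 * b2) - (n00 * b0 + n01 * b1 + 0 * b2) *
            (n10 * a0 + n11 * a1 + 0 * a2) := by rw [h11, h22, h12, h21]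
        linear_combination e1 + (n00 * n11 - n01 * n10) * h
      exact eq_zero_of_pow_eq_zero this
    obtain ⟨q1, q2, q3, q4⟩ := h5 hp0 hp1
    exact no_matrix t r a0 b0 a1 b1 ht ht4 ht36 hr hdet q1 q2 q3 q4
  · have hp1 : p1 ≠ 0 := by
      intro h
      rw [h] at h3
      have : p0 ^ 4 = 0 := by linear_combination h3
      exact hp0 (eq_zero_of_pow_eq_zero this)
    have ea : a0 * p1 = a1 * p0 := by
      have : p1 ^ 3 * (a0 * p1 - a1 * p0) = 0 := by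
        linear_combination a0 * h3 - p0 * h4a
      exact sub_eq_zero.1 ((mul_eq_zero.1 this).resolve_left (pow_ne_zero _ hp1))
    have eb : b0 * p1 = b1 * p0 := by
      have : p1 ^ 3 * (b0 * p1 - b1 * p0) = 0 := by
        linear_combination b0 * h3 - p0 * h4b
      exact sub_eq_zero.1 ((mul_eq_zero.1 this).resolve_left (pow_ne_zero _ hp1))
    have f1 : n02 * (a2 * p0 - a0 * p2) = p0 * c := by
      linear_combination p0 * h11 - a0 * hN0 + n01 * ea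
    have f2 : n12 * (a2 * p0 - a0 * p2) = 0 := by
      linear_combination p0 * h21 - a0 * hN1 + n11 * ea
    have f4 : n12 * (b2 * p0 - b0 * p2) = p0 * c := by
      linear_combination p0 * h22 - b0 * hN1 + n11 * eb
    have : (p0 * c) * (p0 * c) = 0 := by
      calc (p0 * c) * (p0 * c) = (n02 * (a2 * p0 - a0 * p2)) * (n12 * (b2 * p0 - b0 * p2)) := by
            rw [f1, f4]
        _ = n02 * (b2 * p0 - b0 * p2) * (n12 * (a2 * p0 - a0 * p2)) := by ring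
        _ = 0 := by rw [f2, mul_zero]
    rcases mul_eq_zero.1 this with h | h <;>
    · rcases mul_eq_zero.1 h with h | h
      · exact hp0 h
      · exact hc h

end Pool.Agent.TH213.EQ
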