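import Pool.Agent.TH213.EQ.DR

/-!
# A generic line through a point meets a reduced hypersurface transversally outside this point
-/

set_option autoImplicit false

namespace Pool.Agent.TH213.EQ

open MvPolynomial

section

variable {K : Type} [Field K] {r : ℕ}

/-- `X_i ↦ x_i X`, `X_{r+1} ↦ X`. -/
noncomputable def psi0 : MvPolynomial (Fin (r + 1)) K →+* Polynomial (MvPolynomial (Fin r) K) :=
  (aeval (fun j => Polynomial.C ((Fin.snoc (fun i => X i) 1 : Fin (r + 1) → _) j) * Polynomial.X) :
    MvPolynomial (Fin (r + 1)) K →ₐ[K] Polynomial (MvPolynomial (Fin r) K)).toRingHom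

lemma psi0_X (i : Fin r) : psi0 (K := K) (X (Fin.castSucc i)) =
    Polynomial.C (X i) * Polynomial.X := by
  simp [psi0]

lemma psi0_last : psi0 (K := K) (X (Fin.last r)) = Polynomial.X := by
  simp [psi0]

lemma psi0_C (a : K) : psi0 (r := r) (C a) = Polynomial.C (C a) := by
  simp only [psi0, AlgHom.toRingHom_eq_coe, RingHom.coe_coe]
  rw [← algebraMap_eq, AlgHom.commutes]
  rfl

lemma psi0_inj [CharZero K] : Function.Injective (psi0 (K := K) (r := r)) := by
  rw [injective_iff_map_eq_zero]
  intro G hG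
  have h2 : G * X (Fin.last r) = 0 := by
    apply MvPolynomial.funext
    intro w
    rw [map_mul, eval_X, map_zero]
    by_cases hw : w (Fin.last r) = 0
    · rw [hw, mul_zero]
    · set ev : Polynomial (MvPolynomial (Fin r) K) →+* K :=
        Polynomial.eval₂RingHom (eval (fun i : Fin r => w (Fin.castSucc i) / w (Fin.last r)))
          (w (Fin.last r)) with hev
      have h3 : ev.comp psi0 = eval w := by
        ext j
        · rw [RingHom.comp_apply, RingHom.comp_apply, psi0_C]
          simp [hev]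
        · refine Fin.lastCases ?_ (fun i => ?_) j
          · rw [RingHom.comp_apply, psi0_last]
            simp [hev]
          · rw [RingHom.comp_apply, psi0_X]
            simp only [hev, Polynomial.coe_eval₂RingHom, Polynomial.eval₂_mul, Polynomial.eval₂_C,
              Polynomial.eval₂_X, eval_X]
            field_simp
      rw [← h3, RingHom.comp_apply, hG, map_zero, zero_mul]
  rcases mul_eq_zero.1 h2 with h | h
  · exact h
  · exact absurd h (X_ne_zero _)

lemma psi0_exists (y : Polynomial (MvPolynomial (Fin r) K)) :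
    ∃ (e : ℕ) (Y : MvPolynomial (Fin (r + 1)) K), psi0 Y = Polynomial.X ^ e * y := by
  have hadd : ∀ y₁ y₂ : Polynomial (MvPolynomial (Fin r) K),
      (∃ (e : ℕ) (Y : MvPolynomial (Fin (r + 1)) K), psi0 Y = Polynomial.X ^ e * y₁) →
      (∃ (e : ℕ) (Y : MvPolynomial (Fin (r + 1)) K), psi0 Y = Polynomial.X ^ e * y₂) →
      (∃ (e : ℕ) (Y : MvPolynomial (Fin (r + 1)) K), psi0 Y = Polynomial.X ^ e * (y₁ + y₂)) := by
    rintro y₁ y₂ ⟨e₁, Y₁, h₁⟩ ⟨e₂, Y₂, h₂⟩
    refine ⟨e₁ + e₂, X (Fin.last r) ^ e₂ * Y₁ + X (Fin.last r) ^ e₁ * Y₂, ?_⟩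
    rw [map_add, map_mul, map_mul, map_pow, map_pow, psi0_last, h₁, h₂]
    ring
  have hmul : ∀ y₁ y₂ : Polynomial (MvPolynomial (Fin r) K),
      (∃ (e : ℕ) (Y : MvPolynomial (Fin (r + 1)) K), psi0 Y = Polynomial.X ^ e * y₁) →
      (∃ (e : ℕ) (Y : MvPolynomial (Fin (r + 1)) K), psi0 Y = Polynomial.X ^ e * y₂) →
      (∃ (e : ℕ) (Y : MvPolynomial (Fin (r + 1)) K), psi0 Y = Polynomial.X ^ e * (y₁ * y₂)) := by
    rintro y₁ y₂ ⟨e₁, Y₁, h₁⟩ ⟨e₂, Y₂, h₂⟩
    refine ⟨e₁ + e₂, Y₁ * Y₂, ?_⟩
    rw [map_mul, h₁, h₂]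
    ring
  have hX : ∃ (e : ℕ) (Y : MvPolynomial (Fin (r + 1)) K), psi0 Y =
      Polynomial.X ^ e * Polynomial.X := ⟨0, X (Fin.last r), by rw [psi0_last]; ring⟩
  have hC : ∀ b : MvPolynomial (Fin r) K, ∃ (e : ℕ) (Y : MvPolynomial (Fin (r + 1)) K), psi0 Y =
      Polynomial.X ^ e * Polynomial.C b := by
    intro b
    induction b using MvPolynomial.induction_on with
    | C a => exact ⟨0, C a, by rw [psi0_C]; ring⟩
    | add p q hp hq =>
      rw [map_add]
      exact hadd _ _ hp hq
    | mul_X p i hp =>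
      rw [map_mul]
      refine hmul _ _ hp ⟨1, X (Fin.castSucc i), ?_⟩
      rw [psi0_X]; ring
  induction y using Polynomial.induction_on with
  | C a => exact hC a
  | add p q hp hq => exact hadd _ _ hp hq
  | monomial n a _ =>
    refine hmul _ _ (hC a) ?_
    exact ⟨0, X (Fin.last r) ^ (n + 1), by rw [map_pow, psi0_last]; ring⟩

/-- The generic line over the field of fractions. -/
noncomputable def psi : MvPolynomial (Fin (r + 1)) K →+*
    Polynomial (FractionRing (MvPolynomial (Fin r) K)) :=
  (Polynomial.mapRingHom (algebraMap (MvPolynomial (Fin r) K) (FractionRing _))).comp psi0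

lemma psi_inj [CharZero K] : Function.Injective (psi (K := K) (r := r)) := by
  have h1 : Function.Injective (algebraMap (MvPolynomial (Fin r) K)
    (FractionRing (MvPolynomial (Fin r) K))) := IsFractionRing.injective _ _
  unfold psi
  rw [RingHom.coe_comp]
  exact (Polynomial.map_injective _ h1).comp psi0_inj

lemma psi_last : psi (K := K) (X (Fin.last r)) = Polynomial.X := by
  simp [psi, psi0_last]

theorem sq_dvd_psi [CharZero K] {R : MvPolynomial (Fin (r + 1)) K} (hR : Squarefree R)
    {y : Polynomial (FractionRing (MvPolynomial (Fin r) K))} (hy : Irreducible y)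
    (hyR : y ^ 2 ∣ psi R) : y ∣ Polynomial.X := by
  classical
  set B0 := MvPolynomial (Fin r) K with hB0
  set F0 := FractionRing B0 with hF0
  set ι : B0 →+* F0 := algebraMap B0 F0 with hι
  have hιinj : Function.Injective ι := IsFractionRing.injective _ _
  have hmapinj : Function.Injective (Polynomial.map ι) := Polynomial.map_injective _ hιinj
  obtain ⟨z, hz⟩ := hyR
  obtain ⟨c₁, hc₁, h₁⟩ := IsLocalization.integerNormalization_spec (nonZeroDivisors B0) y
  obtain ⟨c₂, hc₂, h₂⟩ := IsLocalization.integerNormalization_spec (nonZeroDivisors B0) z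
  have hc₁' : c₁ ≠ 0 := nonZeroDivisors.ne_zero hc₁
  have hc₂' : c₂ ≠ 0 := nonZeroDivisors.ne_zero hc₂
  set y₀ := IsLocalization.integerNormalization (nonZeroDivisors B0) y with hy₀
  set z₀ := IsLocalization.integerNormalization (nonZeroDivisors B0) z with hz₀
  have h₁' : y₀.map ι = Polynomial.C (ι c₁) * y := by
    rw [h₁]
    rw [Algebra.smul_def]
    rfl
  have h₂' : z₀.map ι = Polynomial.C (ι c₂) * z := by
    rw [h₂]
    rw [Algebra.smul_def]
    rfl
  obtain ⟨e₁, Y, hY⟩ := psi0_exists y₀
  obtain ⟨e₂, Z, hZ⟩ := psi0_exists z₀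
  obtain ⟨e₃, C1, hC1⟩ := psi0_exists (Polynomial.C (c₁ ^ 2 * c₂))
  have h3 : y₀ ^ 2 * z₀ = Polynomial.C (c₁ ^ 2 * c₂) * psi0 R := by
    apply hmapinj
    rw [Polynomial.map_mul, Polynomial.map_pow, Polynomial.map_mul, h₁', h₂', Polynomial.map_C,
      map_mul, map_pow, map_mul, map_pow]
    have : (psi0 R).map ι = psi R := rfl
    rw [this, hz]
    ring
  have h4 : Y ^ 2 * Z * X (Fin.last r) ^ e₃ = X (Fin.last r) ^ (2 * e₁ + e₂) * C1 * R := by
    apply psi0_inj
    rw [map_mul, map_mul, map_mul, map_mul, map_pow, map_pow, map_pow, hY, hZ, hC1, psi0_last]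
    calc _ = Polynomial.X ^ (2 * e₁ + e₂) * Polynomial.X ^ e₃ * (y₀ ^ 2 * z₀) := by ring
      _ = _ := by rw [h3]; ring
  by_contra hyX
  have hyprime : Prime y := hy.prime
  have hyXn : ∀ n : ℕ, ¬ y ∣ Polynomial.X ^ n := fun n h => hyX (hyprime.dvd_of_dvd_pow h)
  -- a prime factor of `Y`
  have hY0 : Y ≠ 0 := by
    intro h
    rw [h, map_zero] at hY
    have h5 : y₀ = 0 := by
      rcases mul_eq_zero.1 hY.symm with h | h
      · exact absurd h (pow_ne_zero _ Polynomial.X_ne_zero)
      · exact h
    rw [h5, Polynomial.map_zero] at h₁'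
    rcases mul_eq_zero.1 h₁'.symm with h | h
    · rw [Polynomial.C_eq_zero] at h
      exact hc₁' (hιinj (by rw [h, map_zero]))
    · exact hy.ne_zero h
  have key : ∃ π, Prime π ∧ π ∣ Y ∧ ∀ n : ℕ, ¬ psi π ∣ Polynomial.X ^ n := by
    by_contra hno
    push Not at hno
    have h6 : ∀ G : MvPolynomial (Fin (r + 1)) K, G ≠ 0 → (∀ π, Prime π → π ∣ G → ∃ n : ℕ,
        psi π ∣ Polynomial.X ^ n) → ∃ n : ℕ, psi G ∣ Polynomial.X ^ n := by
      intro G
      induction G using UniqueFactorizationMonoid.induction_on_prime with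
      | h₁ => intro h; exact absurd rfl h
      | h₂ x hx => intro _ _; exact ⟨0, (hx.map psi).dvd⟩
      | h₃ a p ha hp ih =>
        intro _ h
        obtain ⟨n₁, h7⟩ := h p hp (dvd_mul_right _ _)
        obtain ⟨n₂, h8⟩ := ih ha (fun π hπ hd => h π hπ (hd.mul_left _))
        refine ⟨n₁ + n₂, ?_⟩
        rw [map_mul, pow_add]
        exact mul_dvd_mul h7 h8
    obtain ⟨n, hn⟩ := h6 Y hY0 hno
    apply hyXn n
    refine dvd_trans ?_ hn
    have : psi Y = Polynomial.X ^ e₁ * (Polynomial.C (ι c₁) * y) := by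
      change (psi0 Y).map ι = _
      rw [hY, Polynomial.map_mul, Polynomial.map_pow, Polynomial.map_X, h₁']
    rw [this]
    exact Dvd.intro_left (Polynomial.X ^ e₁ * Polynomial.C (ι c₁)) (by ring)
  obtain ⟨π, hπ, hπY, hπX⟩ := key
  have hπl : ¬ π ∣ X (Fin.last r) := by
    intro h
    have := map_dvd psi h
    rw [psi_last] at this
    exact hπX 1 (by rwa [pow_one])
  have hπC : ¬ π ∣ C1 := by
    intro h
    have h7 := map_dvd psi h
    have h8 : psi C1 = Polynomial.X ^ e₃ * Polynomial.C (ι (c₁ ^ 2 * c₂)) := by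
      change (psi0 C1).map ι = _
      rw [hC1, Polynomial.map_mul, Polynomial.map_pow, Polynomial.map_X, Polynomial.map_C]
    rw [h8] at h7
    have h9 : IsUnit (Polynomial.C (ι (c₁ ^ 2 * c₂))) := by
      rw [Polynomial.isUnit_C, isUnit_iff_ne_zero]
      intro h
      have := hιinj (h.trans (map_zero ι).symm)
      exact (mul_ne_zero (pow_ne_zero 2 hc₁') hc₂') this
    exact hπX e₃ ((IsUnit.dvd_mul_right h9).1 h7)
  have h10 : π ^ 2 ∣ X (Fin.last r) ^ (2 * e₁ + e₂) * C1 * R := by
    rw [← h4]
    exact ((pow_dvd_pow_of_dvd hπY 2).mul_right _).mul_right _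
  have h11 : ¬ π ∣ X (Fin.last r) ^ (2 * e₁ + e₂) * C1 := by
    intro h
    rcases hπ.dvd_or_dvd h with h | h
    · exact hπl (hπ.dvd_of_dvd_pow h)
    · exact hπC h
  have h12 : π ^ 2 ∣ R := hπ.pow_dvd_of_dvd_mul_left 2 h11 h10
  rw [pow_two] at h12
  exact hπ.not_isUnit (hR π h12)

end

/-- A generic line through the origin meets the hypersurface `R = 0` transversally outside the
origin. -/
theorem no_double {K k κ : Type} [Field K] [Field k] [Algebra K k] [CharZero K] [Field κ]
    [CharZero κ] [Algebra k κ] {r : ℕ}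
    (P : GP K k r) {R : MvPolynomial (Fin (r + 1)) K} (hR : Squarefree R) (hR0 : R ≠ 0)
    (μ : κ) (hμ : μ ≠ 0)
    (h1 : ((aeval (fun j => Polynomial.C (P.v j) * Polynomial.X) R : Polynomial k).map
      (algebraMap k κ)).eval μ = 0)
    (h2 : ((aeval (fun j => Polynomial.C (P.v j) * Polynomial.X) R : Polynomial k).map
      (algebraMap k κ)).derivative.eval μ = 0) : False := by
  classical
  set B0 := MvPolynomial (Fin r) K with hB0
  set F0 := FractionRing B0 with hF0
  have hinj : Function.Injective (aeval (fun i : Fin r => P.v (Fin.castSucc i)) : B0 →ₐ[K] k) :=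
    P.ind
  let ι : F0 →+* k := IsFractionRing.lift (A := B0) (K := F0)
    (g := (aeval (fun i : Fin r => P.v (Fin.castSucc i)) : B0 →ₐ[K] k).toRingHom) hinj
  have hι : ∀ b : B0, ι (algebraMap B0 F0 b) = aeval (fun i : Fin r => P.v (Fin.castSucc i)) b :=
    fun b => IsFractionRing.lift_algebraMap hinj b
  let _ : Algebra F0 κ := ((algebraMap k κ).comp ι).toAlgebra
  have hchar : CharZero F0 := by
    refine ⟨fun a b hab => ?_⟩
    have := congrArg (algebraMap F0 κ) hab
    rw [map_natCast, map_natCast] at this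
    exact Nat.cast_injective this
  have e1 : (aeval (fun j => Polynomial.C (P.v j) * Polynomial.X) R : Polynomial k).map
      (algebraMap k κ) = (psi R).map (algebraMap F0 κ) := by
    have h3 : ∀ G : MvPolynomial (Fin (r + 1)) K,
        (aeval (fun j => Polynomial.C (P.v j) * Polynomial.X) G : Polynomial k) =
        (psi G).map ι := by
      intro G
      have h4 : (aeval (fun j => Polynomial.C (P.v j) * Polynomial.X) :
          MvPolynomial (Fin (r + 1)) K →ₐ[K] Polynomial k).toRingHom =
          (Polynomial.mapRingHom ι).comp psi := by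
        ext j
        · have h6 : (psi (C j) : Polynomial F0) =
              Polynomial.C (algebraMap B0 F0 (C j)) := by
            simp only [psi, RingHom.comp_apply, psi0_C]
            simp
            rfl
          simp only [AlgHom.toRingHom_eq_coe, RingHom.coe_comp, RingHom.coe_coe,
            Function.comp_apply, algHom_C, Polynomial.coe_mapRingHom]
          rw [h6, Polynomial.map_C, hι]
          simp [Polynomial.algebraMap_apply]
        · have h5 : psi (X j) = Polynomial.C (algebraMap B0 F0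
              ((Fin.snoc (fun i => X i) 1 : Fin (r + 1) → B0) j)) * Polynomial.X := by
            have h6 : psi0 (K := K) (X j) = Polynomial.C
                ((Fin.snoc (fun i => X i) 1 : Fin (r + 1) → B0) j) * Polynomial.X := by
              simp [psi0]
            simp only [psi, RingHom.comp_apply, h6, map_mul, Polynomial.coe_mapRingHom,
              Polynomial.map_C, Polynomial.map_X]
            rfl
          simp only [AlgHom.toRingHom_eq_coe, RingHom.coe_comp, RingHom.coe_coe,
            Function.comp_apply, aeval_X, Polynomial.coe_mapRingHom]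
          rw [h5, Polynomial.map_mul, Polynomial.map_C, Polynomial.map_X, hι]
          have h7 : P.v j = aeval (fun i : Fin r => P.v (Fin.castSucc i))
              ((Fin.snoc (fun i => X i) 1 : Fin (r + 1) → B0) j) := by
            refine Fin.lastCases ?_ (fun i => ?_) j
            · simp [P.vlast]
            · simp
          rw [← h7]
      exact DFunLike.congr_fun h4 G
    rw [h3, Polynomial.map_map]
    rfl
  rw [e1] at h1 h2
  rw [Polynomial.derivative_map] at h2
  rw [Polynomial.eval_map_algebraMap] at h1 h2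
  have hψ0 : psi R ≠ 0 := by
    intro h
    exact hR0 (psi_inj (by rw [h, map_zero]))
  have hint : IsIntegral F0 μ := by
    rw [← isAlgebraic_iff_isIntegral]
    exact ⟨psi R, hψ0, h1⟩
  set y := minpoly F0 μ with hy
  have hirr : Irreducible y := minpoly.irreducible hint
  obtain ⟨S1, hS1⟩ := minpoly.dvd F0 μ h1
  have hS1μ : Polynomial.aeval μ S1 = 0 := by
    rw [hS1, Polynomial.derivative_mul, map_add, map_mul, map_mul, minpoly.aeval, zero_mul,
      add_zero] at h2
    rcases mul_eq_zero.1 h2 with h | h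
    · exact absurd h (hirr.separable.aeval_derivative_ne_zero (minpoly.aeval F0 μ))
    · exact h
  obtain ⟨S2, hS2⟩ := minpoly.dvd F0 μ hS1μ
  have h7 : y ^ 2 ∣ psi R := ⟨S2, by rw [hS1, hS2]; ring⟩
  have h8 := sq_dvd_psi hR hirr h7
  obtain ⟨w, hw⟩ := h8
  have h9 : Polynomial.aeval μ (Polynomial.X : Polynomial F0) = 0 := by
    rw [hw, map_mul, minpoly.aeval, zero_mul]
  rw [Polynomial.aeval_X] at h9
  exact hμ h9

end Pool.Agent.TH213.EQ
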