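import Pool.Agent.TH213.EQ.Assembly

/-!
# Equisingularity near the origin
-/

set_option autoImplicit false

namespace Pool.Agent.TH213.EQ

open MvPolynomial

lemma good_of (t : ℂ) (h4 : c4 t 1 2 ≠ 0) (hP1 : Psi1 t 1 2 ≠ 0) (hP2 : Psi2 t 1 2 ≠ 0)
    (ht : t ^ 2 ≠ 4) : Good (gp ℂ 3) (algebraMap ℂ (GF ℂ 3) t) := by
  have hinj := (algebraMap ℂ (GF ℂ 3)).injective
  have hspec : ∀ G : MvPolynomial (Fin 4) ℂ, eval (Fin.snoc ![1, 2, 0] 1 : Fin 4 → ℂ) G ≠ 0 →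
      aeval (gp ℂ 3).v G ≠ 0 := fun G hG h => hG ((gp ℂ 3).spec h ![1, 2, 0])
  have e0 : eval (Fin.snoc ![1, 2, 0] 1 : Fin 4 → ℂ) (X 0) = 1 := by
    rw [eval_X]; rfl
  have e1 : eval (Fin.snoc ![1, 2, 0] 1 : Fin 4 → ℂ) (X 1) = 2 := by
    rw [eval_X]; rfl
  have f0 : aeval (gp ℂ 3).v (X 0 : MvPolynomial (Fin 4) ℂ) = (gp ℂ 3).v 0 := aeval_X _ _
  have f1 : aeval (gp ℂ 3).v (X 1 : MvPolynomial (Fin 4) ℂ) = (gp ℂ 3).v 1 := aeval_X _ _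
  have ft : aeval (gp ℂ 3).v (C t : MvPolynomial (Fin 4) ℂ) = algebraMap ℂ (GF ℂ 3) t :=
    aeval_C _ _
  refine ⟨?_, ?_, ?_, ?_, ?_⟩
  · rw [← f0]
    refine hspec _ ?_
    rw [e0]
    exact one_ne_zero
  · have h := hspec (c4 (C t) (X 0) (X 1)) (by
      rw [map_c4, eval_C, e0, e1]; exact h4)
    have h' := map_c4 (C t) (X 0) (X 1) (aeval (gp ℂ 3).v :
      MvPolynomial (Fin 4) ℂ →ₐ[ℂ] GF ℂ 3).toRingHom
    simp only [AlgHom.toRingHom_eq_coe, RingHom.coe_coe] at h'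
    rw [h', f0, f1, ft] at h
    exact h
  · have h := hspec (Psi1 (C t) (X 0) (X 1)) (by
      rw [map_Psi1, eval_C, e0, e1]; exact hP1)
    have h' := map_Psi1 (C t) (X 0) (X 1) (aeval (gp ℂ 3).v :
      MvPolynomial (Fin 4) ℂ →ₐ[ℂ] GF ℂ 3).toRingHom
    simp only [AlgHom.toRingHom_eq_coe, RingHom.coe_coe] at h'
    rw [h', f0, f1, ft] at h
    exact h
  · have h := hspec (Psi2 (C t) (X 0) (X 1)) (by
      rw [map_Psi2, eval_C, e0, e1]; exact hP2)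
    have h' := map_Psi2 (C t) (X 0) (X 1) (aeval (gp ℂ 3).v :
      MvPolynomial (Fin 4) ℂ →ₐ[ℂ] GF ℂ 3).toRingHom
    simp only [AlgHom.toRingHom_eq_coe, RingHom.coe_coe] at h'
    rw [h', f0, f1, ft] at h
    exact h
  · intro h
    apply ht
    apply hinj
    rw [map_pow, h, map_ofNat]

theorem eventually_equisingular : ∀ᶠ t in nhds (0 : ℂ), Equisingular 3 ℂ ff WW (QQ t) := by
  have c1 : Continuous fun t : ℂ => c4 t 1 2 := by unfold c4; fun_prop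
  have c2 : Continuous fun t : ℂ => Psi1 t 1 2 := by
    unfold Psi1 EQ.c4 EQ.c3 EQ.c2 EQ.c1; fun_prop
  have c3 : Continuous fun t : ℂ => Psi2 t 1 2 := by
    unfold Psi2 Mm Nn R2 R1 EQ.c4 EQ.c3 EQ.c2 EQ.c1; fun_prop
  have c4 : Continuous fun t : ℂ => t ^ 2 := by fun_prop
  have n1 : EQ.c4 (0 : ℂ) 1 2 ≠ 0 := by unfold EQ.c4; norm_num
  have n2 : Psi1 (0 : ℂ) 1 2 ≠ 0 := by
    unfold Psi1 EQ.c4 EQ.c3 EQ.c2 EQ.c1; norm_num
  have n3 : Psi2 (0 : ℂ) 1 2 ≠ 0 := by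
    unfold Psi2 Mm Nn R2 R1 EQ.c4 EQ.c3 EQ.c2 EQ.c1; norm_num
  have n4 : (0 : ℂ) ^ 2 ≠ 4 := by norm_num
  filter_upwards [c1.continuousAt.eventually_ne n1, c2.continuousAt.eventually_ne n2,
    c3.continuousAt.eventually_ne n3, c4.continuousAt.eventually_ne n4] with t h1 h2 h3 h4
  exact equisingular_of_good t (good_of t h1 h2 h3 h4)

end Pool.Agent.TH213.EQ
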