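import Pool.Agent.TH213.EQ.Chart
import Pool.Agent.TH213.EQ.Inv

/-!
# There is no local analytic product structure
-/

set_option autoImplicit false

namespace Pool.Agent.TH213.EQ

open MvPolynomial Filter Topology

/-- The stratum of simple points. -/
def SS : Set (AP 4 2) := {z | z ∈ VV ∧ z.1 ∈ Eqs 3 ff WW ∧ IsSimplePoint 3 VV z}

lemma vec_ne (a b : ℂ) : (![a, b, 1] : Fin (2 + 1) → ℂ) ≠ 0 :=
  ne_zero_of_two (v := ![a, b, 1]) one_ne_zero

/-- The points of the exceptional divisor, in the third chart. -/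
noncomputable def zz (t a b : ℂ) : AP 4 2 := (QQ t, PS.mk ![a, b, 1] (vec_ne a b))

lemma rep_zz (t a b : ℂ) : Rep (QQ t, ![a, b, 1]) (zz t a b) := ⟨rfl, vec_ne a b, rfl⟩

lemma continuous_QQ : Continuous QQ := by
  refine continuous_pi fun i => ?_
  fin_cases i
  · exact continuous_const
  · exact continuous_const
  · exact continuous_id
  · exact continuous_const

lemma continuous_zz : Continuous fun q : ℂ × ℂ × ℂ => zz q.1 q.2.1 q.2.2 := by
  refine (continuous_QQ.comp continuous_fst).prodMk ?_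
  have hc : Continuous fun q : ℂ × ℂ × ℂ => (![q.2.1, q.2.2, 1] : Fin (2 + 1) → ℂ) := by
    refine continuous_pi fun i => ?_
    fin_cases i
    · exact continuous_fst.comp continuous_snd
    · exact continuous_snd.comp continuous_snd
    · exact continuous_const
  have h1 : Continuous fun q : ℂ × ℂ × ℂ => (⟨![q.2.1, q.2.2, 1], vec_ne q.2.1 q.2.2⟩ :
    {v : Fin (2 + 1) → ℂ // v ≠ 0}) := hc.subtype_mk _
  exact (continuous_mk 2).comp h1

lemma zz_mem (t a b : ℂ) (ht : QQ t ∈ Eqs 3 ff WW) (h : a ^ 4 + b ^ 4 + t * a ^ 2 * b ^ 2 = 0) :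
    zz t a b ∈ SS := by
  have hF : FF (QQ t, ![a, b, 1]) = 0 := by
    rw [FF_zero_iff]
    refine ⟨?_, ?_, ?_⟩
    · change 0 * 1 - 0 * a = 0
      ring
    · change 0 * 1 - 0 * b = 0
      ring
    · change a ^ 4 + b ^ 4 + t * a ^ 2 * b ^ 2 + 0 * 1 ^ 4 = 0
      rw [h]; ring
  have h1 : (![a, b, 1] : Fin (2 + 1) → ℂ) 2 ≠ 0 := one_ne_zero
  exact ⟨mem_of_FF _ _ h1 hF, ht, simple_of_FF _ _ h1 hF⟩

lemma Eqs_near : ∀ᶠ t in 𝓝 (0 : ℂ), QQ t ∈ Eqs 3 ff WW := by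
  filter_upwards [eventually_equisingular] with t ht
  exact ⟨WW_vanish t, ht⟩

/-- Points of the fibre over the origin. -/
lemma fibre_eq (u : (Fin 4 → ℂ) × (Fin (2 + 1) → ℂ)) (z : AP 4 2) (hu : Rep u z) (hz : z ∈ SS)
    (h0 : z.1 = QQ 0) : u.2 0 ^ 4 + u.2 1 ^ 4 = 0 := by
  have h1 := ((FF_zero_iff _).1 (FF_of_mem u z hu hz.1)).2.2
  rw [hu.1, h0] at h1
  have h2 : u.2 0 ^ 4 + u.2 1 ^ 4 + 0 * u.2 0 ^ 2 * u.2 1 ^ 2 + 0 * u.2 2 ^ 4 = 0 := h1
  linear_combination h2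

/-- Homogeneous coordinates of the points `zz t a b`. -/
lemma rep_zz_iff (u : (Fin 4 → ℂ) × (Fin (2 + 1) → ℂ)) (t a b : ℂ) (h : Rep u (zz t a b)) :
    u.2 0 = a * u.2 2 ∧ u.2 1 = b * u.2 2 ∧ u.2 2 ≠ 0 := by
  obtain ⟨-, h1, h2⟩ := h
  obtain ⟨c, hc, hcv⟩ := (mk_eq_iff _ _ _ _).1 h2
  have e0 : c * a = u.2 0 := congrFun hcv 0
  have e1 : c * b = u.2 1 := congrFun hcv 1
  have e2 : c * 1 = u.2 2 := congrFun hcv 2
  rw [mul_one] at e2
  refine ⟨?_, ?_, ?_⟩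
  · rw [← e0, ← e2]; ring
  · rw [← e1, ← e2]; ring
  · rw [← e2]; exact hc

end Pool.Agent.TH213.EQ
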