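import Pool.Agent.TH213.EQ.NoProd

/-!
# There is no local analytic product structure: the proof
-/

set_option autoImplicit false

namespace Pool.Agent.TH213.EQ

open MvPolynomial Filter Topology

/-- If `m₀⁴ + m₁⁴ = 0` along a path which starts at zero, then the same holds for the
derivatives. -/
lemma quartic_limit (m₀ m₁ : ℂ → ℂ) (d₀ d₁ : ℂ) (h₀ : HasDerivAt m₀ d₀ 0)
    (h₁ : HasDerivAt m₁ d₁ 0) (z₀ : m₀ 0 = 0) (z₁ : m₁ 0 = 0)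
    (h : ∀ᶠ s in 𝓝 (0 : ℂ), m₀ s ^ 4 + m₁ s ^ 4 = 0) : d₀ ^ 4 + d₁ ^ 4 = 0 := by
  rw [hasDerivAt_iff_tendsto_slope_zero] at h₀ h₁
  have h2 := (h₀.pow 4).add (h₁.pow 4)
  have h3 : Tendsto (fun s : ℂ => (s⁻¹ • (m₀ (0 + s) - m₀ 0)) ^ 4 +
      (s⁻¹ • (m₁ (0 + s) - m₁ 0)) ^ 4) (𝓝[≠] 0) (𝓝 0) := by
    refine (tendsto_const_nhds (x := (0 : ℂ))).congr' ?_
    filter_upwards [h.filter_mono nhdsWithin_le_nhds] with s hs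
    rw [z₀, z₁, zero_add, sub_zero, sub_zero, smul_eq_mul, smul_eq_mul, mul_pow, mul_pow,
      ← mul_add, hs, mul_zero]
  exact tendsto_nhds_unique h2 h3

/-- The facts about the direction `(x, 1)`. -/
lemma direction_facts (t x : ℂ)
    (F : (Fin 4 → ℂ) × (Fin (2 + 1) → ℂ) → (Fin 4 → ℂ) × ((Fin 4 → ℂ) × (Fin (2 + 1) → ℂ)))
    (G : (Fin 4 → ℂ) × ((Fin 4 → ℂ) × (Fin (2 + 1) → ℂ)) → (Fin 4 → ℂ) × (Fin (2 + 1) → ℂ))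
    (hF : AnalyticAt ℂ F (QQ t, ![0, 0, 1])) (hG : AnalyticAt ℂ G (F (QQ t, ![0, 0, 1])))
    (h1 : ∀ᶠ s in 𝓝 (0 : ℂ), (F (QQ t, ![s * x, s, 1])).1 = QQ t)
    (h2 : ∀ᶠ s in 𝓝 (0 : ℂ), (F (QQ t, ![s * x, s, 1])).2.1 = QQ 0)
    (h3 : ∀ᶠ s in 𝓝 (0 : ℂ), (F (QQ t, ![s * x, s, 1])).2.2 0 ^ 4 +
      (F (QQ t, ![s * x, s, 1])).2.2 1 ^ 4 = 0)
    (h4 : ∀ᶠ s in 𝓝 (0 : ℂ), (G (F (QQ t, ![s * x, s, 1]))).2 0 =
      s * x * (G (F (QQ t, ![s * x, s, 1]))).2 2)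
    (h5 : ∀ᶠ s in 𝓝 (0 : ℂ), (G (F (QQ t, ![s * x, s, 1]))).2 1 =
      s * (G (F (QQ t, ![s * x, s, 1]))).2 2) :
    (fderiv ℂ F (QQ t, ![0, 0, 1]) (0, ![x, 1, 0])).1 = 0 ∧
    (fderiv ℂ F (QQ t, ![0, 0, 1]) (0, ![x, 1, 0])).2.1 = 0 ∧
    (fderiv ℂ G (F (QQ t, ![0, 0, 1])) (fderiv ℂ F (QQ t, ![0, 0, 1]) (0, ![x, 1, 0]))).2 0 =
      x * (G (F (QQ t, ![0, 0, 1]))).2 2 ∧
    (fderiv ℂ G (F (QQ t, ![0, 0, 1])) (fderiv ℂ F (QQ t, ![0, 0, 1]) (0, ![x, 1, 0]))).2 1 =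
      (G (F (QQ t, ![0, 0, 1]))).2 2 ∧
    (F (QQ t, ![0, 0, 1])).2.2 0 ^ 3 *
        (fderiv ℂ F (QQ t, ![0, 0, 1]) (0, ![x, 1, 0])).2.2 0 +
      (F (QQ t, ![0, 0, 1])).2.2 1 ^ 3 *
        (fderiv ℂ F (QQ t, ![0, 0, 1]) (0, ![x, 1, 0])).2.2 1 = 0 ∧
    ((F (QQ t, ![0, 0, 1])).2.2 0 = 0 → (F (QQ t, ![0, 0, 1])).2.2 1 = 0 →
      (fderiv ℂ F (QQ t, ![0, 0, 1]) (0, ![x, 1, 0])).2.2 0 ^ 4 +
      (fderiv ℂ F (QQ t, ![0, 0, 1]) (0, ![x, 1, 0])).2.2 1 ^ 4 = 0) := by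
  set u0 : (Fin 4 → ℂ) × (Fin (2 + 1) → ℂ) := (QQ t, ![0, 0, 1]) with hu0
  set η : ℂ → (Fin 4 → ℂ) × (Fin (2 + 1) → ℂ) := fun s => (QQ t, ![s * x, s, 1]) with hη
  have hη0 : η 0 = u0 := by rw [hη, hu0]; simp
  have hηd : HasDerivAt η (0, ![x, 1, 0]) 0 := by
    refine HasDerivAt.prodMk (hasDerivAt_const _ _) ?_
    rw [hasDerivAt_pi]
    intro i
    fin_cases i
    · simpa using (hasDerivAt_id (0 : ℂ)).mul_const x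
    · exact hasDerivAt_id (0 : ℂ)
    · exact hasDerivAt_const _ _
  have hFd : HasFDerivAt F (fderiv ℂ F u0) (η 0) := by
    rw [hη0]; exact hF.differentiableAt.hasFDerivAt
  have hγ : HasDerivAt (fun s => F (η s)) (fderiv ℂ F u0 (0, ![x, 1, 0])) 0 :=
    hFd.comp_hasDerivAt 0 hηd
  set e := fderiv ℂ F u0 (0, ![x, 1, 0]) with he
  have hGd : HasFDerivAt G (fderiv ℂ G (F u0)) (F (η 0)) := by
    rw [hη0]; exact hG.differentiableAt.hasFDerivAt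
  have hGγ : HasDerivAt (fun s => G (F (η s))) (fderiv ℂ G (F u0) e) 0 :=
    hGd.comp_hasDerivAt 0 hγ
  -- components
  have c1 : HasDerivAt (fun s => (F (η s)).1) e.1 0 :=
    (ContinuousLinearMap.fst ℂ (Fin 4 → ℂ) ((Fin 4 → ℂ) × (Fin (2 + 1) → ℂ))).hasFDerivAt.comp_hasDerivAt
      0 hγ
  have c2 : HasDerivAt (fun s => (F (η s)).2) e.2 0 :=
    (ContinuousLinearMap.snd ℂ (Fin 4 → ℂ) ((Fin 4 → ℂ) × (Fin (2 + 1) → ℂ))).hasFDerivAt.comp_hasDerivAt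
      0 hγ
  have c21 : HasDerivAt (fun s => (F (η s)).2.1) e.2.1 0 :=
    (ContinuousLinearMap.fst ℂ (Fin 4 → ℂ) (Fin (2 + 1) → ℂ)).hasFDerivAt.comp_hasDerivAt 0 c2
  have c22 : HasDerivAt (fun s => (F (η s)).2.2) e.2.2 0 :=
    (ContinuousLinearMap.snd ℂ (Fin 4 → ℂ) (Fin (2 + 1) → ℂ)).hasFDerivAt.comp_hasDerivAt 0 c2
  have c22i : ∀ i, HasDerivAt (fun s => (F (η s)).2.2 i) (e.2.2 i) 0 := fun i =>
    (hasDerivAt_pi.1 c22) i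
  have g2 : HasDerivAt (fun s => (G (F (η s))).2) (fderiv ℂ G (F u0) e).2 0 :=
    (ContinuousLinearMap.snd ℂ (Fin 4 → ℂ) (Fin (2 + 1) → ℂ)).hasFDerivAt.comp_hasDerivAt 0 hGγ
  have g2i : ∀ i, HasDerivAt (fun s => (G (F (η s))).2 i) ((fderiv ℂ G (F u0) e).2 i) 0 :=
    fun i => (hasDerivAt_pi.1 g2) i
  refine ⟨?_, ?_, ?_, ?_, ?_, ?_⟩
  · exact (c1.congr_of_eventuallyEq (f₁ := fun _ => QQ t)
      (h1.mono fun s hs => hs.symm)).unique (hasDerivAt_const _ _)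
  · exact (c21.congr_of_eventuallyEq (f₁ := fun _ => QQ 0)
      (h2.mono fun s hs => hs.symm)).unique (hasDerivAt_const _ _)
  · have k1 : HasDerivAt (fun s => s * x * (G (F (η s))).2 2)
        (1 * x * (G (F (η 0))).2 2 + 0 * x * (fderiv ℂ G (F u0) e).2 2) 0 :=
      ((hasDerivAt_id (0 : ℂ)).mul_const x).mul (g2i 2)
    have k2 := (g2i 0).congr_of_eventuallyEq (f₁ := fun s => s * x * (G (F (η s))).2 2)
      (h4.mono fun s hs => hs.symm)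
    rw [k2.unique k1, hη0]
    ring
  · have k1 : HasDerivAt (fun s => s * (G (F (η s))).2 2)
        (1 * (G (F (η 0))).2 2 + 0 * (fderiv ℂ G (F u0) e).2 2) 0 :=
      (hasDerivAt_id (0 : ℂ)).mul (g2i 2)
    have k2 := (g2i 1).congr_of_eventuallyEq (f₁ := fun s => s * (G (F (η s))).2 2)
      (h5.mono fun s hs => hs.symm)
    rw [k2.unique k1, hη0]
    ring
  · have k1 := ((c22i 0).pow 4).add ((c22i 1).pow 4)
    have k2 := (k1.congr_of_eventuallyEq (f₁ := fun _ => (0 : ℂ))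
      (h3.mono fun s hs => hs.symm)).unique (hasDerivAt_const _ _)
    rw [hη0] at k2
    norm_num at k2
    linear_combination k2 / 4
  · intro z0 z1
    refine quartic_limit _ _ _ _ (c22i 0) (c22i 1) ?_ ?_ h3
    · rw [hη0]; exact z0
    · rw [hη0]; exact z1

end Pool.Agent.TH213.EQ
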