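import Pool.Agent.TH213.EQ.NoProd2

/-!
# There is no local analytic product structure: end of the proof
-/

set_option autoImplicit false

namespace Pool.Agent.TH213.EQ

open MvPolynomial Filter Topology

theorem no_product : ¬ LocalProduct (Eqs 3 ff WW) SS (QQ 0) (zz 0 0 0) := by
  rintro ⟨N₁, N₂, N₃, φ, ψ, -, ⟨hN2, -⟩, ⟨hN3, hN3n⟩, ⟨hφ, hψ, hinv, hφa, hψa, hT⟩⟩
  -- choice of `t`
  obtain ⟨O, hO, hO0, hON⟩ := mem_nhdsWithin.1 hN3n
  have hcz0 : Continuous fun t : ℂ => zz t 0 0 :=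
    continuous_zz.comp (by fun_prop : Continuous fun t : ℂ => (t, (0 : ℂ), (0 : ℂ)))
  have hct : Continuous fun t : ℂ => t ^ 2 := by fun_prop
  have e1 : ∀ᶠ t in 𝓝 (0 : ℂ), zz t 0 0 ∈ O := hcz0.continuousAt (hO.mem_nhds hO0)
  have e2 : ∀ᶠ t in 𝓝 (0 : ℂ), t ^ 2 ≠ 4 := hct.continuousAt.eventually_ne (by norm_num)
  have e3 : ∀ᶠ t in 𝓝 (0 : ℂ), t ^ 2 ≠ 36 := hct.continuousAt.eventually_ne (by norm_num)
  obtain ⟨t, ⟨ht1, ht4, ht36, htE⟩, ht0⟩ : ∃ t : ℂ, (zz t 0 0 ∈ O ∧ t ^ 2 ≠ 4 ∧ t ^ 2 ≠ 36 ∧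
      QQ t ∈ Eqs 3 ff WW) ∧ t ≠ 0 := by
    have h : ∀ᶠ t in 𝓝[≠] (0 : ℂ), zz t 0 0 ∈ O ∧ t ^ 2 ≠ 4 ∧ t ^ 2 ≠ 36 ∧
        QQ t ∈ Eqs 3 ff WW :=
      (e1.and (e2.and (e3.and Eqs_near))).filter_mono nhdsWithin_le_nhds
    exact (h.and self_mem_nhdsWithin).exists
  have hφψ : ∀ z ∈ N₃, φ (ψ z) = z := fun z hz => hinv.2 hz
  have hψ1 : ∀ z ∈ N₃, (ψ z).1 = z.1 := by
    intro z hz
    rw [← hT _ (hψ hz), hφψ z hz]
  -- the base point
  have hz0 : zz t 0 0 ∈ N₃ := hON ⟨ht1, zz_mem t 0 0 htE (by ring)⟩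
  obtain ⟨F, hF, hFe⟩ := hψa (QQ t, ![0, 0, 1]) (zz t 0 0) (rep_zz t 0 0) hz0
  have hu1 : RepProd (F (QQ t, ![0, 0, 1])) (ψ (zz t 0 0)) :=
    hFe.self_of_nhds _ (rep_zz t 0 0) hz0
  have hψz0 : ψ (zz t 0 0) ∈ N₁ ×ˢ N₂ := hψ hz0
  obtain ⟨G, hG, hGe⟩ := hφa (F (QQ t, ![0, 0, 1])) _ hu1 hψz0
  -- facts along the lines
  have facts := fun (x : ℂ) (hx : x ^ 4 + t * x ^ 2 + 1 = 0) => by
    have hcx : Continuous fun s : ℂ => zz t (s * x) s :=
      continuous_zz.comp (by fun_prop : Continuous fun s : ℂ => (t, s * x, s))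
    have hcη : Continuous fun s : ℂ => ((QQ t, ![s * x, s, 1]) :
        (Fin 4 → ℂ) × (Fin (2 + 1) → ℂ)) := by
      refine continuous_const.prodMk (continuous_pi fun i => ?_)
      fin_cases i
      · exact continuous_id.mul continuous_const
      · exact continuous_id
      · exact continuous_const
    have hη0 : ((QQ t, ![0 * x, 0, 1]) : (Fin 4 → ℂ) × (Fin (2 + 1) → ℂ)) =
        (QQ t, ![0, 0, 1]) := by rw [zero_mul]
    have m1 : ∀ᶠ s in 𝓝 (0 : ℂ), zz t (s * x) s ∈ N₃ := by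
      have : ∀ᶠ s in 𝓝 (0 : ℂ), zz t (s * x) s ∈ O := by
        refine hcx.continuousAt (hO.mem_nhds ?_)
        rw [zero_mul]
        exact ht1
      filter_upwards [this] with s hs
      refine hON ⟨hs, zz_mem t _ _ htE ?_⟩
      linear_combination s ^ 4 * hx
    have m2 : ∀ᶠ s in 𝓝 (0 : ℂ), RepProd (F (QQ t, ![s * x, s, 1])) (ψ (zz t (s * x) s)) := by
      have h0 : Tendsto (fun s : ℂ => ((QQ t, ![s * x, s, 1]) :
          (Fin 4 → ℂ) × (Fin (2 + 1) → ℂ))) (𝓝 0) (𝓝 (QQ t, ![0, 0, 1])) := by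
        rw [← hη0]
        exact hcη.tendsto 0
      filter_upwards [h0.eventually hFe, m1] with s hs hs'
      exact hs _ (rep_zz t _ _) hs'
    have m3 : ∀ᶠ s in 𝓝 (0 : ℂ), Rep (G (F (QQ t, ![s * x, s, 1]))) (zz t (s * x) s) := by
      have h0 : Tendsto (fun s : ℂ => F (QQ t, ![s * x, s, 1])) (𝓝 0)
          (𝓝 (F (QQ t, ![0, 0, 1]))) := by
        have h1 : Tendsto (fun s : ℂ => ((QQ t, ![s * x, s, 1]) :
            (Fin 4 → ℂ) × (Fin (2 + 1) → ℂ))) (𝓝 0) (𝓝 (QQ t, ![0, 0, 1])) := by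
          rw [← hη0]
          exact hcη.tendsto 0
        exact hF.continuousAt.tendsto.comp h1
      filter_upwards [h0.eventually hGe, m1, m2] with s hs hs' hs''
      have := hs _ hs'' (hψ hs')
      rwa [hφψ _ hs'] at this
    exact direction_facts t x F G hF hG
      (by
        filter_upwards [m1, m2] with s hs hs'
        rw [hs'.1, hψ1 _ hs]
        rfl)
      (by
        filter_upwards [m1, m2] with s hs hs'
        rw [hs'.2.1]
        exact (hN2 (hψ hs).2).2)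
      (by
        filter_upwards [m1, m2] with s hs hs'
        exact fibre_eq _ _ hs'.2 (hN2 (hψ hs).2).1 (hN2 (hψ hs).2).2)
      (by
        filter_upwards [m3] with s hs
        exact (rep_zz_iff _ _ _ _ hs).1)
      (by
        filter_upwards [m3] with s hs
        exact (rep_zz_iff _ _ _ _ hs).2.1)
  have hGu1 : Rep (G (F (QQ t, ![0, 0, 1]))) (zz t 0 0) := by
    have := hGe.self_of_nhds _ hu1 hψz0
    rwa [hφψ _ hz0] at this
  have hc := (rep_zz_iff _ _ _ _ hGu1).2.2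
  have hp0 : (F (QQ t, ![0, 0, 1])).2.2 ≠ 0 := hu1.2.2.choose
  have hp4 := fibre_eq _ _ hu1.2 (hN2 hψz0.2).1 (hN2 hψz0.2).2
  -- the radial direction
  have hrad : (fderiv ℂ G (F (QQ t, ![0, 0, 1])) (0, (0, (F (QQ t, ![0, 0, 1])).2.2))).2 0 = 0 ∧
      (fderiv ℂ G (F (QQ t, ![0, 0, 1])) (0, (0, (F (QQ t, ![0, 0, 1])).2.2))).2 1 = 0 := by
    set u1 := F (QQ t, ![0, 0, 1]) with hu1def
    set d : (Fin 4 → ℂ) × ((Fin 4 → ℂ) × (Fin (2 + 1) → ℂ)) := (0, (0, u1.2.2)) with hd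
    have hρ : HasDerivAt (fun s : ℂ => u1 + s • d) d 0 := by
      simpa using ((hasDerivAt_id (0 : ℂ)).smul_const d).const_add u1
    have hGd : HasFDerivAt G (fderiv ℂ G u1) (u1 + (0 : ℂ) • d) := by
      rw [zero_smul, add_zero]; exact hG.differentiableAt.hasFDerivAt
    have hGρ : HasDerivAt (fun s : ℂ => G (u1 + s • d)) (fderiv ℂ G u1 d) 0 :=
      hGd.comp_hasDerivAt 0 hρ
    have g2 : HasDerivAt (fun s : ℂ => (G (u1 + s • d)).2) (fderiv ℂ G u1 d).2 0 :=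
      (ContinuousLinearMap.snd ℂ (Fin 4 → ℂ) (Fin (2 + 1) → ℂ)).hasFDerivAt.comp_hasDerivAt 0 hGρ
    have g2i : ∀ i, HasDerivAt (fun s : ℂ => (G (u1 + s • d)).2 i) ((fderiv ℂ G u1 d).2 i) 0 :=
      fun i => (hasDerivAt_pi.1 g2) i
    have hev : ∀ᶠ s in 𝓝 (0 : ℂ), Rep (G (u1 + s • d)) (zz t 0 0) := by
      have h0 : Tendsto (fun s : ℂ => u1 + s • d) (𝓝 0) (𝓝 u1) := by
        have := hρ.continuousAt.tendsto
        simpa using this
      have h1 : ∀ᶠ s in 𝓝 (0 : ℂ), 1 + s ≠ 0 :=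
        (by fun_prop : Continuous fun s : ℂ => 1 + s).continuousAt.eventually_ne (by norm_num)
      filter_upwards [h0.eventually hGe, h1] with s hs hs1
      have h2 : RepProd (u1 + s • d) (ψ (zz t 0 0)) := by
        refine ⟨?_, ?_, ?_⟩
        · rw [hd]
          simpa using hu1.1
        · rw [hd]
          simpa using hu1.2.1
        · have e1 : (u1 + s • d).2.2 = (1 + s) • u1.2.2 := by
            rw [hd, add_smul, one_smul]; rfl
          have hne : (u1 + s • d).2.2 ≠ 0 := by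
            rw [e1]; exact smul_ne_zero hs1 hp0
          refine ⟨hne, ?_⟩
          rw [← hu1.2.2.choose_spec, mk_eq_iff]
          exact ⟨1 + s, hs1, e1.symm⟩
      have := hs _ h2 hψz0
      rwa [hφψ _ hz0] at this
    refine ⟨?_, ?_⟩
    · refine ((g2i 0).congr_of_eventuallyEq (f₁ := fun _ => (0 : ℂ)) ?_).unique
        (hasDerivAt_const _ _)
      filter_upwards [hev] with s hs
      rw [(rep_zz_iff _ _ _ _ hs).1, zero_mul]
    · refine ((g2i 1).congr_of_eventuallyEq (f₁ := fun _ => (0 : ℂ)) ?_).unique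
        (hasDerivAt_const _ _)
      filter_upwards [hev] with s hs
      rw [(rep_zz_iff _ _ _ _ hs).2.1, zero_mul]
  -- the roots
  obtain ⟨r, hr⟩ : ∃ r : ℂ, r ^ 4 + t * r ^ 2 + 1 = 0 := by
    obtain ⟨w, hw⟩ := IsAlgClosed.exists_pow_nat_eq (t ^ 2 - 4) (show 0 < 2 by norm_num)
    obtain ⟨r, hr⟩ := IsAlgClosed.exists_pow_nat_eq ((-t + w) / 2) (show 0 < 2 by norm_num)
    refine ⟨r, ?_⟩
    have : r ^ 4 = ((-t + w) / 2) ^ 2 := by rw [← hr]; ring
    rw [this, hr]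
    linear_combination hw / 4
  have hr0 : r ≠ 0 := by
    rintro rfl
    norm_num at hr
  have hr2 : (-r) ^ 4 + t * (-r) ^ 2 + 1 = 0 := by linear_combination hr
  have hr3 : (r⁻¹) ^ 4 + t * (r⁻¹) ^ 2 + 1 = 0 := by
    field_simp
    linear_combination hr
  have hr4 : (-r⁻¹) ^ 4 + t * (-r⁻¹) ^ 2 + 1 = 0 := by linear_combination hr3
  obtain ⟨f11, f12, f13, f14, f15, f16⟩ := facts r hr
  obtain ⟨f21, f22, f23, f24, f25, f26⟩ := facts (-r) hr2
  obtain ⟨-, -, -, -, -, f36⟩ := facts r⁻¹ hr3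
  obtain ⟨-, -, -, -, -, f46⟩ := facts (-r⁻¹) hr4
  generalize G (F (QQ t, ![0, 0, 1])) = g1 at *
  generalize hK : fderiv ℂ G (F (QQ t, ![0, 0, 1])) = K at *
  generalize hu : F (QQ t, ![0, 0, 1]) = u1 at *
  generalize hL : fderiv ℂ F (QQ t, ![0, 0, 1]) = L at *
  clear facts hGe hFe hG hF
  have hlin : ∀ x : ℂ, L (0, ![x, 1, 0]) = x • L (0, ![1, 0, 0]) + L (0, ![0, 1, 0]) := by
    intro x
    rw [← map_smul, ← map_add]
    congr 1
    ext i
    · simp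
    · fin_cases i <;> simp
  rw [hlin r] at f11 f12 f13 f14 f15 f16
  rw [hlin (-r)] at f21 f22 f23 f24 f25 f26
  rw [hlin r⁻¹] at f36
  rw [hlin (-r⁻¹)] at f46
  generalize L (0, ![1, 0, 0]) = A at *
  generalize L (0, ![0, 1, 0]) = B at *
  have h2r : (2 : ℂ) * r ≠ 0 := mul_ne_zero two_ne_zero hr0
  have hA1 : A.1 = 0 := by
    have h : (2 * r) • A.1 = 0 := by
      have e : (r • A + B).1 - (-r • A + B).1 = (2 * r) • A.1 := by
        simp only [Prod.fst_add, Prod.smul_fst]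
        module
      rw [← e, f11, f21, sub_zero]
    exact (smul_eq_zero.1 h).resolve_left h2r
  have hB1 : B.1 = 0 := by
    have e : (r • A + B).1 = r • A.1 + B.1 := rfl
    rw [e, hA1, smul_zero, zero_add] at f11
    exact f11
  have hA2 : A.2.1 = 0 := by
    have h : (2 * r) • A.2.1 = 0 := by
      have e : (r • A + B).2.1 - (-r • A + B).2.1 = (2 * r) • A.2.1 := by
        simp only [Prod.snd_add, Prod.smul_snd, Prod.fst_add, Prod.smul_fst]
        module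
      rw [← e, f12, f22, sub_zero]
    exact (smul_eq_zero.1 h).resolve_left h2r
  have hB2 : B.2.1 = 0 := by
    have e : (r • A + B).2.1 = r • A.2.1 + B.2.1 := rfl
    rw [e, hA2, smul_zero, zero_add] at f12
    exact f12
  have hKx : ∀ (x : ℂ) (i : Fin (2 + 1)), (K (x • A + B)).2 i = x * (K A).2 i + (K B).2 i := by
    intro x i
    rw [map_add, map_smul]
    rfl
  have hvx : ∀ (x : ℂ) (i : Fin (2 + 1)), (x • A + B).2.2 i = x * A.2.2 i + B.2.2 i :=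
    fun x i => rfl
  rw [hKx] at f13 f14 f23 f24
  rw [hvx, hvx] at f15 f25 f16 f26 f36 f46
  have kB0 : (K B).2 0 = 0 := by linear_combination (f13 + f23) / 2
  have kA0 : (K A).2 0 = g1.2 2 := by
    have : r * ((K A).2 0 - g1.2 2) = 0 := by linear_combination (f13 - f23) / 2
    exact sub_eq_zero.1 ((mul_eq_zero.1 this).resolve_left hr0)
  have kB1 : (K B).2 1 = g1.2 2 := by linear_combination (f14 + f24) / 2
  have kA1 : (K A).2 1 = 0 := by
    have : r * ((K A).2 1) = 0 := by linear_combination (f14 - f24) / 2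
    exact (mul_eq_zero.1 this).resolve_left hr0
  have hKv : ∀ (v : Fin (2 + 1) → ℂ) (j : Fin (2 + 1)), (K (0, (0, v))).2 j =
      (K (0, (0, ![1, 0, 0]))).2 j * v 0 + (K (0, (0, ![0, 1, 0]))).2 j * v 1 +
      (K (0, (0, ![0, 0, 1]))).2 j * v 2 := by
    intro v j
    have e : ((0, (0, v)) : (Fin 4 → ℂ) × ((Fin 4 → ℂ) × (Fin (2 + 1) → ℂ))) =
        v 0 • (0, (0, ![1, 0, 0])) + v 1 • (0, (0, ![0, 1, 0])) + v 2 • (0, (0, ![0, 0, 1])) := by
      ext i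
      · simp
      · simp
      · fin_cases i <;> simp
    rw [e, map_add, map_add, map_smul, map_smul, map_smul]
    change v 0 * (K (0, (0, ![1, 0, 0]))).2 j + v 1 * (K (0, (0, ![0, 1, 0]))).2 j +
      v 2 * (K (0, (0, ![0, 0, 1]))).2 j = _
    ring
  have hAe : A = (0, (0, A.2.2)) := by
    ext i
    · rw [hA1]
    · rw [hA2]
    · rfl
  have hBe : B = (0, (0, B.2.2)) := by
    ext i
    · rw [hB1]
    · rw [hB2]
    · rfl
  have h15a : u1.2.2 0 ^ 3 * A.2.2 0 + u1.2.2 1 ^ 3 * A.2.2 1 = 0 := by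
    have : (2 * r) * (u1.2.2 0 ^ 3 * A.2.2 0 + u1.2.2 1 ^ 3 * A.2.2 1) = 0 := by
      linear_combination f15 - f25
    exact (mul_eq_zero.1 this).resolve_left h2r
  have h15b : u1.2.2 0 ^ 3 * B.2.2 0 + u1.2.2 1 ^ 3 * B.2.2 1 = 0 := by
    linear_combination (f15 + f25) / 2
  have hp : ¬ (u1.2.2 0 = 0 ∧ u1.2.2 1 = 0 ∧ u1.2.2 2 = 0) := by
    rintro ⟨q0, q1, q2⟩
    apply hp0
    funext i
    fin_cases i
    · exact q0
    · exact q1
    · exact q2
  refine linear_core t r (g1.2 2) ht0 ht4 ht36 hr hc (A.2.2 0) (A.2.2 1) (A.2.2 2) (B.2.2 0)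
    (B.2.2 1) (B.2.2 2) ((K (0, (0, ![1, 0, 0]))).2 0) ((K (0, (0, ![0, 1, 0]))).2 0)
    ((K (0, (0, ![0, 0, 1]))).2 0) ((K (0, (0, ![1, 0, 0]))).2 1)
    ((K (0, (0, ![0, 1, 0]))).2 1) ((K (0, (0, ![0, 0, 1]))).2 1) (u1.2.2 0) (u1.2.2 1)
    (u1.2.2 2) hp ?_ ?_ ?_ ?_ ?_ ?_ hp4 h15a h15b ?_
  · rw [← hKv, ← hAe, kA0]
  · rw [← hKv, ← hBe, kB0]
  · rw [← hKv, ← hAe, kA1]
  · rw [← hKv, ← hBe, kB1]
  · rw [← hKv]; exact hrad.1
  · rw [← hKv]; exact hrad.2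
  · intro q0 q1
    refine ⟨?_, ?_, ?_, ?_⟩
    · linear_combination f16 q0 q1
    · linear_combination f26 q0 q1
    · linear_combination f36 q0 q1
    · linear_combination f46 q0 q1

end Pool.Agent.TH213.EQ
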