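import Pool.Agent.TH213.EQ.Res

/-!
# The critical values of a generic quartic polynomial `g(a z, b z + 1)`, `g = x⁴ + y⁴ + t x² y²`
-/

set_option autoImplicit false

namespace Pool.Agent.TH213.EQ

open Polynomial

section defs

variable {S : Type} [CommRing S] (t a b : S)

def c4 : S := a ^ 4 + b ^ 4 + t * a ^ 2 * b ^ 2
def c3 : S := 4 * b ^ 3 + 2 * t * a ^ 2 * b
def c2 : S := 6 * b ^ 2 + t * a ^ 2
def c1 : S := 4 * b
def R2 : S := 8 * c2 t a b * c4 t a b - 3 * c3 t a b ^ 2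
def R1 : S := 12 * c1 b * c4 t a b - 2 * c2 t a b * c3 t a b
def Nn : S := -3 * c3 t a b * R2 t a b + 4 * c4 t a b * R1 t a b
def Mm : S := 4 * c4 t a b * R2 t a b
def Psi2 : S := 4 * c4 t a b * Nn t a b ^ 3 + 3 * c3 t a b * Nn t a b ^ 2 * Mm t a b +
  2 * c2 t a b * Nn t a b * Mm t a b ^ 2 + c1 b * Mm t a b ^ 3
def Psi1 : S := (3 * c3 t a b) ^ 2 * (2 * c2 t a b) ^ 2 - 4 * (4 * c4 t a b) * (2 * c2 t a b) ^ 3 -
  4 * (3 * c3 t a b) ^ 3 * c1 b - 27 * (4 * c4 t a b) ^ 2 * c1 b ^ 2 +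
  18 * (4 * c4 t a b) * (3 * c3 t a b) * (2 * c2 t a b) * c1 b

variable {S' : Type} [CommRing S'] (φ : S →+* S')

lemma map_c4 : φ (c4 t a b) = c4 (φ t) (φ a) (φ b) := by simp [c4]
lemma map_c3 : φ (c3 t a b) = c3 (φ t) (φ a) (φ b) := by
  simp only [c3, map_add, map_mul, map_pow, map_ofNat]
lemma map_c2 : φ (c2 t a b) = c2 (φ t) (φ a) (φ b) := by
  simp only [c2, map_add, map_mul, map_pow, map_ofNat]
lemma map_c1 : φ (c1 b) = c1 (φ b) := by
  simp only [c1, map_mul, map_ofNat]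
lemma map_R2 : φ (R2 t a b) = R2 (φ t) (φ a) (φ b) := by
  simp only [R2, map_sub, map_mul, map_pow, map_ofNat, map_c4, map_c3, map_c2]
lemma map_R1 : φ (R1 t a b) = R1 (φ t) (φ a) (φ b) := by
  simp only [R1, map_sub, map_mul, map_ofNat, map_c4, map_c3, map_c2, map_c1]
lemma map_Nn : φ (Nn t a b) = Nn (φ t) (φ a) (φ b) := by
  simp only [Nn, map_add, map_mul, map_neg, map_ofNat, map_c4, map_c3, map_R2, map_R1]
lemma map_Mm : φ (Mm t a b) = Mm (φ t) (φ a) (φ b) := by
  simp only [Mm, map_mul, map_ofNat, map_c4, map_R2]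
lemma map_Psi2 : φ (Psi2 t a b) = Psi2 (φ t) (φ a) (φ b) := by
  simp only [Psi2, map_add, map_mul, map_pow, map_ofNat, map_c4, map_c3, map_c2, map_c1, map_Nn,
    map_Mm]
lemma map_Psi1 : φ (Psi1 t a b) = Psi1 (φ t) (φ a) (φ b) := by
  simp only [Psi1, map_add, map_sub, map_mul, map_pow, map_ofNat, map_c4, map_c3, map_c2, map_c1]

end defs

/-- The quartic polynomial. -/
noncomputable def qq {k : Type} [Field k] (t a b : k) : k[X] :=
  C (c4 t a b) * X ^ 4 + C (c3 t a b) * X ^ 3 + C (c2 t a b) * X ^ 2 + C (c1 b) * X + 1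

lemma qq_eq {k : Type} [Field k] (t a b : k) :
    qq t a b = (C a * X) ^ 4 + (C b * X + 1) ^ 4 + C t * (C a * X) ^ 2 * (C b * X + 1) ^ 2 := by
  simp only [qq, c4, c3, c2, c1, map_add, map_mul, map_pow, map_ofNat]
  ring

lemma der_qq {k : Type} [Field k] (t a b : k) :
    derivative (qq t a b) = C (4 * c4 t a b) * X ^ 3 + C (3 * c3 t a b) * X ^ 2 +
      C (2 * c2 t a b) * X + C (c1 b) := by
  simp only [qq, derivative_add, derivative_mul, derivative_C, derivative_X_pow, derivative_X,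
    derivative_one, map_mul, map_ofNat, Nat.cast_ofNat, zero_mul, zero_add, mul_one, add_zero,
    Nat.reduceSub, pow_one]
  ring

/-- The critical points and critical values. -/
theorem crit {k : Type} [Field k] [CharZero k] [IsAlgClosed k] (t a b : k)
    (h4 : c4 t a b ≠ 0) (hP1 : Psi1 t a b ≠ 0) (hP2 : Psi2 t a b ≠ 0)
    (ha : a ≠ 0) (ht : t ^ 2 ≠ 4) :
    ∃ r₁ r₂ r₃ : k,
      (derivative (qq t a b) = C (4 * c4 t a b) * ((X - C r₁) * (X - C r₂) * (X - C r₃))) ∧
      (4 * c4 t a b * (r₁ + r₂ + r₃) = - (3 * c3 t a b)) ∧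
      (4 * c4 t a b * (r₁ * r₂ + r₁ * r₃ + r₂ * r₃) = 2 * c2 t a b) ∧
      (4 * c4 t a b * (r₁ * r₂ * r₃) = - c1 b) ∧
      (qq t a b).eval r₁ ≠ (qq t a b).eval r₂ ∧ (qq t a b).eval r₁ ≠ (qq t a b).eval r₃ ∧
      (qq t a b).eval r₂ ≠ (qq t a b).eval r₃ ∧
      (qq t a b).eval r₁ ≠ 0 ∧ (qq t a b).eval r₂ ≠ 0 ∧ (qq t a b).eval r₃ ≠ 0 := by
  have h4' : 4 * c4 t a b ≠ 0 := mul_ne_zero (by norm_num) h4
  have hdeg : (derivative (qq t a b)).natDegree = 3 := by
    rw [der_qq]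
    exact natDegree_cubic h4'
  have hlead : (derivative (qq t a b)).leadingCoeff = 4 * c4 t a b := by
    rw [der_qq]
    exact leadingCoeff_cubic h4'
  have hsplit := IsAlgClosed.splits (derivative (qq t a b))
  have hcard : Multiset.card (derivative (qq t a b)).roots = 3 := by
    rw [← hdeg]
    exact (splits_iff_card_roots.1 hsplit)
  obtain ⟨r₁, r₂, r₃, hr⟩ := Multiset.card_eq_three.1 hcard
  have hprod : derivative (qq t a b) = C (4 * c4 t a b) *
      ((X - C r₁) * (X - C r₂) * (X - C r₃)) := by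
    have h1 := hsplit.eq_prod_roots
    rw [hlead, hr] at h1
    rw [h1]
    simp [mul_assoc]
  have hexp : C (4 * c4 t a b) * ((X - C r₁) * (X - C r₂) * (X - C r₃)) =
      C (4 * c4 t a b) * X ^ 3 + C (- (4 * c4 t a b * (r₁ + r₂ + r₃))) * X ^ 2 +
      C (4 * c4 t a b * (r₁ * r₂ + r₁ * r₃ + r₂ * r₃)) * X +
      C (- (4 * c4 t a b * (r₁ * r₂ * r₃))) := by
    simp only [map_mul, map_add, map_neg, map_ofNat]
    ring
  have hcmp : C (4 * c4 t a b) * X ^ 3 + C (3 * c3 t a b) * X ^ 2 +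
      C (2 * c2 t a b) * X + C (c1 b) =
      C (4 * c4 t a b) * X ^ 3 + C (- (4 * c4 t a b * (r₁ + r₂ + r₃))) * X ^ 2 +
      C (4 * c4 t a b * (r₁ * r₂ + r₁ * r₃ + r₂ * r₃)) * X +
      C (- (4 * c4 t a b * (r₁ * r₂ * r₃))) := by
    rw [← hexp, ← hprod, der_qq]
  have hco : ∀ x y z w : k, ∀ n : ℕ, (C x * X ^ 3 + C y * X ^ 2 + C z * X + C w).coeff n =
      (if n = 3 then x else 0) + (if n = 2 then y else 0) + (if n = 1 then z else 0) +
      (if n = 0 then w else 0) := by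
    intro x y z w n
    simp only [coeff_add, coeff_C_mul, coeff_X_pow, coeff_X, coeff_C, mul_ite, mul_one, mul_zero]
    congr 2
    by_cases h : n = 1
    · simp [h]
    · simp [h, Ne.symm h]
  have v1 : 4 * c4 t a b * (r₁ + r₂ + r₃) = - (3 * c3 t a b) := by
    have := congrArg (fun p => coeff p 2) hcmp
    simp only [hco] at this
    norm_num at this
    rw [this, neg_neg]
  have v2 : 4 * c4 t a b * (r₁ * r₂ + r₁ * r₃ + r₂ * r₃) = 2 * c2 t a b := by
    have := congrArg (fun p => coeff p 1) hcmp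
    simp only [hco] at this
    norm_num at this
    linear_combination -this
  have v3 : 4 * c4 t a b * (r₁ * r₂ * r₃) = - c1 b := by
    have := congrArg (fun p => coeff p 0) hcmp
    simp only [hco] at this
    norm_num at this
    rw [this, neg_neg]
  have hevq : ∀ r, (qq t a b).eval r = c4 t a b * r ^ 4 + c3 t a b * r ^ 3 + c2 t a b * r ^ 2 +
      c1 b * r + 1 := by
    intro r; simp [qq]
  -- distinctness, general form
  have hdist : ∀ s₁ s₂ s₃ : k, 4 * c4 t a b * (s₁ + s₂ + s₃) = - (3 * c3 t a b) →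
      4 * c4 t a b * (s₁ * s₂ + s₁ * s₃ + s₂ * s₃) = 2 * c2 t a b →
      4 * c4 t a b * (s₁ * s₂ * s₃) = - c1 b → (qq t a b).eval s₁ ≠ (qq t a b).eval s₂ := by
    intro s₁ s₂ s₃ w1 w2 w3 heq
    rw [hevq, hevq] at heq
    have hs : s₁ ≠ s₂ := by
      intro h
      apply hP1
      have h3 : c3 t a b = - (4 * c4 t a b * (s₁ + s₂ + s₃)) / 3 := by
        rw [w1]; ring
      have h2 : c2 t a b = (4 * c4 t a b * (s₁ * s₂ + s₁ * s₃ + s₂ * s₃)) / 2 := by
        rw [w2]; ring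
      have h1 : c1 b = - (4 * c4 t a b * (s₁ * s₂ * s₃)) := by
        rw [w3]; ring
      unfold Psi1
      rw [h3, h2, h1, h]
      ring
    have d1 : ∀ s, (s - s₁) * (s - s₂) * (s - s₃) = 0 →
        4 * c4 t a b * s ^ 3 + 3 * c3 t a b * s ^ 2 + 2 * c2 t a b * s + c1 b = 0 := by
      intro s hs
      linear_combination (4 * c4 t a b) * hs + s ^ 2 * w1 - s * w2 + w3
    have e1 := d1 s₁ (by ring)
    have e2 := d1 s₂ (by ring)
    have e3 := d1 s₃ (by ring)
    have h5 : (R2 t a b * (s₁ + s₂) + R1 t a b) * (s₁ - s₂) = 0 := by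
      unfold R2 R1
      linear_combination 16 * c4 t a b * heq - (4 * c4 t a b * s₁ + c3 t a b) * e1 +
        (4 * c4 t a b * s₂ + c3 t a b) * e2
    have h6 : R2 t a b * (s₁ + s₂) + R1 t a b = 0 := by
      rcases mul_eq_zero.1 h5 with h | h
      · exact h
      · exact absurd (sub_eq_zero.1 h) hs
    have h7 : Mm t a b * s₃ = Nn t a b := by
      unfold Mm Nn
      linear_combination (R2 t a b) * w1 - 4 * c4 t a b * h6
    apply hP2
    unfold Psi2
    rw [← h7]
    linear_combination (Mm t a b) ^ 3 * e3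
  -- nonvanishing
  have hnz : ∀ s, 4 * c4 t a b * s ^ 3 + 3 * c3 t a b * s ^ 2 + 2 * c2 t a b * s + c1 b = 0 →
      (qq t a b).eval s ≠ 0 := by
    intro s hs h0
    rw [hevq] at h0
    set x := a * s with hx
    set y := b * s + 1 with hy
    have g0 : x ^ 4 + y ^ 4 + t * x ^ 2 * y ^ 2 = 0 := by
      rw [hx, hy, ← h0]
      unfold c4 c3 c2 c1
      ring
    have g1 : a * (4 * x ^ 3 + 2 * t * x * y ^ 2) + b * (4 * y ^ 3 + 2 * t * x ^ 2 * y) = 0 := by
      rw [hx, hy, ← hs]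
      unfold c4 c3 c2 c1
      ring
    have g2 : x * (4 * x ^ 3 + 2 * t * x * y ^ 2) + y * (4 * y ^ 3 + 2 * t * x ^ 2 * y) = 0 := by
      linear_combination 4 * g0
    have g3 : a * y - b * x = a := by rw [hx, hy]; ring
    have gy : 4 * y ^ 3 + 2 * t * x ^ 2 * y = 0 := by
      have : a * (4 * y ^ 3 + 2 * t * x ^ 2 * y) = 0 := by
        linear_combination a * g2 - x * g1 - (4 * y ^ 3 + 2 * t * x ^ 2 * y) * g3
      exact (mul_eq_zero.1 this).resolve_left ha
    have gx : 4 * x ^ 3 + 2 * t * x * y ^ 2 = 0 := by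
      have : a * (4 * x ^ 3 + 2 * t * x * y ^ 2) = 0 := by
        linear_combination y * g1 - b * g2 - (4 * x ^ 3 + 2 * t * x * y ^ 2) * g3
      exact (mul_eq_zero.1 this).resolve_left ha
    have gx0 : x ≠ 0 := by
      intro h
      rw [h] at gy g3
      have hy0 : y = 0 := by
        have : y ^ 3 = 0 := by linear_combination gy / 4
        exact eq_zero_of_pow_eq_zero this
      rw [hy0] at g3
      exact ha (by linear_combination -g3)
    have gy0 : y ≠ 0 := by
      intro h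
      rw [h] at gx
      have hx0 : x = 0 := by
        have : x ^ 3 = 0 := by linear_combination gx / 4
        exact eq_zero_of_pow_eq_zero this
      exact gx0 hx0
    have k1 : 2 * x ^ 2 + t * y ^ 2 = 0 := by
      have : x * (2 * x ^ 2 + t * y ^ 2) = 0 := by linear_combination gx / 2
      exact (mul_eq_zero.1 this).resolve_left gx0
    have k2 : 2 * y ^ 2 + t * x ^ 2 = 0 := by
      have : y * (2 * y ^ 2 + t * x ^ 2) = 0 := by linear_combination gy / 2
      exact (mul_eq_zero.1 this).resolve_left gy0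
    apply ht
    have : (t ^ 2 - 4) * y ^ 2 = 0 := by linear_combination t * k1 - 2 * k2
    rcases mul_eq_zero.1 this with h | h
    · exact sub_eq_zero.1 h
    · exact absurd (eq_zero_of_pow_eq_zero h) gy0
  have d1 : ∀ s, (s - r₁) * (s - r₂) * (s - r₃) = 0 →
      4 * c4 t a b * s ^ 3 + 3 * c3 t a b * s ^ 2 + 2 * c2 t a b * s + c1 b = 0 := by
    intro s hs
    linear_combination (4 * c4 t a b) * hs + s ^ 2 * v1 - s * v2 + v3
  refine ⟨r₁, r₂, r₃, hprod, v1, v2, v3, hdist r₁ r₂ r₃ v1 v2 v3,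
    hdist r₁ r₃ r₂ (by linear_combination v1) (by linear_combination v2) (by linear_combination v3),
    hdist r₂ r₃ r₁ (by linear_combination v1) (by linear_combination v2) (by linear_combination v3),
    hnz r₁ (d1 r₁ (by ring)), hnz r₂ (d1 r₂ (by ring)), hnz r₃ (d1 r₃ (by ring))⟩

end Pool.Agent.TH213.EQ
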