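import Mathlib

/-!
# Resultants: scaling, and a variant of the discriminant of polynomials of degree `5`
-/

set_option autoImplicit false

namespace Pool.Agent.TH213.EQ

open Polynomial

lemma five_eq {S : Type} [CommRing S] : (5 : S[X]) = C 5 := (map_ofNat C 5).symm

/-- Scaling of the variable in a resultant. -/
theorem res_scale {S : Type} [CommRing S] [IsDomain S] (f g : S[X]) (m n : ℕ) (c : S)
    (hc : c ≠ 0) :
    resultant (f.comp (C c * X)) (g.comp (C c * X)) m n = c ^ (m * n) * resultant f g m n := by
  set e : Fin (m + n) → ℕ := fun j => j.addCases (fun j₁ => (j₁ : ℕ)) (fun j₁ => (j₁ : ℕ)) with he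
  have h1 : sylvester (f.comp (C c * X)) (g.comp (C c * X)) m n *
      Matrix.diagonal (fun j => c ^ e j) =
      Matrix.diagonal (fun i : Fin (m + n) => c ^ (i : ℕ)) * sylvester f g m n := by
    ext i j
    rw [Matrix.mul_diagonal, Matrix.diagonal_mul]
    induction j using Fin.addCases with
    | left j₁ =>
      simp only [sylvester, Matrix.of_apply, Fin.addCases_left, he]
      split_ifs with h
      · rw [comp_C_mul_X_coeff, mul_assoc, ← pow_add, Nat.sub_add_cancel h.1]
        ring
      · simp
    | right j₁ =>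
      simp only [sylvester, Matrix.of_apply, Fin.addCases_right, he]
      split_ifs with h
      · rw [comp_C_mul_X_coeff, mul_assoc, ← pow_add, Nat.sub_add_cancel h.1]
        ring
      · simp
  have h2 := congrArg Matrix.det h1
  rw [Matrix.det_mul, Matrix.det_mul, Matrix.det_diagonal, Matrix.det_diagonal] at h2
  rw [Finset.prod_pow_eq_pow_sum, Finset.prod_pow_eq_pow_sum] at h2
  have h3 : ∑ i : Fin (m + n), (i : ℕ) = (∑ j, e j) + m * n := by
    rw [Fin.sum_univ_add, Fin.sum_univ_add]
    simp only [he, Fin.addCases_left, Fin.addCases_right, Fin.val_castAdd, Fin.val_natAdd]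
    rw [Finset.sum_add_distrib]
    simp
    ring
  rw [h3, pow_add] at h2
  have h4 : c ^ (∑ j, e j) ≠ 0 := pow_ne_zero _ hc
  apply mul_right_cancel₀ h4
  change (sylvester (f.comp (C c * X)) (g.comp (C c * X)) m n).det * _ =
    c ^ (m * n) * (sylvester f g m n).det * _
  rw [h2]
  ring

/-- The resultant of degree `(4, 4)` of `5 P - X P'` and `P'`. -/
noncomputable def S4 {S : Type} [CommRing S] (P : S[X]) : S :=
  resultant (5 * P - X * derivative P) (derivative P) 4 4

lemma S4_map {S S' : Type} [CommRing S] [CommRing S'] (φ : S →+* S') (P : S[X]) :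
    S4 (P.map φ) = φ (S4 P) := by
  unfold S4
  rw [← resultant_map_map]
  congr 1
  · simp
  · rw [derivative_map]

lemma natDegree_five {S : Type} [CommRing S] (P : S[X]) (hP : P.natDegree ≤ 5) :
    (5 * P - X * derivative P).natDegree ≤ 4 := by
  rw [natDegree_le_iff_coeff_eq_zero]
  intro N hN
  rw [coeff_sub]
  have h5 : (5 * P).coeff N = 5 * P.coeff N := by
    rw [five_eq, coeff_C_mul]
  rw [h5]
  obtain ⟨M, rfl⟩ : ∃ M, N = M + 1 := ⟨N - 1, by omega⟩
  rw [coeff_X_mul, coeff_derivative]
  by_cases hM : M = 4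
  · subst hM
    norm_num
    ring
  · rw [natDegree_le_iff_coeff_eq_zero.1 hP (M + 1) (by omega)]
    ring

lemma natDegree_der {S : Type} [CommRing S] (P : S[X]) {n : ℕ} (hP : P.natDegree ≤ n + 1) :
    (derivative P).natDegree ≤ n :=
  (natDegree_derivative_le P).trans (by omega)

theorem S4_five {S : Type} [CommRing S] (P : S[X]) (hP : P.natDegree ≤ 5) :
    5 ^ 4 * resultant P (derivative P) 5 4 = 5 * P.coeff 5 * S4 P := by
  have h1 : resultant (C 5 * P) (derivative P) 5 4 = 5 ^ 4 * resultant P (derivative P) 5 4 :=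
    resultant_C_mul_left _ _ _ _ _
  have h2 : resultant (C 5 * P + derivative P * (-X)) (derivative P) 5 4 =
      resultant (C 5 * P) (derivative P) 5 4 := by
    apply resultant_add_mul_left
    · rw [natDegree_neg]
      have := natDegree_X_le (R := S)
      omega
    · exact natDegree_der P hP
  have h3 : C 5 * P + derivative P * (-X) = 5 * P - X * derivative P := by
    rw [← five_eq]; ring
  rw [h3] at h2
  have h4 : resultant (5 * P - X * derivative P) (derivative P) (4 + 1) 4 =
      (-1) ^ 4 * (derivative P).coeff 4 * resultant (5 * P - X * derivative P) (derivative P) 4 4 :=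
    resultant_succ_left_deg _ _ _ _ (natDegree_five P hP)
  rw [← h1, ← h2, h4, coeff_derivative]
  unfold S4
  push_cast
  ring

theorem S4_four {S : Type} [CommRing S] (P : S[X]) (hP : P.natDegree ≤ 4) :
    S4 P = 125 * P.coeff 4 * resultant P (derivative P) 4 3 := by
  unfold S4
  have hd : (derivative P).natDegree ≤ 3 := natDegree_der P hP
  have hf : (5 * P - X * derivative P).coeff 4 = P.coeff 4 := by
    have e1 : (X * derivative P).coeff (3 + 1) = P.coeff 4 * 4 := by
      rw [coeff_X_mul, coeff_derivative]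
      push_cast
      norm_num
    rw [coeff_sub, five_eq, coeff_C_mul]
    change 5 * P.coeff 4 - (X * derivative P).coeff (3 + 1) = _
    rw [e1]
    ring
  rw [resultant_comm]
  rw [resultant_succ_left_deg _ _ _ _ hd, hf, resultant_comm]
  have h1 : resultant (C 5 * P + derivative P * (-X)) (derivative P) 4 3 =
      resultant (C 5 * P) (derivative P) 4 3 := by
    apply resultant_add_mul_left
    · rw [natDegree_neg]
      have := natDegree_X_le (R := S)
      omega
    · exact hd
  have h3 : C 5 * P + derivative P * (-X) = 5 * P - X * derivative P := by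
    rw [← five_eq]; ring
  rw [h3, resultant_C_mul_left] at h1
  rw [h1]
  ring

/-- Scaling of `S4`. -/
theorem S4_scale {S : Type} [CommRing S] [IsDomain S] (P Pt : S[X]) (c d : S) (hc : c ≠ 0)
    (h : P.comp (C c * X) = C d * Pt) : c ^ 20 * S4 P = d ^ 8 * S4 Pt := by
  have h1 : derivative (C d * Pt) = C c * (derivative P).comp (C c * X) := by
    rw [← h, derivative_comp]
    simp
  have h2 : 5 * (C d * Pt) - X * derivative (C d * Pt) =
      (5 * P - X * derivative P).comp (C c * X) := by
    rw [h1, ← h]
    simp only [sub_comp, mul_comp, X_comp]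
    rw [five_eq, C_comp]
    ring
  have h3 : resultant (5 * (C d * Pt) - X * derivative (C d * Pt)) (derivative (C d * Pt)) 4 4 =
      c ^ 20 * S4 P := by
    rw [h2, h1, resultant_C_mul_right, res_scale _ _ _ _ _ hc]
    unfold S4
    ring
  have h4 : resultant (5 * (C d * Pt) - X * derivative (C d * Pt)) (derivative (C d * Pt)) 4 4 =
      d ^ 8 * S4 Pt := by
    have e1 : 5 * (C d * Pt) - X * derivative (C d * Pt) = C d * (5 * Pt - X * derivative Pt) := by
      rw [derivative_C_mul]; ring
    rw [e1, derivative_C_mul, resultant_C_mul_left, resultant_C_mul_right]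
    unfold S4
    ring
  rw [← h3, h4]

/-- Product formula for the resultant of `P'` and `P`, when `P'` splits. -/
theorem res_split {S : Type} [CommRing S] [IsDomain S] (P : S[X]) (hP : P.natDegree ≤ 4)
    (a : S) (ha : a ≠ 0) (r₁ r₂ r₃ : S)
    (hd : derivative P = C a * ((X - C r₁) * (X - C r₂) * (X - C r₃))) :
    resultant P (derivative P) 4 3 = a ^ 4 * (P.eval r₁ * P.eval r₂ * P.eval r₃) := by
  have h1 : (C a * ((X - C r₁) * (X - C r₂) * (X - C r₃))).natDegree = 3 := by
    rw [natDegree_C_mul ha, natDegree_mul, natDegree_mul, natDegree_X_sub_C, natDegree_X_sub_C,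
      natDegree_X_sub_C]
    · exact X_sub_C_ne_zero _
    · exact X_sub_C_ne_zero _
    · exact mul_ne_zero (X_sub_C_ne_zero _) (X_sub_C_ne_zero _)
    · exact X_sub_C_ne_zero _
  have hne : (X - C r₁) * (X - C r₂) * (X - C r₃) ≠ 0 :=
    mul_ne_zero (mul_ne_zero (X_sub_C_ne_zero _) (X_sub_C_ne_zero _)) (X_sub_C_ne_zero _)
  rw [resultant_comm, hd]
  have h2 : (C a * ((X - C r₁) * (X - C r₂) * (X - C r₃))).Splits := by
    refine Splits.mul (Splits.C a) (Splits.mul (Splits.mul ?_ ?_) ?_) <;> exact Splits.X_sub_C _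
  have h3 := resultant_eq_prod_eval (C a * ((X - C r₁) * (X - C r₂) * (X - C r₃))) P 4 hP h2
  rw [h1] at h3
  rw [h3, leadingCoeff_mul, leadingCoeff_C, leadingCoeff_mul, leadingCoeff_mul]
  simp only [leadingCoeff_X_sub_C]
  rw [roots_C_mul _ ha, roots_mul hne, roots_mul (left_ne_zero_of_mul hne)]
  simp only [roots_X_sub_C, Multiset.map_add, Multiset.map_singleton, Multiset.prod_add,
    Multiset.prod_singleton]
  ring

end Pool.Agent.TH213.EQ
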