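import Pool.Agent.TH213.EQ.Stage2b
import Pool.Agent.TH213.EQ.Quartic

/-!
# The first branch locus of `x⁴ + y⁴ + t x² y² + z⁵ = 0`
-/

set_option autoImplicit false

namespace Pool.Agent.TH213.EQ

open MvPolynomial

/-- The hypersurface. -/
noncomputable def ff : MvPolynomial (Fin 4) ℂ :=
  X 0 ^ 4 + X 1 ^ 4 + X 2 * X 0 ^ 2 * X 1 ^ 2 + X 3 ^ 5

section

variable {k : Type} [Field k] [Algebra ℂ k] (P : GP ℂ k 3) (t0 : k)

/-- The affine change of coordinates. -/
noncomputable def Lm (i : Fin 3) : Fin 3 → k :=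
  ![P.U i 1, P.v 0 * P.U i 0 + P.v 1 * P.U i 1, P.U i 2]

noncomputable def Lm' : Fin 3 → Fin 3 → k :=
  ![fun i => P.B 1 i - P.v 1 / P.v 0 * P.B 0 i, fun i => P.B 0 i / P.v 0, fun i => P.B 2 i]

noncomputable def q1 (i : Fin 3) : k := P.U i 2 * t0

lemma BU' (j j' : Fin 4) (hj' : j' ≠ 3) : ∑ i, P.B j i * P.U i j' = if j = j' then 1 else 0 := by
  have := P.BU j j'
  rw [if_neg (by simpa using hj'), mul_zero, add_zero] at this
  exact this

lemma UB' (i i' : Fin 3) : P.U i 0 * P.B 0 i' + P.U i 1 * P.B 1 i' + P.U i 2 * P.B 2 i' =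
    if i = i' then 1 else 0 := by
  have := P.UB i i'
  rw [Fin.sum_univ_four] at this
  have h3 : P.B 3 i' = 0 := P.Blast i'
  rw [h3, mul_zero, add_zero] at this
  exact this

lemma Lm_mul (h0 : P.v 0 ≠ 0) (i j : Fin 3) :
    ∑ m, Lm P i m * Lm' P m j = if i = j then 1 else 0 := by
  rw [← UB' P i j, Fin.sum_univ_three]
  simp only [Lm, Lm', Matrix.cons_val_zero, Matrix.cons_val_one, Matrix.cons_val]
  field_simp
  ring

lemma Lm'_mul (h0 : P.v 0 ≠ 0) (i j : Fin 3) :
    ∑ m, Lm' P i m * Lm P m j = if i = j then 1 else 0 := by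
  have h00 := BU' P 0 0 (by decide)
  have h01 := BU' P 0 1 (by decide)
  have h02 := BU' P 0 2 (by decide)
  have h10 := BU' P 1 0 (by decide)
  have h11 := BU' P 1 1 (by decide)
  have h12 := BU' P 1 2 (by decide)
  have h20 := BU' P 2 0 (by decide)
  have h21 := BU' P 2 1 (by decide)
  have h22 := BU' P 2 2 (by decide)
  simp only [Fin.sum_univ_three, Fin.isValue, if_pos, Fin.reduceEq, if_false] at *
  fin_cases i <;> fin_cases j <;>
    simp only [Lm, Lm', Matrix.cons_val_zero, Matrix.cons_val_one, Matrix.cons_val, Fin.mk_one,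
      Fin.zero_eta, Fin.reduceFinMk, Fin.isValue, Fin.reduceEq, if_true, if_false]
  · linear_combination h11 - P.v 1 / P.v 0 * h01
  · have e : P.v 1 / P.v 0 * P.v 0 = P.v 1 := div_mul_cancel₀ _ h0
    linear_combination P.v 1 * h11 + P.v 0 * h10 - P.v 1 / P.v 0 * (P.v 0 * h00 + P.v 1 * h01) - e
  · linear_combination h12 - P.v 1 / P.v 0 * h02
  · linear_combination h01 / P.v 0
  · have e : P.v 0 / P.v 0 = 1 := div_self h0
    linear_combination (P.v 0 * h00 + P.v 1 * h01) / P.v 0 + e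
  · linear_combination h02 / P.v 0
  · linear_combination h21
  · linear_combination P.v 0 * h20 + P.v 1 * h21
  · linear_combination h22

/-- A family of polynomials of degree `5`. -/
noncomputable def PG {S : Type} [CommRing S] (a b n c e₁ e₂ l s : S) : Polynomial S :=
  (Polynomial.C a * Polynomial.X) ^ 4 + (Polynomial.C b * Polynomial.X + Polynomial.C n) ^ 4 +
    (Polynomial.C c + Polynomial.C e₁ * Polynomial.X - Polynomial.C e₂) *
      (Polynomial.C a * Polynomial.X) ^ 2 * (Polynomial.C b * Polynomial.X + Polynomial.C n) ^ 2 +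
    (Polynomial.C l * Polynomial.X - Polynomial.C s) ^ 5

lemma PG_map {S S' : Type} [CommRing S] [CommRing S'] (φ : S →+* S') (a b n c e₁ e₂ l s : S) :
    (PG a b n c e₁ e₂ l s).map φ = PG (φ a) (φ b) (φ n) (φ c) (φ e₁) (φ e₂) (φ l) (φ s) := by
  simp [PG]

noncomputable def Pz : Polynomial (MvPolynomial (Fin 3) k) :=
  PG (C (P.v 0)) (C (P.v 1)) (X 0) (C t0 + X 2) (C (P.v 2)) (C (P.v 2) * X 1) 1 (X 1)

noncomputable def Pt : Polynomial (Polynomial (MvPolynomial (Fin 3) k)) :=
  PG (Polynomial.C (C (P.v 0))) (Polynomial.C (C (P.v 1))) (Polynomial.C (X 0))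
    (Polynomial.C (C t0 + X 2)) (Polynomial.C (C (P.v 2)) * Polynomial.X ^ 5)
    (Polynomial.C (C (P.v 2) * X 1) * Polynomial.X ^ 4) Polynomial.X (Polynomial.C (X 1))

lemma Lj (j : Fin 4) : aff (q1 P t0) (Lm P) (P.L j) =
    C (∑ i, P.B j i * P.U i 2) * C t0 + C (∑ i, P.B j i * P.U i 1) * X 0 +
    (C (P.v 0) * C (∑ i, P.B j i * P.U i 0) + C (P.v 1) * C (∑ i, P.B j i * P.U i 1)) * X 1 +
    C (∑ i, P.B j i * P.U i 2) * X 2 := by
  simp only [GP.L, map_mul, Fin.sum_univ_three, map_add]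
  simp only [aff, AlgHom.toRingHom_eq_coe, RingHom.coe_coe, aeval_X, q1, Lm, Fin.sum_univ_three,
    Matrix.cons_val_zero, Matrix.cons_val_one, Matrix.cons_val, map_mul, map_add, algHom_C,
    algebraMap_eq]
  ring

lemma aff_C {K : Type} [Field K] (q : Fin 3 → K) (L : Fin 3 → Fin 3 → K) (x : K) :
    aff q L (C x) = C x := by
  simp only [aff, AlgHom.toRingHom_eq_coe, RingHom.coe_coe, algHom_C, algebraMap_eq]

lemma fib_aff : (P.fib ff).map (aff (q1 P t0) (Lm P)) =
    (Pz P t0).comp (Polynomial.X + Polynomial.C (X 1)) := by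
  have e0 : aff (q1 P t0) (Lm P) (P.L 0) = C (P.v 0) * X 1 := by
    rw [Lj, BU' P 0 0 (by decide), BU' P 0 1 (by decide), BU' P 0 2 (by decide)]
    simp
  have e1 : aff (q1 P t0) (Lm P) (P.L 1) = X 0 + C (P.v 1) * X 1 := by
    rw [Lj, BU' P 1 0 (by decide), BU' P 1 1 (by decide), BU' P 1 2 (by decide)]
    simp
  have e2 : aff (q1 P t0) (Lm P) (P.L 2) = C t0 + X 2 := by
    rw [Lj, BU' P 2 0 (by decide), BU' P 2 1 (by decide), BU' P 2 2 (by decide)]
    simp
  have e3 : aff (q1 P t0) (Lm P) (P.L 3) = 0 := by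
    rw [Lj, BU' P 3 0 (by decide), BU' P 3 1 (by decide), BU' P 3 2 (by decide)]
    simp
  have hv : P.v 3 = 1 := P.vlast
  rw [GP.fib, ff, Pz, PG]
  simp only [map_add, map_mul, map_pow, aeval_X, Polynomial.map_add, Polynomial.map_mul,
    Polynomial.map_pow, Polynomial.map_C, Polynomial.map_X, e0, e1, e2, e3, aff_C, hv,
    Polynomial.add_comp, Polynomial.mul_comp, Polynomial.pow_comp, Polynomial.sub_comp,
    Polynomial.C_comp, Polynomial.X_comp, Polynomial.one_comp, Polynomial.map_one, map_one,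
    map_zero]
  ring

lemma coeff_ff : coeff (Finsupp.single 3 5) ff = 1 := by
  have h : coeff (Finsupp.single 3 5) (X 2 * X 0 ^ 2 * X 1 ^ 2 : MvPolynomial (Fin 4) ℂ) = 0 := by
    rw [mul_assoc, coeff_X_mul', if_neg]
    simp [Finsupp.single_apply]
  rw [ff, coeff_add, coeff_add, coeff_add, h]
  simp [coeff_X_pow, Finsupp.single_eq_single_iff]

lemma ff_ne_zero : ff ≠ 0 := by
  intro h
  have := coeff_ff
  rw [h, coeff_zero] at this
  exact zero_ne_one this

lemma ff_totalDegree : ff.totalDegree = 5 := by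
  apply le_antisymm
  · have hX : ∀ i : Fin 4, ∀ n : ℕ, (X i ^ n : MvPolynomial (Fin 4) ℂ).totalDegree ≤ n := by
      intro i n
      refine (totalDegree_pow _ _).trans ?_
      rw [totalDegree_X, mul_one]
    unfold ff
    refine (totalDegree_add _ _).trans (max_le ((totalDegree_add _ _).trans
      (max_le ((totalDegree_add _ _).trans (max_le ?_ ?_)) ?_)) ?_)
    · exact (hX _ _).trans (by norm_num)
    · exact (hX _ _).trans (by norm_num)
    · refine (totalDegree_mul _ _).trans ?_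
      have h1 : (X 2 * X 0 ^ 2 : MvPolynomial (Fin 4) ℂ).totalDegree ≤ 1 + 2 := by
        refine (totalDegree_mul _ _).trans (add_le_add ?_ (hX _ _))
        rw [totalDegree_X]
      have h2 := hX 1 2
      omega
    · exact hX _ _
  · have h1 := le_totalDegree (p := ff) (s := Finsupp.single 3 5)
      (mem_support_iff.2 (by rw [coeff_ff]; exact one_ne_zero))
    rwa [Finsupp.sum_single_index rfl] at h1

lemma discr_aff [CharZero k] :
    C 125 * aff (q1 P t0) (Lm P) (P.fib ff).discr = S4 (Pz P t0) := by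
  obtain ⟨hd, c, hc, hlc⟩ := P.lead ff_ne_zero
  rw [ff_totalDegree] at hd
  have hCc : (C c : MvPolynomial (Fin 3) k) ≠ 0 := by
    intro h
    exact hc (C_injective _ _ (by rw [h, map_zero]))
  have h1 := Polynomial.resultant_deriv (f := P.fib ff)
    (Polynomial.natDegree_pos_iff_degree_pos.1 (by rw [hd]; norm_num))
  rw [hd, hlc] at h1
  norm_num at h1
  have h2 := congrArg (aff (q1 P t0) (Lm P)) h1
  rw [← Polynomial.resultant_map_map, map_mul, aff_C, ← Polynomial.derivative_map, fib_aff] at h2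
  have hlc' : aff (q1 P t0) (Lm P) (P.fib ff).leadingCoeff ≠ 0 := by
    rw [hlc, aff_C]; exact hCc
  have hnd : (Pz P t0).natDegree = 5 := by
    have h3 := Polynomial.natDegree_map_of_leadingCoeff_ne_zero _ hlc'
    rw [fib_aff, hd] at h3
    rw [← h3]
    exact (Polynomial.natDegree_taylor (Pz P t0) (X 1)).symm
  have hcf : (Pz P t0).coeff 5 = C c := by
    have h3 := Polynomial.leadingCoeff_map_of_leadingCoeff_ne_zero _ hlc'
    rw [fib_aff, hlc, aff_C] at h3
    rw [← h3]
    change _ = (Polynomial.taylor (X 1) (Pz P t0)).leadingCoeff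
    rw [Polynomial.leadingCoeff_taylor, Polynomial.leadingCoeff, hnd]
  have hdd : (Polynomial.derivative (Pz P t0)).natDegree = 4 := by
    rw [Polynomial.natDegree_derivative, hnd]
  have h3 := Polynomial.resultant_taylor (Pz P t0) (Polynomial.derivative (Pz P t0)) (X 1)
  rw [Polynomial.natDegree_taylor, Polynomial.natDegree_taylor, hnd, hdd] at h3
  have h4 : Polynomial.derivative ((Pz P t0).comp (Polynomial.X + Polynomial.C (X 1))) =
      Polynomial.taylor (X 1) (Polynomial.derivative (Pz P t0)) := by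
    rw [Polynomial.derivative_comp, Polynomial.taylor_apply]
    simp
  rw [h4] at h2
  change Polynomial.resultant (Polynomial.taylor (X 1) (Pz P t0)) _ 5 4 = _ at h2
  rw [h3] at h2
  have h5 := S4_five (Pz P t0) hnd.le
  rw [h2, hcf] at h5
  apply mul_left_cancel₀ hCc
  apply mul_left_cancel₀ (show (5 : MvPolynomial (Fin 3) k) ≠ 0 by norm_num)
  rw [← mul_assoc 5 (C c) (S4 _), ← h5]
  have e : (C 125 : MvPolynomial (Fin 3) k) = 125 := map_ofNat C 125
  rw [e]
  ring

end

end Pool.Agent.TH213.EQ
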