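import Pool.Agent.TH213.EQ.Stage1

/-!
# The weighted initial form of the discriminant
-/

set_option autoImplicit false

namespace Pool.Agent.TH213.EQ

section

open Polynomial

lemma PG_zero {S : Type} [CommRing S] (a b n c s : S) :
    PG a b n c 0 0 0 s = C (c4 c a b) * X ^ 4 + C (c3 c a b * n) * X ^ 3 +
      C (c2 c a b * n ^ 2) * X ^ 2 + C (c1 b * n ^ 3) * X + C (n ^ 4 - s ^ 5) := by
  simp only [PG, c4, c3, c2, c1, map_add, map_sub, map_mul, map_pow, map_ofNat, map_zero]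
  ring

lemma PG_zero_natDegree {S : Type} [CommRing S] (a b n c s : S) :
    (PG a b n c 0 0 0 s).natDegree ≤ 4 := by
  rw [PG_zero]
  compute_degree

lemma PG_zero_coeff {S : Type} [CommRing S] (a b n c s : S) :
    (PG a b n c 0 0 0 s).coeff 4 = c4 c a b := by
  rw [PG_zero]
  compute_degree!

lemma S4_PG {k S : Type} [Field k] [CommRing S] [IsDomain S] (i : k →+* S) (t a b : k) (N s : S)
    (r₁ r₂ r₃ : k) (h4 : 4 * c4 t a b ≠ 0)
    (v1 : 4 * c4 t a b * (r₁ + r₂ + r₃) = - (3 * c3 t a b))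
    (v2 : 4 * c4 t a b * (r₁ * r₂ + r₁ * r₃ + r₂ * r₃) = 2 * c2 t a b)
    (v3 : 4 * c4 t a b * (r₁ * r₂ * r₃) = - c1 b) :
    S4 (PG (i a) (i b) N (i t) 0 0 0 s) = 125 * i (c4 t a b) * (i (4 * c4 t a b) ^ 4 *
      ((i ((qq t a b).eval r₁) * N ^ 4 - s ^ 5) * (i ((qq t a b).eval r₂) * N ^ 4 - s ^ 5) *
      (i ((qq t a b).eval r₃) * N ^ 4 - s ^ 5))) := by
  have w1 := congrArg i v1
  have w2 := congrArg i v2
  have w3 := congrArg i v3
  simp only [map_mul, map_add, map_neg, map_ofNat, map_c4, map_c3, map_c2, map_c1] at w1 w2 w3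
  have hi4 : i (4 * c4 t a b) ≠ 0 := by
    rw [_root_.map_ne_zero]; exact h4
  rw [S4_four _ (PG_zero_natDegree _ _ _ _ _), PG_zero_coeff]
  rw [res_split (PG (i a) (i b) N (i t) 0 0 0 s) (PG_zero_natDegree _ _ _ _ _)
    (i (4 * c4 t a b)) hi4 (i r₁ * N) (i r₂ * N) (i r₃ * N)]
  · have hev : ∀ r : k, (PG (i a) (i b) N (i t) 0 0 0 s).eval (i r * N) =
        i ((qq t a b).eval r) * N ^ 4 - s ^ 5 := by
      intro r
      have hq : (qq t a b).eval r = c4 t a b * r ^ 4 + c3 t a b * r ^ 3 + c2 t a b * r ^ 2 +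
        c1 b * r + 1 := by simp [qq]
      rw [hq, PG_zero]
      simp only [eval_add, eval_mul, eval_C, eval_pow, eval_X]
      rw [map_add, map_add, map_add, map_add, map_mul, map_mul, map_mul, map_mul, map_pow, map_pow,
        map_pow, map_one, map_c4, map_c3, map_c2, map_c1]
      ring
    rw [hev, hev, hev, map_c4]
  · rw [PG_zero]
    have e1 : derivative (C (c4 (i t) (i a) (i b)) * X ^ 4 + C (c3 (i t) (i a) (i b) * N) * X ^ 3 +
      C (c2 (i t) (i a) (i b) * N ^ 2) * X ^ 2 + C (c1 (i b) * N ^ 3) * X + C (N ^ 4 - s ^ 5)) =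
      C (4 * c4 (i t) (i a) (i b)) * X ^ 3 + C (3 * c3 (i t) (i a) (i b) * N) * X ^ 2 +
      C (2 * c2 (i t) (i a) (i b) * N ^ 2) * X + C (c1 (i b) * N ^ 3) := by
      simp only [derivative_add, derivative_mul, derivative_C, derivative_X_pow,
        derivative_X, map_mul, map_ofNat, Nat.cast_ofNat, zero_mul, zero_add, mul_one, add_zero,
        Nat.reduceSub, pow_one]
      ring
    have e2 : (C (4 * c4 (i t) (i a) (i b)) : S[X]) * ((X - C (i r₁ * N)) * (X - C (i r₂ * N)) *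
        (X - C (i r₃ * N))) = C (4 * c4 (i t) (i a) (i b)) * X ^ 3 -
        C (4 * c4 (i t) (i a) (i b) * (i r₁ + i r₂ + i r₃) * N) * X ^ 2 +
        C (4 * c4 (i t) (i a) (i b) * (i r₁ * i r₂ + i r₁ * i r₃ + i r₂ * i r₃) * N ^ 2) * X -
        C (4 * c4 (i t) (i a) (i b) * (i r₁ * i r₂ * i r₃) * N ^ 3) := by
      simp only [map_mul, map_add, map_pow, map_ofNat]
      ring
    have e3 : i (4 * c4 t a b) = 4 * c4 (i t) (i a) (i b) := by
      rw [map_mul, map_c4, map_ofNat]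
    rw [e1, e3, e2, w1, w2, w3]
    simp only [map_mul, map_neg]
    ring

lemma sep_aux {k : Type} [Field k] [CharZero k] {κ : k} (hκ : κ ≠ 0) : (C κ * X ^ 4 - 1 ^ 5 : k[X]).Separable := by
  refine ⟨-1, C (4⁻¹) * X, ?_⟩
  have h : derivative (C κ * X ^ 4 - 1 ^ 5 : k[X]) = C (4 * κ) * X ^ 3 := by
    simp only [derivative_sub, derivative_mul, derivative_C, derivative_X_pow, one_pow,
      derivative_one, map_mul, map_ofNat, Nat.cast_ofNat, zero_mul, zero_add, sub_zero,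
      Nat.reduceSub]
    ring
  rw [h]
  have e : (C (4⁻¹) : k[X]) * C (4 * κ) = C κ := by
    rw [← C_mul]; congr 1; field_simp
  linear_combination X ^ 4 * e

lemma cop_aux {k : Type} [Field k] {κ κ' : k} (hκ : κ ≠ κ') :
    IsCoprime (C κ * X ^ 4 - 1 ^ 5 : k[X]) (C κ' * X ^ 4 - 1 ^ 5) := by
  have h : κ - κ' ≠ 0 := sub_ne_zero.2 hκ
  refine ⟨C (κ' / (κ - κ')), - C (κ / (κ - κ')), ?_⟩
  have e1 : (C (κ' / (κ - κ')) : k[X]) * C κ - C (κ / (κ - κ')) * C κ' = 0 := by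
    rw [← C_mul, ← C_mul, ← C_sub, ← C_0]; congr 1; field_simp; ring
  have e2 : (C (κ / (κ - κ')) : k[X]) - C (κ' / (κ - κ')) = 1 := by
    rw [← C_sub, ← C_1]; congr 1; field_simp
  linear_combination X ^ 4 * e1 + e2

end

/-- `x ^ n * y`. -/
def powmul {S : Type} [CommRing S] (x y : S) (n : ℕ) : S := x ^ n * y

open Polynomial in
lemma PG_scale {S : Type} [CommRing S] [IsDomain S] (x a b n c e s : S) (hx : x ≠ 0) :
    ∃ m : ℕ, 60 ≤ m ∧ S4 (PG a b (n * x ^ 5) c e (e * (s * x ^ 4)) 1 (s * x ^ 4)) =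
      powmul x (S4 (PG a b n c (e * x ^ 5) (e * s * x ^ 4) x s)) m := by
  have h : (PG a b (n * x ^ 5) c e (e * (s * x ^ 4)) 1 (s * x ^ 4)).comp (C (x ^ 5) * X) =
      C (x ^ 20) * PG a b n c (e * x ^ 5) (e * s * x ^ 4) x s := by
    rw [PG, PG]
    simp only [map_mul, map_pow, map_one, add_comp, mul_comp, pow_comp, sub_comp,
      C_comp, X_comp, one_comp]
    ring
  have h := S4_scale _ _ (x ^ 5) (x ^ 20) (pow_ne_zero _ hx) h
  refine ⟨60, le_rfl, ?_⟩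
  have h1 : x ^ 100 ≠ 0 := pow_ne_zero _ hx
  apply mul_left_cancel₀ h1
  unfold powmul
  linear_combination h

open MvPolynomial

section

variable {k : Type} [Field k] [Algebra ℂ k] [CharZero k] [IsAlgClosed k] (P : GP ℂ k 3) (t0 : k)

/-- Genericity of the direction. -/
structure Good : Prop where
  h0 : P.v 0 ≠ 0
  h4 : c4 t0 (P.v 0) (P.v 1) ≠ 0
  hP1 : Psi1 t0 (P.v 0) (P.v 1) ≠ 0
  hP2 : Psi2 t0 (P.v 0) (P.v 1) ≠ 0
  ht : t0 ^ 2 ≠ 4

omit [CharZero k] [IsAlgClosed k] in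
lemma coeff_zero_eq : (S4 (Pt P t0)).coeff 0 =
    S4 (PG (C (P.v 0)) (C (P.v 1)) (X 0) (C t0 + X 2) 0 0 0 (X 1) :
      Polynomial (MvPolynomial (Fin 3) k)) := by
  have h := S4_map (Polynomial.evalRingHom (0 : MvPolynomial (Fin 3) k)) (Pt P t0)
  rw [Polynomial.coeff_zero_eq_eval_zero, ← Polynomial.coe_evalRingHom, ← h, Pt, PG_map]
  simp

omit [CharZero k] [IsAlgClosed k] in
lemma H1 : ∃ e : ℕ, 60 ≤ e ∧ theta (S4 (Pz P t0)) = powmul Polynomial.X (S4 (Pt P t0)) e := by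
  rw [← S4_map, Pz, Pt, PG_map]
  simp only [map_mul, map_add, map_one, theta_C, theta_0, theta_1, theta_2]
  exact PG_scale _ _ _ _ _ _ _ Polynomial.X_ne_zero

variable {P t0}

lemma H2 (hg : Good P t0) : eval ![1, 0, 0] ((S4 (Pt P t0)).coeff 0) ≠ 0 := by
  obtain ⟨r₁, r₂, r₃, h, v1, v2, v3, hd1, hd2, hd3, hn1, hn2, hn3⟩ :=
    crit t0 (P.v 0) (P.v 1) hg.h4 hg.hP1 hg.hP2 hg.h0 hg.ht
  have h4 : 4 * c4 t0 (P.v 0) (P.v 1) ≠ 0 := mul_ne_zero (by norm_num) hg.h4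
  rw [coeff_zero_eq, ← S4_map, PG_map]
  have e := S4_PG (RingHom.id k) t0 (P.v 0) (P.v 1) 1 0 r₁ r₂ r₃ h4 v1 v2 v3
  simp only [RingHom.id_apply] at e
  have e2 : PG (eval ![1, 0, 0] (C (P.v 0))) (eval ![1, 0, 0] (C (P.v 1))) (eval ![1, 0, 0] (X 0))
      (eval ![1, 0, 0] (C t0 + X 2)) (eval ![1, 0, 0] 0) (eval ![1, 0, 0] 0) (eval ![1, 0, 0] 0)
      (eval ![1, 0, 0] (X 1)) = PG (P.v 0) (P.v 1) 1 t0 0 0 0 (0 : k) := by
    simp
  rw [e2, e]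
  have h5 : (125 : k) ≠ 0 := by norm_num
  simp only [one_pow, mul_one, ne_eq, OfNat.ofNat_ne_zero, not_false_eq_true, zero_pow, sub_zero]
  exact mul_ne_zero (mul_ne_zero h5 hg.h4) (mul_ne_zero (pow_ne_zero _ h4)
    (mul_ne_zero (mul_ne_zero hn1 hn2) hn3))

/-- The one variable polynomial. -/
lemma E_eq (hg : Good P t0) : ∃ c κ₁ κ₂ κ₃ : k, c ≠ 0 ∧ κ₁ ≠ 0 ∧ κ₂ ≠ 0 ∧ κ₃ ≠ 0 ∧ κ₁ ≠ κ₂ ∧
    κ₁ ≠ κ₃ ∧ κ₂ ≠ κ₃ ∧ (aeval ![Polynomial.X, 1, 0] ((S4 (Pt P t0)).coeff 0) : Polynomial k) =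
      Polynomial.C c * ((Polynomial.C κ₁ * Polynomial.X ^ 4 - 1 ^ 5) *
        (Polynomial.C κ₂ * Polynomial.X ^ 4 - 1 ^ 5) *
        (Polynomial.C κ₃ * Polynomial.X ^ 4 - 1 ^ 5)) := by
  obtain ⟨r₁, r₂, r₃, h, v1, v2, v3, hd1, hd2, hd3, hn1, hn2, hn3⟩ :=
    crit t0 (P.v 0) (P.v 1) hg.h4 hg.hP1 hg.hP2 hg.h0 hg.ht
  have h4 : 4 * c4 t0 (P.v 0) (P.v 1) ≠ 0 := mul_ne_zero (by norm_num) hg.h4
  have h5 : (125 : k) ≠ 0 := by norm_num
  refine ⟨125 * c4 t0 (P.v 0) (P.v 1) * (4 * c4 t0 (P.v 0) (P.v 1)) ^ 4, _, _, _,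
    mul_ne_zero (mul_ne_zero h5 hg.h4) (pow_ne_zero _ h4), hn1, hn2, hn3, hd1, hd2, hd3, ?_⟩
  rw [coeff_zero_eq]
  have e := S4_PG (Polynomial.C : k →+* Polynomial k) t0 (P.v 0) (P.v 1) Polynomial.X 1 r₁ r₂ r₃ h4
    v1 v2 v3
  have e1 := S4_map ((aeval ![Polynomial.X, 1, 0] : MvPolynomial (Fin 3) k →ₐ[k]
    Polynomial k).toRingHom) (PG (C (P.v 0)) (C (P.v 1)) (X 0) (C t0 + X 2) 0 0 0 (X 1) :
      Polynomial (MvPolynomial (Fin 3) k))
  change _ = aeval ![Polynomial.X, 1, 0] _ at e1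
  rw [← e1, PG_map]
  have e2 : PG ((aeval ![Polynomial.X, 1, 0] : MvPolynomial (Fin 3) k →ₐ[k]
      Polynomial k).toRingHom (C (P.v 0)))
      ((aeval ![Polynomial.X, 1, 0] : MvPolynomial (Fin 3) k →ₐ[k] Polynomial k).toRingHom
        (C (P.v 1)))
      ((aeval ![Polynomial.X, 1, 0] : MvPolynomial (Fin 3) k →ₐ[k] Polynomial k).toRingHom (X 0))
      ((aeval ![Polynomial.X, 1, 0] : MvPolynomial (Fin 3) k →ₐ[k] Polynomial k).toRingHom
        (C t0 + X 2))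
      ((aeval ![Polynomial.X, 1, 0] : MvPolynomial (Fin 3) k →ₐ[k] Polynomial k).toRingHom 0)
      ((aeval ![Polynomial.X, 1, 0] : MvPolynomial (Fin 3) k →ₐ[k] Polynomial k).toRingHom 0)
      ((aeval ![Polynomial.X, 1, 0] : MvPolynomial (Fin 3) k →ₐ[k] Polynomial k).toRingHom 0)
      ((aeval ![Polynomial.X, 1, 0] : MvPolynomial (Fin 3) k →ₐ[k] Polynomial k).toRingHom (X 1)) =
      PG (Polynomial.C (P.v 0)) (Polynomial.C (P.v 1)) Polynomial.X (Polynomial.C t0) 0 0 0 1 := by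
    simp
  rw [e2, e]
  simp only [map_mul, map_pow, map_ofNat]
  ring

lemma H3 (hg : Good P t0) :
    (aeval ![Polynomial.X, 1, 0] ((S4 (Pt P t0)).coeff 0) : Polynomial k).Separable := by
  obtain ⟨c, κ₁, κ₂, κ₃, hc, h1, h2, h3, h12, h13, h23, h⟩ := E_eq hg
  rw [h]
  refine Polynomial.Separable.unit_mul (Polynomial.isUnit_C.2 (isUnit_iff_ne_zero.2 hc)) ?_
  refine Polynomial.Separable.mul (Polynomial.Separable.mul (sep_aux h1) (sep_aux h2)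
    (cop_aux h12)) (sep_aux h3) ?_
  exact IsCoprime.mul_left (cop_aux h13) (cop_aux h23)

lemma E_natDegree (hg : Good P t0) :
    (aeval ![Polynomial.X, 1, 0] ((S4 (Pt P t0)).coeff 0) : Polynomial k).natDegree = 12 := by
  obtain ⟨c, κ₁, κ₂, κ₃, hc, h1, h2, h3, h12, h13, h23, h⟩ := E_eq hg
  have hd : ∀ κ : k, κ ≠ 0 → (Polynomial.C κ * Polynomial.X ^ 4 - 1 ^ 5 : Polynomial k).natDegree
      = 4 := by
    intro κ hκ
    rw [one_pow, ← Polynomial.C_1, Polynomial.natDegree_sub_C, Polynomial.natDegree_C_mul_X_pow 4 κ hκ]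
  have hne : ∀ κ : k, κ ≠ 0 → (Polynomial.C κ * Polynomial.X ^ 4 - 1 ^ 5 : Polynomial k) ≠ 0 := by
    intro κ hκ h0
    have := hd κ hκ
    rw [h0, Polynomial.natDegree_zero] at this
    omega
  rw [h, Polynomial.natDegree_C_mul hc, Polynomial.natDegree_mul (mul_ne_zero (hne _ h1)
    (hne _ h2)) (hne _ h3), Polynomial.natDegree_mul (hne _ h1) (hne _ h2), hd _ h1, hd _ h2,
    hd _ h3]

end

end Pool.Agent.TH213.EQ
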