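import Pool.Agent.TH213.EQ.Stage1b

/-!
# Weights of the monomials of the reduced discriminant
-/

set_option autoImplicit false

namespace Pool.Agent.TH213.EQ

open Polynomial in
lemma tc_pow {A : Type} [CommRing A] [IsDomain A] (g : A[X]) (M : ℕ) :
    (g ^ M).trailingCoeff = g.trailingCoeff ^ M := by
  induction M with
  | zero => rw [pow_zero, pow_zero, trailingCoeff, natTrailingDegree_one, coeff_one_zero]
  | succ n ih => rw [pow_succ, trailingCoeff_mul, ih, pow_succ]

open Polynomial in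
lemma tc_powmul {A : Type} [CommRing A] [IsDomain A] (d : A[X]) (e : ℕ) (hd : d.coeff 0 ≠ 0) :
    (powmul X d e).trailingCoeff = d.coeff 0 := by
  have h0 : d.natTrailingDegree = 0 := by
    have := natTrailingDegree_le_of_ne_zero hd
    omega
  rw [powmul, trailingCoeff_mul, tc_pow]
  have h1 : (X : A[X]).trailingCoeff = 1 := by
    rw [trailingCoeff, natTrailingDegree_X, coeff_X_one]
  rw [h1, one_pow, one_mul, trailingCoeff, h0]

open Polynomial in
lemma tc_arg {A : Type} [CommRing A] [IsDomain A] (d g : A[X]) (c : A) (M e : ℕ)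
    (hd : d.coeff 0 ≠ 0) (h1 : g ∣ powmul X d e) (h2 : powmul X d e ∣ C c * g ^ M) :
    g.trailingCoeff ∣ d.coeff 0 ∧ d.coeff 0 ∣ c * g.trailingCoeff ^ M := by
  obtain ⟨p, hp⟩ := h1
  obtain ⟨q, hq⟩ := h2
  have e1 := congrArg trailingCoeff hp
  have e2 := congrArg trailingCoeff hq
  rw [tc_powmul d e hd, trailingCoeff_mul] at e1
  rw [trailingCoeff_mul, trailingCoeff_mul, tc_powmul d e hd, tc_pow] at e2
  have e3 : (C c : A[X]).trailingCoeff = c := by
    rw [trailingCoeff, natTrailingDegree_C, coeff_C_zero]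
  rw [e3] at e2
  exact ⟨⟨_, e1⟩, ⟨_, e2⟩⟩

open MvPolynomial

lemma natDegree_phi {k : Type} [Field k] (ρ : MvPolynomial (Fin 3) k) (a : ℕ)
    (h : ∀ m : Fin 3 →₀ ℕ, coeff m ρ ≠ 0 → 5 * m 0 ≤ a) :
    5 * (aeval ![Polynomial.X, 1, 0] ρ : Polynomial k).natDegree ≤ a := by
  have h1 : (aeval ![Polynomial.X, 1, 0] ρ : Polynomial k).natDegree ≤ a / 5 := by
    rw [aeval_def, eval₂_eq']
    refine Polynomial.natDegree_sum_le_of_forall_le _ _ fun m hm => ?_
    have h2 := h m (mem_support_iff.1 hm)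
    rw [Fin.prod_univ_three]
    simp only [Matrix.cons_val_zero, Matrix.cons_val_one, Matrix.cons_val, one_pow, mul_one]
    rw [Polynomial.algebraMap_eq]
    refine (Polynomial.natDegree_C_mul_le _ _).trans ?_
    rcases Nat.eq_zero_or_pos (m 2) with h3 | h3
    · rw [h3, pow_zero, mul_one, Polynomial.natDegree_X_pow]
      omega
    · rw [zero_pow (by omega), mul_zero, Polynomial.natDegree_zero]
      omega
  omega

theorem weights {k : Type} [Field k] (g δ : MvPolynomial (Fin 3) k)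
    (δt : Polynomial (MvPolynomial (Fin 3) k)) (e : ℕ)
    (H1 : theta δ = powmul Polynomial.X δt e)
    (H3 : (aeval ![Polynomial.X, 1, 0] (δt.coeff 0) : Polynomial k).Separable)
    (hdeg : (aeval ![Polynomial.X, 1, 0] (δt.coeff 0) : Polynomial k).natDegree = 12)
    (c : k) (hc : c ≠ 0) (hgd : g ∣ δ) (M : ℕ) (hM : δ ∣ C c * g ^ M) :
    ∀ m : Fin 3 →₀ ℕ, coeff m g ≠ 0 → 2 ≤ m 0 + m 1 := by
  set φ : MvPolynomial (Fin 3) k →ₐ[k] Polynomial k := aeval ![Polynomial.X, 1, 0] with hφ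
  have hE0 : φ (δt.coeff 0) ≠ 0 := by
    intro h
    rw [h, Polynomial.natDegree_zero] at hdeg
    omega
  have h0 : δt.coeff 0 ≠ 0 := by
    intro h
    rw [h, map_zero] at hE0
    exact hE0 rfl
  have a1 : theta g ∣ powmul Polynomial.X δt e := by
    rw [← H1]
    exact map_dvd theta hgd
  have a2 : powmul Polynomial.X δt e ∣ Polynomial.C (C c) * theta g ^ M := by
    rw [← H1, ← theta_C, ← map_pow, ← map_mul]
    exact map_dvd theta hM
  obtain ⟨b1, b2⟩ := tc_arg δt (theta g) (C c) M e h0 a1 a2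
  have c1 := map_dvd φ b1
  have c2 := map_dvd φ b2
  rw [map_mul, map_pow] at c2
  set ρ := φ (theta g).trailingCoeff with hρ
  have hρ0 : ρ ≠ 0 := by
    rintro h
    rw [h, zero_dvd_iff] at c1
    exact hE0 c1
  have hφC : φ (C c) = Polynomial.C c := by
    rw [hφ, algHom_C]; rfl
  rw [hφC] at c2
  have hu : IsUnit (Polynomial.C c) := Polynomial.isUnit_C.2 (isUnit_iff_ne_zero.2 hc)
  have c3 : φ (δt.coeff 0) ∣ ρ ^ M := (IsUnit.dvd_mul_left hu).1 c2
  have c4 : φ (δt.coeff 0) ∣ ρ ^ (M + 1) := c3.trans (pow_dvd_pow _ (Nat.le_succ M))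
  have c5 : φ (δt.coeff 0) ∣ ρ :=
    (H3.squarefree.dvd_pow_iff_dvd (by omega)).1 c4
  have c6 := Polynomial.natDegree_le_of_dvd c5 hρ0
  rw [hdeg] at c6
  have c7 := natDegree_phi ((theta g).trailingCoeff) (theta g).natTrailingDegree (by
    intro m hm
    rw [Polynomial.trailingCoeff, coeff_theta] at hm
    split_ifs at hm with h
    · omega
    · exact absurd rfl hm)
  intro m hm
  have d1 : (theta g).coeff (5 * m 0 + 4 * m 1) ≠ 0 := by
    intro h
    have := coeff_theta g m (5 * m 0 + 4 * m 1)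
    rw [if_pos rfl, h, coeff_zero] at this
    exact hm this.symm
  have d2 := Polynomial.natTrailingDegree_le_of_ne_zero d1
  change 5 * ρ.natDegree ≤ _ at c7
  omega

end Pool.Agent.TH213.EQ
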