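import Pool.Agent.TH213.EQ.Core

/-!
# The discriminant of the generic projection near a point with good weighted initial form
-/

set_option autoImplicit false

namespace Pool.Agent.TH213.EQ

open MvPolynomial

section

variable {K k : Type} [Field K] [Field k] [Algebra K k]

/-- The substitution `X_i ↦ q_i + ∑ j, L i j X_j`. -/
noncomputable def aff (q : Fin 3 → K) (L : Fin 3 → Fin 3 → K) :
    MvPolynomial (Fin 3) K →+* MvPolynomial (Fin 3) K :=
  (aeval (fun i => C (q i) + ∑ j, C (L i j) * X j) :
    MvPolynomial (Fin 3) K →ₐ[K] MvPolynomial (Fin 3) K).toRingHom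

/-- Coordinates of the direction. -/
noncomputable def dirC (P : GP K k 2) (L' : Fin 3 → Fin 3 → K) (j : Fin 3) : k :=
  ∑ i, algebraMap K k (L' j i) * P.v i

/-- The coefficients of the linear form which defines the projected stratum. -/
noncomputable def lform (P : GP K k 2) (L' : Fin 3 → Fin 3 → K) (m i : Fin 3) : k :=
  algebraMap K k (L' m i) - dirC P L' m / dirC P L' 0 * algebraMap K k (L' 0 i)

noncomputable def ell (P : GP K k 2) (q : Fin 3 → K) (L' : Fin 3 → Fin 3 → K) (m : Fin 3) :
    MvPolynomial (Fin 2) k :=
  ∑ i, C (lform P L' m i) * (P.L i - C (algebraMap K k (q i)))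

/-- The projection of a point. -/
noncomputable def GP.pt {r : ℕ} (P : GP K k r) (q : Fin (r + 1) → K) (i : Fin r) : k :=
  ∑ j, P.U i j * algebraMap K k (q j)

lemma GP.eval_L {r : ℕ} (P : GP K k r) (q : Fin (r + 1) → K) (j : Fin (r + 1)) :
    eval (P.pt q) (P.L j) = algebraMap K k (q j) - P.v j * algebraMap K k (q (Fin.last r)) := by
  have h1 : eval (P.pt q) (P.L j) = ∑ j', (∑ i, P.B j i * P.U i j') * algebraMap K k (q j') := by
    simp only [GP.L, map_sum, map_mul, eval_C, eval_X, GP.pt]
    simp only [Finset.sum_mul, Finset.mul_sum]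
    rw [Finset.sum_comm]
    refine Finset.sum_congr rfl fun i _ => Finset.sum_congr rfl fun j' _ => ?_
    ring
  have h2 : ∀ j', ∑ i, P.B j i * P.U i j' = (if j = j' then 1 else 0) -
      P.v j * (if j' = Fin.last r then 1 else 0) := by
    intro j'
    rw [← P.BU j j']; ring
  rw [h1]
  simp only [h2, sub_mul, Finset.sum_sub_distrib]
  simp

lemma lform_v (P : GP K k 2) (L' : Fin 3 → Fin 3 → K) (m : Fin 3) (h0 : dirC P L' 0 ≠ 0) :
    ∑ i, lform P L' m i * P.v i = 0 := by
  have h1 : ∑ i, lform P L' m i * P.v i = dirC P L' m - dirC P L' m / dirC P L' 0 * dirC P L' 0 := by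
    conv_rhs => rw [show dirC P L' m - dirC P L' m / dirC P L' 0 * dirC P L' 0 =
      (∑ i, algebraMap K k (L' m i) * P.v i) - dirC P L' m / dirC P L' 0 *
        (∑ i, algebraMap K k (L' 0 i) * P.v i) from rfl]
    rw [Finset.mul_sum, ← Finset.sum_sub_distrib]
    refine Finset.sum_congr rfl fun i _ => ?_
    rw [lform]; ring
  rw [h1]
  field_simp
  ring

lemma ell_pt (P : GP K k 2) (q : Fin 3 → K) (L' : Fin 3 → Fin 3 → K) (m : Fin 3)
    (h0 : dirC P L' 0 ≠ 0) : eval (P.pt q) (ell P q L' m) = 0 := by
  simp only [ell, map_sum, map_mul, eval_C, map_sub]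
  have h1 : ∀ i : Fin 3, eval (P.pt q) (P.L i) = algebraMap K k (q i) - P.v i *
      algebraMap K k (q (Fin.last 2)) := fun i => P.eval_L q i
  simp only [h1]
  have h2 := lform_v P L' m h0
  calc _ = - (∑ i, lform P L' m i * P.v i) * algebraMap K k (q (Fin.last 2)) := by
        rw [← Finset.sum_neg_distrib, Finset.sum_mul]
        refine Finset.sum_congr rfl fun i _ => ?_
        ring
    _ = 0 := by rw [h2]; ring

theorem stage2 [CharZero K] [CharZero k] (P : GP K k 2)
    (R : MvPolynomial (Fin 3) K) (hR : Squarefree R) (hdeg : 0 < R.totalDegree)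
    (q : Fin 3 → K) (L L' : Fin 3 → Fin 3 → K)
    (hLL' : ∀ i j, ∑ m, L i m * L' m j = if i = j then 1 else 0)
    (δ : MvPolynomial (Fin 3) K) (δt : Polynomial (MvPolynomial (Fin 3) K)) (e : ℕ)
    (H1 : theta δ = Polynomial.X ^ e * δt)
    (H2 : eval ![1, 0, 0] (δt.coeff 0) ≠ 0)
    (H3 : (aeval ![Polynomial.X, 1, 0] (δt.coeff 0) : Polynomial K).Separable)
    (hρ : aff q L R ∣ δ) (ha : dirC P L' 0 ≠ 0)
    (p : Ideal (MvPolynomial (Fin 2) k)) [hp : p.IsPrime]
    (hpn : ∀ g ∈ p, eval (P.pt q) g = 0)
    (hD : (P.fib R).discr ∈ p) (hℓ : ell P q L' 1 ∉ p) : False := by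
  classical
  have hR0 : R ≠ 0 := by
    rintro rfl
    simp at hdeg
  -- the field `Ω`
  set A2 := MvPolynomial (Fin 2) k with hA2
  set Q2 := A2 ⧸ p with hQ2
  set Ω := AlgebraicClosure (FractionRing Q2) with hΩ
  set φ : A2 →+* Ω := (algebraMap (FractionRing Q2) Ω).comp
    ((algebraMap Q2 (FractionRing Q2)).comp (Ideal.Quotient.mk p)) with hφ
  have hφker : ∀ g, φ g = 0 ↔ g ∈ p := by
    intro g
    rw [hφ, RingHom.comp_apply, RingHom.comp_apply, map_eq_zero,
      map_eq_zero_iff _ (IsFractionRing.injective Q2 (FractionRing Q2)),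
      Ideal.Quotient.eq_zero_iff_mem]
  have hφC : ∀ c : k, c ≠ 0 → φ (C c) ≠ 0 := by
    intro c hc h
    rw [hφker] at h
    have := hpn _ h
    rw [eval_C] at this
    exact hc this
  have : CharZero Ω := by
    refine ⟨fun m n h => ?_⟩
    by_contra hmn
    have h1 : φ (C ((m : k) - (n : k))) = 0 := by
      rw [map_sub, map_natCast, map_natCast, map_sub, map_natCast, map_natCast, sub_eq_zero]
      exact h
    refine hφC _ ?_ h1
    rw [sub_ne_zero]
    exact fun h => hmn (Nat.cast_injective h)
  obtain ⟨hfd, c, hc, hlc⟩ := P.lead hR0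
  have hdr := (discr_zero_iff (P.fib R) φ (by rw [hfd]; exact hdeg) (by
    rw [hlc]; exact hφC c hc)).1 ((hφker _).2 hD)
  obtain ⟨z, hz1, hz2⟩ := hdr
  -- the valuation ring
  have hI : Ideal.map φ.rangeRestrict (RingHom.ker (eval (P.pt q))) ≠ ⊤ := by
    intro h
    have h1 : (1 : φ.range) ∈ Ideal.map φ.rangeRestrict (RingHom.ker (eval (P.pt q))) := by
      rw [h]; trivial
    obtain ⟨g, hg, hg1⟩ := (Ideal.mem_map_iff_of_surjective _ φ.rangeRestrict_surjective).1 h1
    have h2 : φ (g - 1) = 0 := by
      rw [map_sub, map_one, sub_eq_zero]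
      exact congrArg Subtype.val hg1
    rw [hφker] at h2
    have h3 := hpn _ h2
    rw [map_sub, map_one, (RingHom.mem_ker).1 hg] at h3
    norm_num at h3
  obtain ⟨O, hAO, hIO⟩ := Ideal.image_subset_nonunits_valuationSubring
    (Ideal.map φ.rangeRestrict (RingHom.ker (eval (P.pt q)))) hI
  have hφO : ∀ g, φ g ∈ O := fun g => hAO ⟨g, rfl⟩
  set φO : A2 →+* O := φ.codRestrict O.toSubring hφO with hφOdef
  have hφOm : ∀ g, eval (P.pt q) g = 0 → φO g ∈ IsLocalRing.maximalIdeal O := by
    intro g hg
    rw [O.valuation_lt_one_iff]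
    have h1 : φ g ∈ O.nonunits := by
      apply hIO
      exact ⟨φ.rangeRestrict g, Ideal.mem_map_of_mem _ ((RingHom.mem_ker).2 hg), rfl⟩
    exact (ValuationSubring.mem_nonunits_iff O).1 h1
  have hsub : ∀ x : O, O.subtype x = (x : Ω) := fun _ => rfl
  have hcomp : O.subtype.comp φO = φ := by
    ext x <;> rfl
  -- integrality of the root
  have hzint : IsIntegral O z := by
    have hu : IsUnit (φO (C c)) := by
      apply IsUnit.map
      exact (isUnit_iff_ne_zero.2 hc).map C
    obtain ⟨u, hu⟩ := hu
    refine ⟨Polynomial.C (↑u⁻¹ : O) * (P.fib R).map φO, ?_, ?_⟩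
    · have h1 : ((P.fib R).map φO).leadingCoeff = φO (C c) := by
        rw [Polynomial.leadingCoeff_map_of_leadingCoeff_ne_zero, hlc]
        rw [hlc]
        intro h
        exact hφC c hc (by rw [← hcomp, RingHom.comp_apply, h, map_zero])
      unfold Polynomial.Monic
      rw [Polynomial.leadingCoeff_mul, Polynomial.leadingCoeff_C, h1, ← hu]
      simp
    · rw [Polynomial.eval₂_mul]
      have h2 : Polynomial.eval₂ (algebraMap O Ω) z ((P.fib R).map φO) = 0 := by
        rw [Polynomial.eval₂_map]
        have h3 : (algebraMap O Ω).comp φO = φ := hcomp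
        rw [h3, ← Polynomial.eval_map]
        exact hz1
      rw [h2, mul_zero]
  obtain ⟨zO, hzO⟩ := IsIntegrallyClosed.algebraMap_eq_of_integral hzint
  have hzO' : (zO : Ω) = z := hzO
  -- the double root in `O`
  have hinjO : Function.Injective O.subtype := Subtype.val_injective
  have hr1 : ((P.fib R).map φO).eval zO = 0 := by
    apply hinjO
    rw [map_zero, ← Polynomial.eval_map_apply, Polynomial.map_map, hcomp]
    change Polynomial.eval (zO : Ω) _ = 0
    rw [hzO']
    exact hz1
  have hr2 : ((P.fib R).map φO).derivative.eval zO = 0 := by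
    apply hinjO
    rw [map_zero, ← Polynomial.eval_map_apply, ← Polynomial.derivative_map, Polynomial.map_map,
      hcomp]
    change Polynomial.eval (zO : Ω) _ = 0
    rw [hzO']
    exact hz2
  -- notation
  set ik : k →+* O := φO.comp C with hik
  set iK : K →+* O := ik.comp (algebraMap K k) with hiK
  set a : Fin 3 → k := dirC P L' with hadef
  set pO : Fin 3 → O := fun j => φO (P.L j) + ik (P.v j) * zO with hpO
  set w : Fin 3 → O := fun m => ∑ i, iK (L' m i) * (pO i - iK (q i)) with hw
  set S : O := φO (ell P q L' 1) with hS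
  set T : O := φO (ell P q L' 2) with hT
  have hw12 : ∀ m, w m = φO (ell P q L' m) + ik (a m / a 0) * w 0 := by
    intro m
    have e1 : φO (ell P q L' m) = ∑ i, ik (lform P L' m i) * (φO (P.L i) - iK (q i)) := by
      rw [ell, map_sum]
      refine Finset.sum_congr rfl fun i _ => ?_
      rw [map_mul, map_sub]
      rfl
    have e2 : ∑ i, ik (lform P L' m i) * (φO (P.L i) - iK (q i)) =
        ∑ i, ik (lform P L' m i) * (pO i - iK (q i)) := by
      have e3 : ∑ i, ik (lform P L' m i) * (pO i - iK (q i)) =
          ∑ i, ik (lform P L' m i) * (φO (P.L i) - iK (q i)) +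
            ik (∑ i, lform P L' m i * P.v i) * zO := by
        rw [map_sum, Finset.sum_mul, ← Finset.sum_add_distrib]
        refine Finset.sum_congr rfl fun i _ => ?_
        rw [map_mul, hpO]
        ring
      rw [e3, lform_v P L' m ha, map_zero, zero_mul, add_zero]
    rw [e1, e2, hw]
    simp only
    rw [Finset.mul_sum, ← Finset.sum_add_distrib]
    refine Finset.sum_congr rfl fun i _ => ?_
    rw [lform, map_sub, map_mul]
    have e4 : ∀ x, ik (algebraMap K k x) = iK x := fun x => rfl
    rw [e4, e4, hadef]
    ring
  have hLw : ∀ i, iK (q i) + ∑ j, iK (L i j) * w j = pO i := by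
    intro i
    have e1 : ∑ j, iK (L i j) * w j = ∑ i', iK (∑ j, L i j * L' j i') * (pO i' - iK (q i')) := by
      simp only [hw, Finset.mul_sum, map_sum, map_mul, Finset.sum_mul]
      rw [Finset.sum_comm]
      refine Finset.sum_congr rfl fun i' _ => Finset.sum_congr rfl fun j _ => ?_
      ring
    rw [e1]
    simp only [hLL']
    rw [Finset.sum_eq_single i]
    · simp
    · intro b _ hb
      rw [if_neg (Ne.symm hb), map_zero, zero_mul]
    · simp
  have hLa : ∀ i, ∑ j, iK (L i j) * ik (a j) = ik (P.v i) := by
    intro i
    have e1 : ∑ j, iK (L i j) * ik (a j) = ∑ i', iK (∑ j, L i j * L' j i') * ik (P.v i') := by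
      have e2 : ∀ j, ik (a j) = ∑ i', iK (L' j i') * ik (P.v i') := by
        intro j
        rw [hadef, dirC, map_sum]
        refine Finset.sum_congr rfl fun i' _ => ?_
        rw [map_mul]; rfl
      simp only [e2, Finset.mul_sum, map_sum, map_mul, Finset.sum_mul]
      rw [Finset.sum_comm]
      refine Finset.sum_congr rfl fun i' _ => Finset.sum_congr rfl fun j _ => ?_
      ring
    rw [e1]
    simp only [hLL']
    rw [Finset.sum_eq_single i]
    · simp
    · intro b _ hb
      rw [if_neg (Ne.symm hb), map_zero, zero_mul]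
    · simp
  -- the polynomial `F_f(X) = f(X, S + a X, T + b X)`
  let pts : Fin 3 → Polynomial O := ![Polynomial.X, Polynomial.C S + Polynomial.C (ik (a 1 / a 0)) *
      Polynomial.X, Polynomial.C T + Polynomial.C (ik (a 2 / a 0)) * Polynomial.X]
  let Fh : MvPolynomial (Fin 3) K →+* Polynomial O := eval₂Hom (Polynomial.C.comp iK) pts
  have hpts : ∀ j, (pts j).comp (Polynomial.C (w 0) + Polynomial.C (ik (a 0)) * Polynomial.X) =
      Polynomial.C (w j) + Polynomial.C (ik (a j)) * Polynomial.X := by
    intro j
    have ha0 : ∀ m, ik (a m / a 0) * ik (a 0) = ik (a m) := by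
      intro m
      rw [← map_mul]
      congr 1
      field_simp
    fin_cases j
    · simp [pts]
    · have e1 := hw12 1
      simp only [pts, Fin.mk_one, Matrix.cons_val_one, Matrix.cons_val_zero,
        Polynomial.add_comp, Polynomial.C_comp, Polynomial.mul_comp, Polynomial.X_comp]
      rw [e1, ← ha0 1, map_add, map_mul, map_mul, hS]
      ring
    · have e1 := hw12 2
      simp only [pts, Fin.reduceFinMk, Matrix.cons_val, Polynomial.add_comp, Polynomial.C_comp,
        Polynomial.mul_comp, Polynomial.X_comp]
      rw [e1, ← ha0 2, map_add, map_mul, map_mul, hT]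
      ring
  have hFρ : (Fh (aff q L R)).comp (Polynomial.C (w 0) + Polynomial.C (ik (a 0)) * Polynomial.X) =
      ((P.fib R).map φO).comp (Polynomial.C zO + Polynomial.X) := by
    have key : ((Polynomial.compRingHom (Polynomial.C (w 0) + Polynomial.C (ik (a 0)) *
        Polynomial.X)).comp Fh).comp (aff q L) =
        ((Polynomial.compRingHom (Polynomial.C zO + Polynomial.X)).comp
          (Polynomial.mapRingHom φO)).comp
        (aeval (fun j => Polynomial.C (P.L j) + Polynomial.C (C (P.v j)) * Polynomial.X) :
          MvPolynomial (Fin 3) K →ₐ[K] Polynomial (MvPolynomial (Fin 2) k)).toRingHom := by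
      refine MvPolynomial.ringHom_ext (fun x => ?_) (fun i => ?_)
      · have e1 : aff q L (C x) = C x := by
          simp only [aff, AlgHom.toRingHom_eq_coe, RingHom.coe_coe, algHom_C, algebraMap_eq]
        simp only [RingHom.comp_apply, e1, AlgHom.toRingHom_eq_coe, RingHom.coe_coe, algHom_C]
        have e2 : algebraMap K (Polynomial (MvPolynomial (Fin 2) k)) x =
            Polynomial.C (C (algebraMap K k x)) := rfl
        rw [e2]
        simp only [Fh, coe_eval₂Hom, eval₂_C, Polynomial.coe_compRingHom_apply,
          RingHom.comp_apply, Polynomial.C_comp, Polynomial.coe_mapRingHom, Polynomial.map_C]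
        rfl
      · have e1 : aff q L (X i) = C (q i) + ∑ j, C (L i j) * X j := by
          simp only [aff, AlgHom.toRingHom_eq_coe, RingHom.coe_coe, aeval_X]
        simp only [RingHom.comp_apply, e1, AlgHom.toRingHom_eq_coe, RingHom.coe_coe, aeval_X]
        simp only [Fh, map_add, map_sum, map_mul, coe_eval₂Hom, eval₂_C, eval₂_X,
          Polynomial.coe_compRingHom_apply, RingHom.comp_apply,
          Polynomial.coe_mapRingHom, Polynomial.map_C, Polynomial.C_comp, hpts,
          Polynomial.map_X, Polynomial.X_comp]
        have e3 : ∀ j, Polynomial.C (iK (L i j)) * (Polynomial.C (w j) +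
            Polynomial.C (ik (a j)) * Polynomial.X) = Polynomial.C (iK (L i j) * w j) +
            Polynomial.C (iK (L i j) * ik (a j)) * Polynomial.X := by
          intro j
          rw [map_mul, map_mul]; ring
        have e4 : ∀ x, ik (algebraMap K k x) = iK x := fun x => rfl
        simp only [e3, Finset.sum_add_distrib, ← Finset.sum_mul, ← map_sum]
        rw [← add_assoc, ← map_add, hLw, hLa]
        simp only [hpO]
        rw [map_add, map_mul]
        have e5 : ik (P.v i) = φO (C (P.v i)) := rfl
        rw [e5]
        ring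
    exact DFunLike.congr_fun key R
  have ha0u : ik (a 0) ≠ 0 := by
    intro h
    apply hφC (a 0) ha
    have : φ (C (a 0)) = O.subtype (ik (a 0)) := rfl
    rw [this, h, map_zero]
  have hF1 : (Fh (aff q L R)).eval (w 0) = 0 := by
    have := congrArg (Polynomial.eval 0) hFρ
    rw [Polynomial.eval_comp, Polynomial.eval_comp] at this
    simp only [Polynomial.eval_add, Polynomial.eval_C, Polynomial.eval_mul, Polynomial.eval_X,
      mul_zero, add_zero] at this
    rw [this, hr1]
  have hF2 : (Fh (aff q L R)).derivative.eval (w 0) = 0 := by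
    have := congrArg (fun p => (Polynomial.derivative p).eval 0) hFρ
    simp only [Polynomial.derivative_comp, Polynomial.derivative_add, Polynomial.derivative_mul,
      Polynomial.derivative_C, Polynomial.derivative_X, Polynomial.eval_mul, Polynomial.eval_add,
      Polynomial.eval_C, Polynomial.eval_comp, Polynomial.eval_X, mul_zero, add_zero, zero_add,
      mul_one, zero_mul, one_mul] at this
    rw [hr2] at this
    rcases mul_eq_zero.1 this with h | h
    · exact absurd h ha0u
    · exact h
  have hSm : S ∈ IsLocalRing.maximalIdeal O := hφOm _ (ell_pt P q L' 1 ha)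
  have hTm : T ∈ IsLocalRing.maximalIdeal O := hφOm _ (ell_pt P q L' 2 ha)
  have hS0 : S ≠ 0 := by
    intro h
    apply hℓ
    rw [← hφker]
    have : φ (ell P q L' 1) = O.subtype S := rfl
    rw [this, h, map_zero]
  by_cases hn : w 0 ∈ IsLocalRing.maximalIdeal O
  · -- use `core`
    obtain ⟨g, hg⟩ := hρ
    have hFδ : Fh δ = Fh (aff q L R) * Fh g := by rw [hg, map_mul]
    refine core O iK δ δt e H1 H2 H3 (ik (a 1 / a 0)) (ik (a 2 / a 0)) S T (w 0) hS0 hSm hTm hn
      ?_ ?_
    · change (Fh δ).eval (w 0) = 0
      rw [hFδ, Polynomial.eval_mul, hF1, zero_mul]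
    · change (Fh δ).derivative.eval (w 0) = 0
      rw [hFδ, Polynomial.derivative_mul, Polynomial.eval_add, Polynomial.eval_mul,
        Polynomial.eval_mul, hF1, hF2, zero_mul, zero_mul, add_zero]
  · -- use `no_double`
    set κ := IsLocalRing.ResidueField O with hκ
    set res : O →+* κ := IsLocalRing.residue O with hres
    let _ : Algebra k κ := (res.comp ik).toAlgebra
    have : CharZero κ := by
      refine ⟨fun m n h => ?_⟩
      have h1 : algebraMap k κ (m : k) = algebraMap k κ (n : k) := by
        rw [map_natCast, map_natCast]; exact h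
      exact Nat.cast_injective ((algebraMap k κ).injective h1)
    have hresm : ∀ x : O, x ∈ IsLocalRing.maximalIdeal O → res x = 0 := fun x hx =>
      (IsLocalRing.residue_eq_zero_iff x).2 hx
    have hw0 : res (w 0) ≠ 0 := fun h => hn ((IsLocalRing.residue_eq_zero_iff _).1 h)
    -- translate
    let tr : MvPolynomial (Fin 3) K ≃+* MvPolynomial (Fin 3) K :=
      RingEquiv.ofRingHom
        (aeval (fun i => C (q i) + X i) : MvPolynomial (Fin 3) K →ₐ[K] _).toRingHom
        (aeval (fun i => X i - C (q i)) : MvPolynomial (Fin 3) K →ₐ[K] _).toRingHom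
        (by
          refine MvPolynomial.ringHom_ext (fun x => ?_) (fun i => ?_)
          · simp
          · simp)
        (by
          refine MvPolynomial.ringHom_ext (fun x => ?_) (fun i => ?_)
          · simp
          · simp)
    have hRq : Squarefree (tr R) := by
      intro x hx
      have h1 : tr.symm x * tr.symm x ∣ R := by
        have := map_dvd tr.symm hx
        rwa [map_mul, RingEquiv.symm_apply_apply] at this
      have := (hR _ h1).map tr
      rwa [RingEquiv.apply_symm_apply] at this
    have hRq0 : tr R ≠ 0 := by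
      intro h
      exact hR0 (tr.injective (by rw [h, map_zero]))
    have e1 : ((aeval (fun j => Polynomial.C (P.v j) * Polynomial.X) (tr R) : Polynomial k).map
        (algebraMap k κ)) = ((Fh (aff q L R)).map res).comp
        (Polynomial.C (res (ik (a 0))) * Polynomial.X) := by
      have key : ((Polynomial.mapRingHom (algebraMap k κ)).comp
          (aeval (fun j => Polynomial.C (P.v j) * Polynomial.X) :
            MvPolynomial (Fin 3) K →ₐ[K] Polynomial k).toRingHom).comp tr.toRingHom =
          (((Polynomial.compRingHom (Polynomial.C (res (ik (a 0))) * Polynomial.X)).comp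
            (Polynomial.mapRingHom res)).comp Fh).comp (aff q L) := by
        have hpts' : ∀ j, ((pts j).map res).comp
            (Polynomial.C (res (ik (a 0))) * Polynomial.X) =
            Polynomial.C (res (ik (a j))) * Polynomial.X := by
          intro j
          have ha0 : ∀ m, res (ik (a m / a 0)) * res (ik (a 0)) = res (ik (a m)) := by
            intro m
            rw [← map_mul, ← map_mul]
            congr 2
            field_simp
          fin_cases j
          · simp [pts]
          · simp only [pts, Fin.mk_one, Matrix.cons_val_one, Matrix.cons_val_zero,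
              Polynomial.map_add, Polynomial.map_C, Polynomial.map_mul, Polynomial.map_X,
              Polynomial.add_comp, Polynomial.C_comp, Polynomial.mul_comp, Polynomial.X_comp,
              hresm S hSm, map_zero, zero_add]
            rw [← ha0 1, map_mul]
            ring
          · simp only [pts, Fin.reduceFinMk, Matrix.cons_val,
              Polynomial.map_add, Polynomial.map_C, Polynomial.map_mul, Polynomial.map_X,
              Polynomial.add_comp, Polynomial.C_comp, Polynomial.mul_comp, Polynomial.X_comp,
              hresm T hTm, map_zero, zero_add]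
            rw [← ha0 2, map_mul]
            ring
        refine MvPolynomial.ringHom_ext (fun x => ?_) (fun i => ?_)
        · have e1 : aff q L (C x) = C x := by
            simp only [aff, AlgHom.toRingHom_eq_coe, RingHom.coe_coe, algHom_C, algebraMap_eq]
          have e2 : tr (C x) = C x := by
            simp [tr]
          simp only [RingHom.comp_apply, e1, AlgHom.toRingHom_eq_coe, RingHom.coe_coe,
            RingEquiv.toRingHom_eq_coe, e2, algHom_C]
          simp only [Fh, coe_eval₂Hom, eval₂_C, Polynomial.coe_compRingHom_apply,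
            RingHom.comp_apply, Polynomial.C_comp, Polynomial.coe_mapRingHom, Polynomial.map_C,
            Polynomial.algebraMap_apply]
          rfl
        · have e1 : aff q L (X i) = C (q i) + ∑ j, C (L i j) * X j := by
            simp only [aff, AlgHom.toRingHom_eq_coe, RingHom.coe_coe, aeval_X]
          have e2 : tr (X i) = C (q i) + X i := by
            simp [tr]
          simp only [RingHom.comp_apply, e1, AlgHom.toRingHom_eq_coe, RingHom.coe_coe,
            RingEquiv.toRingHom_eq_coe, e2, map_add, aeval_X, algHom_C]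
          simp only [Fh, map_add, map_sum, map_mul, coe_eval₂Hom, eval₂_C, eval₂_X,
            Polynomial.coe_compRingHom_apply, RingHom.comp_apply,
            Polynomial.coe_mapRingHom, Polynomial.map_C, Polynomial.C_comp, hpts',
            Polynomial.map_X, Polynomial.algebraMap_apply]
          have e3 : ∀ j, Polynomial.C (res (iK (L i j))) * (Polynomial.C (res (ik (a j))) *
              Polynomial.X) = Polynomial.C (res (iK (L i j) * ik (a j))) * Polynomial.X := by
            intro j
            rw [map_mul, map_mul]; ring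
          simp only [e3, ← Finset.sum_mul, ← map_sum]
          rw [hLa]
          rfl
      exact DFunLike.congr_fun key R
    have hak : res (ik (a 0)) ≠ 0 := by
      have : res (ik (a 0)) = algebraMap k κ (a 0) := rfl
      rw [this, map_ne_zero]
      exact ha
    refine no_double P hRq hRq0 (res (w 0) / res (ik (a 0))) (div_ne_zero hw0 hak) ?_ ?_
    · rw [e1, Polynomial.eval_comp]
      have e2 : Polynomial.eval (res (w 0) / res (ik (a 0)))
          (Polynomial.C (res (ik (a 0))) * Polynomial.X) = res (w 0) := by
        rw [Polynomial.eval_mul, Polynomial.eval_C, Polynomial.eval_X, mul_comm,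
          div_mul_cancel₀ _ hak]
      rw [e2, Polynomial.eval_map_apply, hF1, map_zero]
    · rw [e1, Polynomial.derivative_comp, Polynomial.eval_mul, Polynomial.eval_comp]
      have e2 : Polynomial.eval (res (w 0) / res (ik (a 0)))
          (Polynomial.C (res (ik (a 0))) * Polynomial.X) = res (w 0) := by
        rw [Polynomial.eval_mul, Polynomial.eval_C, Polynomial.eval_X, mul_comm,
          div_mul_cancel₀ _ hak]
      rw [e2, Polynomial.derivative_map, Polynomial.eval_map_apply, hF2, map_zero, mul_zero]

end

end Pool.Agent.TH213.EQ
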