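import Pool.Agent.TH213.EQ.Weight

/-!
# The image point is a simple point of the second branch locus
-/

set_option autoImplicit false

namespace Pool.Agent.TH213.EQ

open MvPolynomial

/-- Existence of the reduced equation. -/
theorem exists_isRed {K : Type} [Field K] {n : ℕ} (E : MvPolynomial (Fin n) K) (hE : E ≠ 0) :
    ∃ D, IsRed D E := by
  classical
  induction E using UniqueFactorizationMonoid.induction_on_prime with
  | h₁ => exact absurd rfl hE
  | h₂ x hx =>
    refine ⟨1, squarefree_one, one_dvd _, 0, ?_⟩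
    rw [pow_zero]
    exact hx.dvd
  | h₃ a p ha hp ih =>
    obtain ⟨D, hD1, hD2, m, hD3⟩ := ih ha
    by_cases hpD : p ∣ D
    · refine ⟨D, hD1, hD2.mul_left p, m + 1, ?_⟩
      rw [pow_succ, mul_comm]
      exact mul_dvd_mul hD3 hpD
    · refine ⟨p * D, ?_, mul_dvd_mul_left p hD2, m + 1, ?_⟩
      · rw [squarefree_mul_iff]
        exact ⟨hp.irreducible.isRelPrime_iff_not_dvd.2 hpD, hp.squarefree, hD1⟩
      · rw [mul_pow]
        exact mul_dvd_mul (dvd_pow_self p (by omega)) (hD3.trans (pow_dvd_pow D (by omega)))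

lemma exists_prime_dvd {K : Type} [Field K] {n : ℕ} (g : MvPolynomial (Fin n) K) (hg : g ≠ 0)
    (pt : Fin n → K) (h0 : eval pt g = 0) : ∃ π, Prime π ∧ π ∣ g ∧ eval pt π = 0 := by
  classical
  induction g using UniqueFactorizationMonoid.induction_on_prime with
  | h₁ => exact absurd rfl hg
  | h₂ x hx => exact absurd h0 ((hx.map (eval pt)).ne_zero)
  | h₃ a p ha hp ih =>
    rw [map_mul] at h0
    rcases mul_eq_zero.1 h0 with h | h
    · exact ⟨p, hp, dvd_mul_right _ _, h⟩
    · obtain ⟨π, h1, h2, h3⟩ := ih ha h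
      exact ⟨π, h1, h2.mul_left p, h3⟩

theorem stage2_simple {K k : Type} [Field K] [Field k] [Algebra K k] [CharZero K] [CharZero k]
    [IsAlgClosed k] (P : GP K k 2)
    (R : MvPolynomial (Fin 3) K) (hR : Squarefree R) (hdeg : 0 < R.totalDegree)
    (q : Fin 3 → K) (L L' : Fin 3 → Fin 3 → K)
    (hLL' : ∀ i j, ∑ m, L i m * L' m j = if i = j then 1 else 0)
    (hL'L : ∀ i j, ∑ m, L' i m * L m j = if i = j then 1 else 0)
    (δ : MvPolynomial (Fin 3) K) (δt : Polynomial (MvPolynomial (Fin 3) K)) (e : ℕ)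
    (H1 : theta δ = Polynomial.X ^ e * δt)
    (H2 : eval ![1, 0, 0] (δt.coeff 0) ≠ 0)
    (H3 : (aeval ![Polynomial.X, 1, 0] (δt.coeff 0) : Polynomial K).Separable)
    (hρ : aff q L R ∣ δ)
    (hw : ∀ m : Fin 3 →₀ ℕ, coeff m (aff q L R) ≠ 0 → 2 ≤ m 0 + m 1) :
    ∃ D', IsRed D' (P.fib R).discr ∧ Simple D' (P.pt q) := by
  classical
  have hR0 : R ≠ 0 := by
    rintro rfl
    simp at hdeg
  -- the direction is generic
  have ha : dirC P L' 0 ≠ 0 := by
    intro h
    have h1 : aeval P.v (∑ i, C (L' 0 i) * X i : MvPolynomial (Fin 3) K) = 0 := by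
      rw [map_sum, ← h, dirC]
      simp [algebraMap_eq]
    have h2 : ∀ w : Fin 2 → K, L' 0 0 * w 0 + L' 0 1 * w 1 + L' 0 2 = 0 := by
      intro w
      have := P.spec h1 w
      rw [← this, Fin.sum_univ_three, map_add, map_add, map_mul, map_mul, map_mul, eval_C, eval_C,
        eval_C, eval_X, eval_X, eval_X]
      have e0 : (Fin.snoc w 1 : Fin 3 → K) 0 = w 0 := rfl
      have e1 : (Fin.snoc w 1 : Fin 3 → K) 1 = w 1 := rfl
      have e2 : (Fin.snoc w 1 : Fin 3 → K) 2 = 1 := rfl
      rw [e0, e1, e2, mul_one]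
    have e0 := h2 ![0, 0]
    have e1 := h2 ![1, 0]
    have e2 := h2 ![0, 1]
    simp at e0 e1 e2
    have := hL'L 0 0
    rw [Fin.sum_univ_three] at this
    rw [e0] at e1 e2
    simp at e1 e2
    rw [e0, e1, e2] at this
    simp at this
  -- the gradient of `ell`
  have hgrad : ∃ i, ∑ j, lform P L' 1 j * P.B j i ≠ 0 := by
    by_contra hno
    push Not at hno
    have h1 : ∀ j', lform P L' 1 j' = 0 := by
      intro j'
      have h2 : ∑ j, lform P L' 1 j * (∑ i, P.B j i * P.U i j' + P.v j *
          (if j' = Fin.last 2 then 1 else 0)) = lform P L' 1 j' := by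
        simp only [P.BU]
        simp
      rw [← h2]
      simp only [mul_add, Finset.sum_add_distrib]
      have h3 : ∑ j, lform P L' 1 j * ∑ i, P.B j i * P.U i j' =
          ∑ i, (∑ j, lform P L' 1 j * P.B j i) * P.U i j' := by
        simp only [Finset.mul_sum, Finset.sum_mul]
        rw [Finset.sum_comm]
        refine Finset.sum_congr rfl fun i _ => Finset.sum_congr rfl fun j _ => ?_
        ring
      have h4 : ∑ j, lform P L' 1 j * (P.v j * (if j' = Fin.last 2 then 1 else 0)) =
          (∑ j, lform P L' 1 j * P.v j) * (if j' = Fin.last 2 then 1 else 0) := by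
        rw [Finset.sum_mul]
        refine Finset.sum_congr rfl fun j _ => ?_
        ring
      rw [h3, h4, lform_v P L' 1 ha]
      simp [hno]
    have h5 : ∑ i, lform P L' 1 i * algebraMap K k (L i 1) = 0 := by
      simp [h1]
    have h6 : ∑ i, lform P L' 1 i * algebraMap K k (L i 1) =
        algebraMap K k (∑ i, L' 1 i * L i 1) -
        dirC P L' 1 / dirC P L' 0 * algebraMap K k (∑ i, L' 0 i * L i 1) := by
      rw [map_sum, map_sum, Finset.mul_sum, ← Finset.sum_sub_distrib]
      refine Finset.sum_congr rfl fun i _ => ?_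
      rw [lform, map_mul, map_mul]; ring
    rw [h6, hL'L, hL'L] at h5
    simp at h5
  have hell_pd : ∀ i, pderiv i (ell P q L' 1) = C (∑ j, lform P L' 1 j * P.B j i) := by
    intro i
    rw [ell, map_sum, map_sum]
    refine Finset.sum_congr rfl fun j _ => ?_
    rw [pderiv_C_mul, map_sub, pderiv_C, sub_zero, GP.L, map_sum]
    rw [Finset.sum_eq_single i]
    · rw [pderiv_C_mul, pderiv_X_self, map_mul]; ring
    · intro b _ hb
      rw [pderiv_C_mul, pderiv_X_of_ne hb, mul_zero]
    · simp
  obtain ⟨i₀, hi₀⟩ := hgrad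
  have hell0 : ell P q L' 1 ≠ 0 := by
    intro h
    have := hell_pd i₀
    rw [h, map_zero] at this
    exact hi₀ (C_injective _ _ (by rw [← this, map_zero]))
  -- `D2 ≠ 0`
  have hD2 : (P.fib R).discr ≠ 0 := by
    intro h
    refine stage2 P R hR hdeg q L L' hLL' δ δt e H1 H2 H3 hρ ha ⊥ (hp := Ideal.isPrime_bot) ?_ ?_ ?_
    · intro g hg
      rw [Ideal.mem_bot] at hg
      rw [hg, map_zero]
    · rw [h]; exact Ideal.zero_mem _
    · rw [Ideal.mem_bot]; exact hell0
  obtain ⟨D', hD'⟩ := exists_isRed _ hD2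
  refine ⟨D', hD', ?_⟩
  obtain ⟨hsq, hdvd, m, hpow⟩ := hD'
  have hD'0 : D' ≠ 0 := hsq.ne_zero
  -- primes through the point divide `ell`
  have hprime : ∀ π, Prime π → π ∣ D' → eval (P.pt q) π = 0 → π ∣ ell P q L' 1 := by
    intro π hπ hπD hπ0
    by_contra hno
    have hPr : (Ideal.span {π}).IsPrime := (Ideal.span_singleton_prime hπ.ne_zero).2 hπ
    refine stage2 P R hR hdeg q L L' hLL' δ δt e H1 H2 H3 hρ ha (Ideal.span {π}) ?_ ?_ ?_
    · intro g hg
      obtain ⟨c, rfl⟩ := Ideal.mem_span_singleton.1 hg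
      rw [map_mul, hπ0, zero_mul]
    · exact Ideal.mem_span_singleton.2 (hπD.trans hdvd)
    · intro h
      exact hno (Ideal.mem_span_singleton.1 h)
  -- the point is on the branch locus
  have hRq := eval_pderiv_axis (RingHom.id K) q L L' hLL' (R := R) hw 0
  simp only [RingHom.id_apply, mul_zero, add_zero] at hRq
  obtain ⟨hfd, c, hc, hlc⟩ := P.lead hR0
  have hpt : eval (P.pt q) (P.fib R).discr = 0 := by
    rw [discr_zero_iff (P.fib R) (eval (P.pt q)) (by rw [hfd]; exact hdeg)
      (by rw [hlc, eval_C]; exact hc)]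
    refine ⟨algebraMap K k (q (Fin.last 2)), ?_⟩
    set g : Fin 3 → Polynomial k := fun j => Polynomial.C (eval (P.pt q) (P.L j)) +
      Polynomial.C (P.v j) * Polynomial.X with hg
    have h1 : (P.fib R).map (eval (P.pt q)) = aeval g R := by
      have key : (Polynomial.mapRingHom (eval (P.pt q))).comp
          (aeval (fun j => Polynomial.C (P.L j) + Polynomial.C (C (P.v j)) * Polynomial.X) :
            MvPolynomial (Fin 3) K →ₐ[K] Polynomial (MvPolynomial (Fin 2) k)).toRingHom =
          (aeval g : MvPolynomial (Fin 3) K →ₐ[K] Polynomial k).toRingHom := by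
        refine MvPolynomial.ringHom_ext (fun x => ?_) (fun j => ?_)
        · simp only [RingHom.comp_apply, AlgHom.toRingHom_eq_coe, RingHom.coe_coe, algHom_C]
          have e2 : algebraMap K (Polynomial (MvPolynomial (Fin 2) k)) x =
            Polynomial.C (C (algebraMap K k x)) := rfl
          rw [e2]
          simp
        · simp [hg]
      exact DFunLike.congr_fun key R
    have h2 : ∀ j, (g j).eval (algebraMap K k (q (Fin.last 2))) = algebraMap K k (q j) := by
      intro j
      have h3 : eval (P.pt q) (P.L j) = algebraMap K k (q j) - P.v j *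
        algebraMap K k (q (Fin.last 2)) := P.eval_L q j
      simp only [hg, Polynomial.eval_add, Polynomial.eval_C, Polynomial.eval_mul,
        Polynomial.eval_X, h3]
      ring
    have h3 : ∀ G : MvPolynomial (Fin 3) K, (aeval g G : Polynomial k).eval
        (algebraMap K k (q (Fin.last 2))) = algebraMap K k (eval q G) := by
      intro G
      have key : (Polynomial.evalRingHom (algebraMap K k (q (Fin.last 2)))).comp
          (aeval g : MvPolynomial (Fin 3) K →ₐ[K] Polynomial k).toRingHom =
          (algebraMap K k).comp (eval q) := by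
        refine MvPolynomial.ringHom_ext (fun x => ?_) (fun j => ?_)
        · simp
        · have := h2 j
          simpa using this
      exact DFunLike.congr_fun key G
    constructor
    · rw [h1, h3]
      have := hRq.1
      rw [show eval q R = 0 from this, map_zero]
    · rw [h1]
      have h4 := chain_rule (K := K) (B := Polynomial k)
        (D := (Polynomial.derivative (R := k)).toAddMonoidHom)
        (by
          intro a b
          change Polynomial.derivative (a * b) = _
          rw [Polynomial.derivative_mul]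
          change _ = a * Polynomial.derivative b + b * Polynomial.derivative a
          ring)
        (by
          intro c
          change Polynomial.derivative (Polynomial.C (algebraMap K k c)) = 0
          exact Polynomial.derivative_C) g R
      change Polynomial.derivative (aeval g R) = _ at h4
      rw [h4, Polynomial.eval_finsetSum]
      refine Finset.sum_eq_zero fun j _ => ?_
      rw [Polynomial.eval_mul, h3]
      have := hRq.2 j
      rw [show eval q (pderiv j R) = 0 from this, map_zero, zero_mul]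
  have hD'pt : eval (P.pt q) D' = 0 := by
    obtain ⟨w, hw⟩ := hpow
    have h1 := congrArg (eval (P.pt q)) hw
    rw [map_pow, map_mul, hpt, zero_mul] at h1
    exact eq_zero_of_pow_eq_zero h1
  obtain ⟨π, hπ, hπD, hπ0⟩ := exists_prime_dvd D' hD'0 _ hD'pt
  obtain ⟨g, hg⟩ := hprime π hπ hπD hπ0
  obtain ⟨h, hh⟩ := hπD
  -- gradient of `π`
  have e1 : ∀ i, eval (P.pt q) (pderiv i (ell P q L' 1)) =
      eval (P.pt q) (pderiv i π) * eval (P.pt q) g := by
    intro i
    rw [hg, pderiv_mul, map_add, map_mul, map_mul, hπ0, zero_mul, add_zero]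
  have e2 : eval (P.pt q) (pderiv i₀ π) ≠ 0 ∧ eval (P.pt q) g ≠ 0 := by
    have := e1 i₀
    rw [hell_pd, eval_C] at this
    rw [this] at hi₀
    exact ⟨left_ne_zero_of_mul hi₀, right_ne_zero_of_mul hi₀⟩
  have e3 : eval (P.pt q) h ≠ 0 := by
    intro h0
    have hh0 : h ≠ 0 := by
      rintro rfl
      rw [mul_zero] at hh
      exact hD'0 hh
    obtain ⟨π₂, hπ₂, hπ₂h, hπ₂0⟩ := exists_prime_dvd h hh0 _ h0
    have h1 : π₂ ∣ ell P q L' 1 := hprime π₂ hπ₂ (by rw [hh]; exact hπ₂h.mul_left π) hπ₂0
    rw [hg] at h1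
    have h2 : π₂ ∣ π := by
      rcases hπ₂.dvd_or_dvd h1 with h | h
      · exact h
      · obtain ⟨c, hc⟩ := h
        exfalso
        apply e2.2
        rw [hc, map_mul, hπ₂0, zero_mul]
    have h3 : π₂ * π₂ ∣ D' := by
      rw [hh]
      exact mul_dvd_mul h2 hπ₂h
    exact hπ₂.not_isUnit (hsq _ h3)
  refine ⟨hD'pt, i₀, ?_⟩
  rw [hh, pderiv_mul, map_add, map_mul, map_mul, hπ0, zero_mul, add_zero]
  exact mul_ne_zero e2.1 e3

end Pool.Agent.TH213.EQ
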