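import Pool.Agent.TH213.EQ.Stage2

/-!
# Weights of monomials; chain rules
-/

set_option autoImplicit false

namespace Pool.Agent.TH213.EQ

open MvPolynomial

section chain

/-- Chain rule. -/
theorem chain_rule {K B : Type} [Field K] [CommRing B] [Algebra K B] {n : ℕ} (D : B →+ B)
    (hD : ∀ a b, D (a * b) = a * D b + b * D a) (hC : ∀ c : K, D (algebraMap K B c) = 0)
    (g : Fin n → B) (f : MvPolynomial (Fin n) K) :
    D (aeval g f) = ∑ i, aeval g (pderiv i f) * D (g i) := by
  induction f using MvPolynomial.induction_on with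
  | C a => simp [hC]
  | add p q hp hq =>
    simp only [map_add, hp, hq, add_mul, Finset.sum_add_distrib]
  | mul_X p j hp =>
    rw [map_mul, hD, hp, aeval_X]
    simp only [pderiv_mul, pderiv_X, map_add, map_mul, aeval_X, add_mul, Finset.sum_add_distrib,
      Finset.mul_sum]
    rw [add_comm]
    congr 1
    · refine Finset.sum_congr rfl fun i _ => ?_
      ring
    · rw [Finset.sum_eq_single j]
      · simp
      · intro b _ hb
        simp [Pi.single_apply, hb]
      · simp

end chain

variable {K : Type} [Field K]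

lemma theta_monomial (m : Fin 3 →₀ ℕ) (c : K) :
    theta (monomial m c) = Polynomial.C (monomial m c) * Polynomial.X ^ (5 * m 0 + 4 * m 1) := by
  have h1 : (monomial m c : MvPolynomial (Fin 3) K) = C c * ∏ i, X i ^ m i := by
    rw [monomial_eq, Finsupp.prod_fintype _ _ (fun _ => pow_zero _)]
  rw [h1, map_mul, theta_C, map_prod]
  simp only [map_pow, Fin.prod_univ_three, theta_0, theta_1, theta_2, map_mul]
  rw [mul_pow, mul_pow, ← pow_mul, ← pow_mul, pow_add]
  ring

lemma coeff_theta (f : MvPolynomial (Fin 3) K) (m : Fin 3 →₀ ℕ) (j : ℕ) :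
    coeff m ((theta f).coeff j) = if 5 * m 0 + 4 * m 1 = j then coeff m f else 0 := by
  classical
  induction f using MvPolynomial.induction_on' with
  | monomial m' c =>
    rw [theta_monomial, Polynomial.coeff_C_mul, Polynomial.coeff_X_pow]
    by_cases h : m' = m
    · subst h
      split_ifs with h1 h2 h2
      · simp
      · exact absurd h1.symm h2
      · exact absurd h2.symm h1
      · simp
    · split_ifs <;> simp [coeff_monomial, h]
  | add p q hp hq =>
    rw [map_add, Polynomial.coeff_add, coeff_add, hp, hq, coeff_add]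
    split_ifs <;> simp

/-- Monomials of `f` have weight at least `e`. -/
theorem weight_le {f : MvPolynomial (Fin 3) K} {e : ℕ} (h : Polynomial.X ^ e ∣ theta f)
    {m : Fin 3 →₀ ℕ} (hm : coeff m f ≠ 0) : e ≤ 5 * m 0 + 4 * m 1 := by
  by_contra hlt
  push Not at hlt
  have h1 := coeff_theta f m (5 * m 0 + 4 * m 1)
  rw [if_pos rfl] at h1
  rw [Polynomial.X_pow_dvd_iff] at h
  rw [h _ hlt, coeff_zero] at h1
  exact hm h1.symm

/-- If all monomials have positive degree in the first two variables, the polynomial vanishes on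
the axis. -/
lemma eval_axis {B : Type} [CommRing B] (i : K →+* B) {f : MvPolynomial (Fin 3) K}
    (h : ∀ m : Fin 3 →₀ ℕ, coeff m f ≠ 0 → 1 ≤ m 0 + m 1) (t : B) :
    eval₂ i ![0, 0, t] f = 0 := by
  rw [eval₂_eq']
  refine Finset.sum_eq_zero fun m hm => ?_
  have h1 := h m (mem_support_iff.1 hm)
  rw [Fin.prod_univ_three]
  rcases Nat.eq_zero_or_pos (m 0) with h0 | h0
  · have h2 : m 1 ≠ 0 := by omega
    simp [h2]
  · have h2 : m 0 ≠ 0 := by omega
    simp [h2]

/-- If all monomials have degree at least `2` in the first two variables, then the derivatives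
vanish on the axis. -/
lemma eval_axis_pderiv {B : Type} [CommRing B] (i : K →+* B) {f : MvPolynomial (Fin 3) K}
    (h : ∀ m : Fin 3 →₀ ℕ, coeff m f ≠ 0 → 2 ≤ m 0 + m 1) (j : Fin 3) (t : B) :
    eval₂ i ![0, 0, t] (pderiv j f) = 0 := by
  apply eval_axis
  intro m hm
  rw [coeff_pderiv] at hm
  have h1 := h _ (left_ne_zero_of_mul hm)
  simp only [Finsupp.add_apply, Finsupp.single_apply] at h1
  fin_cases j
  · simp at h1; omega
  · simp at h1; omega
  · simp at h1; omega

/-- The derivatives of `R` on the stratum. -/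
theorem eval_pderiv_axis {B : Type} [CommRing B] (i : K →+* B) (q : Fin 3 → K)
    (L L' : Fin 3 → Fin 3 → K)
    (hLL' : ∀ i j, ∑ m, L i m * L' m j = if i = j then 1 else 0)
    {R : MvPolynomial (Fin 3) K}
    (h : ∀ m : Fin 3 →₀ ℕ, coeff m (aff q L R) ≠ 0 → 2 ≤ m 0 + m 1) (t : B) :
    eval₂ i (fun j => i (q j) + i (L j 2) * t) R = 0 ∧
    ∀ l, eval₂ i (fun j => i (q j) + i (L j 2) * t) (pderiv l R) = 0 := by
  have key : (eval₂Hom i ![0, 0, t]).comp (aff q L) =
      eval₂Hom i (fun j => i (q j) + i (L j 2) * t) := by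
    refine MvPolynomial.ringHom_ext (fun x => ?_) (fun j => ?_)
    · simp [aff, algebraMap_eq]
    · simp [aff, Fin.sum_univ_three]
  have key' : ∀ G, eval₂ i (fun j => i (q j) + i (L j 2) * t) G =
      eval₂ i ![0, 0, t] (aff q L G) := fun G => (DFunLike.congr_fun key G).symm
  refine ⟨?_, fun l => ?_⟩
  · rw [key']
    exact eval_axis i (fun m hm => (by have := h m hm; omega)) t
  · rw [key']
    have h1 : ∀ j, pderiv j (aff q L R) = ∑ i, C (L i j) * aff q L (pderiv i R) := by
      intro j
      have h2 := chain_rule (K := K) (B := MvPolynomial (Fin 3) K)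
        (D := (pderiv j : Derivation K _ _).toLinearMap.toAddMonoidHom)
        (by intro a b; simp) (by intro c; simp [algebraMap_eq])
        (fun i => C (q i) + ∑ j, C (L i j) * X j) R
      change pderiv j (aff q L R) = _ at h2
      rw [h2]
      refine Finset.sum_congr rfl fun i _ => ?_
      have h3 : pderiv j (C (q i) + ∑ j, C (L i j) * X j : MvPolynomial (Fin 3) K) = C (L i j) := by
        rw [map_add, pderiv_C, zero_add, map_sum]
        simp only [pderiv_C_mul, pderiv_X]
        rw [Finset.sum_eq_single j]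
        · simp
        · intro b _ hb
          simp [Pi.single_apply, hb.symm]
        · simp
      change aeval _ (pderiv i R) * pderiv j (C (q i) + ∑ j, C (L i j) * X j) = _
      rw [h3, mul_comm]
      rfl
    have h4 : aff q L (pderiv l R) = ∑ j, C (L' j l) * pderiv j (aff q L R) := by
      simp only [h1, Finset.mul_sum]
      rw [Finset.sum_comm]
      have h5 : ∀ i, ∑ j, C (L' j l) * (C (L i j) * aff q L (pderiv i R)) =
          C (∑ j, L i j * L' j l) * aff q L (pderiv i R) := by
        intro i
        rw [map_sum, Finset.sum_mul]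
        refine Finset.sum_congr rfl fun j _ => ?_
        rw [map_mul]; ring
      simp only [h5, hLL']
      rw [Finset.sum_eq_single l]
      · simp
      · intro b _ hb
        simp [hb]
      · simp
    rw [h4]
    have h6 : eval₂ i ![0, 0, t] (∑ j, C (L' j l) * pderiv j (aff q L R)) =
        ∑ j, i (L' j l) * eval₂ i ![0, 0, t] (pderiv j (aff q L R)) := by
      rw [← coe_eval₂Hom, map_sum]
      simp
    rw [h6]
    refine Finset.sum_eq_zero fun j _ => ?_
    rw [eval_axis_pderiv i h j t, mul_zero]

end Pool.Agent.TH213.EQ
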